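import Mathlib

set_option autoImplicit false

namespace Pool.Agent.H82.SVL

/-- Bit strings of length `m`. -/
abbrev Str (m : ℕ) : Type := Fin m → Bool

/-- Families of permutations, one permutation of `{0,1}^m` for every `m`. -/
abbrev Fam : Type := ∀ m : ℕ, Equiv.Perm (Str m)

/-- Adaptive query computations with output in `α`. A query of size `m` is an element of
`X m`; its answer is a bit string of length `m`, on which the rest of the computation may
depend in an arbitrary way. -/
inductive Comp (X : ℕ → Type) (α : Type) : Type
  | ret (a : α) : Comp X α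
  | ask (m : ℕ) (x : X m) (k : Str m → Comp X α) : Comp X α

/-- The output when the queries are answered by `O`. -/
def Comp.run {X : ℕ → Type} {α : Type} (O : ∀ m, X m → Str m) : Comp X α → α
  | Comp.ret a => a
  | Comp.ask m x k => Comp.run O (k (O m x))

/-- Whatever the answers are, at most `q` queries are made, each of size at most `ℓ`. -/
def Comp.Within {X : ℕ → Type} {α : Type} (ℓ : ℕ) : Comp X α → ℕ → Prop
  | Comp.ret _, _ => True
  | Comp.ask _ _ _, 0 => False
  | Comp.ask m _ k, q + 1 => m ≤ ℓ ∧ ∀ v, Comp.Within ℓ (k v) q

/-- Uniform probability of an event on a finite set. -/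
noncomputable def prob {Ω : Type} [Fintype Ω] (E : Ω → Prop) [DecidablePred E] : ℝ :=
  ((Finset.univ.filter E).card : ℝ) / Fintype.card Ω

/-- `f n = n^{-ω(1)}` for a nonnegative function `f`. -/
def Negligible (f : ℕ → ℝ) : Prop :=
  ∀ c : ℕ, ∀ᶠ n : ℕ in Filter.atTop, f n ≤ ((n : ℝ) ^ c)⁻¹

/-- A sink-of-verifiable-line instance `(S, V, L)` on `{0,1}^n`, where `S` and `V` may query a
permutation family. -/
structure SVL (n : ℕ) : Type where
  S : Str n → Comp Str (Str n)
  V : Str n → {i : ℕ // 1 ≤ i ∧ i ≤ 2 ^ n} → Comp Str Bool
  L : {i : ℕ // 1 ≤ i ∧ i ≤ 2 ^ n}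

namespace SVL

variable {n : ℕ}

/-- `S^i(0^n)` relative to `π`. -/
def line (I : SVL n) (π : Fam) : ℕ → Str n
  | 0 => fun _ => false
  | i + 1 => (I.S (line I π i)).run (fun m => π m)

/-- `V(x,i) = 1` iff `x = S^i(0^n)`, relative to `π`. -/
def Valid (I : SVL n) (π : Fam) : Prop :=
  ∀ x i, (I.V x i).run (fun m => π m) = true ↔ x = I.line π i.1

/-- All computations of the instance make at most `q` queries of length at most `q`. -/
def Bdd (I : SVL n) (q : ℕ) : Prop :=
  (∀ x, (I.S x).Within q q) ∧ ∀ x i, (I.V x i).Within q q

end SVL

/-- A candidate construction of SVL instances from permutations. -/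
structure Construction : Type 1 where
  /-- descriptions of instances with security parameter `n` -/
  Code : ℕ → Type
  /-- the instance described (with oracle computations `S` and `V`) -/
  dec : ∀ n, Code n → SVL n
  /-- number of random bits of the sampler -/
  cG : ℕ → ℕ
  /-- the oracle sampler -/
  G : ∀ n, Str (cG n) → Comp Str (Code n)
  /-- number of random bits of the reduction -/
  cR : ℕ → ℕ
  /-- the reduction on input `y` in `{0,1}^m`, with oracle access to the permutation family
  and to the solver -/
  R : ∀ m, Str (cR m) → Str m → Comp (fun i => Str i ⊕ Code i) (Str m)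

namespace Construction

variable (K : Construction)

/-- The instance sampled by `G` relative to `π` with random bits `r`. -/
def inst (π : Fam) (n : ℕ) (r : Str (K.cG n)) : SVL n :=
  K.dec n ((K.G n r).run (fun m => π m))

/-- Probability that the solver `A` solves an instance sampled relative to `π`. -/
noncomputable def solves (π : Fam) (A : ∀ n, K.Code n → Str n) (n : ℕ) : ℝ :=
  prob (fun r : Str (K.cG n) =>
    A n ((K.G n r).run (fun m => π m)) = (K.inst π n r).line π (K.inst π n r).L.1)

/-- Probability that `R`, given `π (x)` for uniform `x` in `{0,1}^m` and oracle access to `π`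
and `A`, outputs `x`. -/
noncomputable def inverts (π : Fam) (A : ∀ n, K.Code n → Str n) (m : ℕ) : ℝ :=
  prob (fun p : Str (K.cR m) × Str m =>
    (K.R m p.1 (π m p.2)).run (fun i => Sum.elim (π i) (A i)) = p.2)

/-- Fully black-box constructions of hard-on-average valid SVL instances from one-way
permutations, where polynomial time is relaxed to polynomially many queries of polynomial
size. -/
structure FullyBlackBox : Prop where
  /-- polynomial bounds on queries -/
  poly : ∃ p : Polynomial ℕ, ∀ n,
    (∀ r, (K.G n r).Within (p.eval n) (p.eval n)) ∧
    (∀ π r, (K.inst π n r).Bdd (p.eval n)) ∧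
    (∀ r y, (K.R n r y).Within (p.eval n) (p.eval n))
  /-- the sampled instances are valid, for every permutation family -/
  valid : ∀ π n r, (K.inst π n r).Valid π
  /-- for every permutation family and every solver: if the solver has non-negligible
  success probability, so has the reduction -/
  reduction : ∀ (π : Fam) (A : ∀ n, K.Code n → Str n),
    ¬ Negligible (K.solves π A) → ¬ Negligible (K.inverts π A)

end Construction

end Pool.Agent.H82.SVL
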