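import Mathlib

set_option autoImplicit false

namespace Pool.Agent.H82.SVL

/-- Adaptive query computations (decision trees) whose queries are points of `D`
and whose answers are points of `D`. -/
inductive Tree (D : Type) (α : Type) : Type
  | leaf (a : α) : Tree D α
  | query (d : D) (k : D → Tree D α) : Tree D α

namespace Tree

variable {D α β : Type}

/-- The value computed by a tree when queries are answered by `f`. -/
def run (f : D → D) : Tree D α → α
  | leaf a => a
  | query d k => run f (k (f d))

/-- The set of points queried by a tree when queries are answered by `f`. -/
def qs [DecidableEq D] (f : D → D) : Tree D α → Finset D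
  | leaf _ => ∅
  | query d k => insert d (qs f (k (f d)))

/-- `DLe T n`: along every path `T` makes at most `n` queries. -/
def DLe : Tree D α → ℕ → Prop
  | leaf _, _ => True
  | query _ _, 0 => False
  | query _ k, n + 1 => ∀ v, DLe (k v) n

/-- Sequential composition. -/
def bind : Tree D α → (α → Tree D β) → Tree D β
  | leaf a, g => g a
  | query d k, g => query d (fun v => bind (k v) g)

@[simp] theorem run_leaf (f : D → D) (a : α) : run f (leaf a) = a := rfl

@[simp] theorem run_query (f : D → D) (d : D) (k : D → Tree D α) :
    run f (query d k) = run f (k (f d)) := rfl

@[simp] theorem qs_leaf [DecidableEq D] (f : D → D) (a : α) :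
    qs f (leaf a : Tree D α) = ∅ := rfl

@[simp] theorem qs_query [DecidableEq D] (f : D → D) (d : D) (k : D → Tree D α) :
    qs f (query d k) = insert d (qs f (k (f d))) := rfl

@[simp] theorem bind_leaf (a : α) (g : α → Tree D β) : bind (leaf a) g = g a := rfl

@[simp] theorem bind_query (d : D) (k : D → Tree D α) (g : α → Tree D β) :
    bind (query d k) g = query d (fun v => bind (k v) g) := rfl

theorem run_bind (f : D → D) (T : Tree D α) (g : α → Tree D β) :
    run f (bind T g) = run f (g (run f T)) := by
  induction T with
  | leaf a => rfl
  | query d k ih => simp [ih]

theorem qs_bind [DecidableEq D] (f : D → D) (T : Tree D α) (g : α → Tree D β) :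
    qs f (bind T g) = qs f T ∪ qs f (g (run f T)) := by
  induction T with
  | leaf a => simp
  | query d k ih => simp [ih, Finset.insert_union]

theorem DLe_leaf (a : α) (n : ℕ) : DLe (leaf a : Tree D α) n := by
  simp [DLe]

theorem DLe.mono {T : Tree D α} {m n : ℕ} (h : DLe T m) (hmn : m ≤ n) : DLe T n := by
  induction T generalizing m n with
  | leaf a => simp [DLe]
  | query d k ih =>
    cases m with
    | zero => exact absurd h (by simp [DLe])
    | succ m =>
      cases n with
      | zero => omega
      | succ n =>
        intro v
        exact ih v (h v) (by omega)

theorem DLe.bind {T : Tree D α} {g : α → Tree D β} {m n : ℕ} (h : DLe T m)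
    (hg : ∀ a, DLe (g a) n) : DLe (T.bind g) (m + n) := by
  induction T generalizing m with
  | leaf a => simpa using (hg a).mono (by omega)
  | query d k ih =>
    cases m with
    | zero => exact absurd h (by simp [DLe])
    | succ m =>
      have : m + 1 + n = (m + n) + 1 := by omega
      rw [this]
      intro v
      exact ih v (h v)

theorem card_qs_le [DecidableEq D] (f : D → D) {T : Tree D α} {n : ℕ} (h : DLe T n) :
    (qs f T).card ≤ n := by
  induction T generalizing n with
  | leaf a => simp
  | query d k ih =>
    cases n with
    | zero => exact absurd h (by simp [DLe])
    | succ n =>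
      simp only [qs_query]
      exact (Finset.card_insert_le _ _).trans (Nat.succ_le_succ (ih _ (h _)))

/-- Two answer functions that agree on the points queried under one of them give the same
computation. -/
theorem run_congr [DecidableEq D] {f g : D → D} {T : Tree D α}
    (h : ∀ a ∈ qs f T, g a = f a) : run g T = run f T := by
  induction T with
  | leaf a => rfl
  | query d k ih =>
    have hd : g d = f d := h d (by simp)
    simp only [run_query, hd]
    exact ih _ (fun a ha => h a (by simp [ha]))

theorem qs_congr [DecidableEq D] {f g : D → D} {T : Tree D α}
    (h : ∀ a ∈ qs f T, g a = f a) : qs g T = qs f T := by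
  induction T with
  | leaf a => rfl
  | query d k ih =>
    have hd : g d = f d := h d (by simp)
    simp only [qs_query, hd]
    rw [ih _ (fun a ha => h a (by simp [ha]))]

end Tree

end Pool.Agent.H82.SVL
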