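import Mathlib
import Pool.Agent.H82.SVL.Tree

set_option autoImplicit false
set_option linter.unusedSectionVars false

namespace Pool.Agent.H82.SVL

open Finset

variable {D : Type} [Fintype D] [DecidableEq D] {srt : D → ℕ}

/-- Permutations of `D` that preserve the sort of every point. -/
abbrev Om (srt : D → ℕ) : Type := {π : Equiv.Perm D // ∀ d, srt (π d) = srt d}

/-- The permutations that agree with `π` on `E`. -/
def C (E : Finset D) (π : Om srt) : Finset (Om srt) :=
  univ.filter (fun σ => ∀ a ∈ E, σ.1 a = π.1 a)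

/-- Points of the same sort as `a`. -/
def fib (srt : D → ℕ) (a : D) : Finset D := univ.filter (fun v => srt v = srt a)

/-- Number of free points (equivalently, free values) of the sort of `a` once `E` is known. -/
def fr (srt : D → ℕ) (E : Finset D) (a : D) : ℕ := (fib srt a \ E).card

theorem mem_C {E : Finset D} {π σ : Om srt} : σ ∈ C E π ↔ ∀ a ∈ E, σ.1 a = π.1 a := by
  simp [C]

theorem self_mem_C (E : Finset D) (π : Om srt) : π ∈ C E π := by simp [mem_C]

theorem C_nonempty (E : Finset D) (π : Om srt) : (C E π).Nonempty := ⟨π, self_mem_C E π⟩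

theorem card_C_pos (E : Finset D) (π : Om srt) : 0 < (C E π).card :=
  card_pos.mpr (C_nonempty E π)

theorem C_eq_of_mem {E : Finset D} {π σ : Om srt} (h : σ ∈ C E π) : C E σ = C E π := by
  ext τ
  rw [mem_C] at h
  simp only [mem_C]
  constructor
  · intro h' a ha; rw [h' a ha, h a ha]
  · intro h' a ha; rw [h' a ha, h a ha]

theorem mem_C_symm {E : Finset D} {π σ : Om srt} (h : σ ∈ C E π) : π ∈ C E σ := by
  rw [mem_C] at *
  exact fun a ha => (h a ha).symm

theorem mem_C_trans {E : Finset D} {π σ τ : Om srt} (h : σ ∈ C E π) (h' : τ ∈ C E σ) :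
    τ ∈ C E π := by
  rw [mem_C] at *
  exact fun a ha => (h' a ha).trans (h a ha)

theorem C_mono {E E' : Finset D} (h : E ⊆ E') (π : Om srt) : C E' π ⊆ C E π := by
  intro σ hσ
  rw [mem_C] at *
  exact fun a ha => hσ a (h ha)

theorem mem_C_insert {E : Finset D} {a : D} {π σ : Om srt} :
    σ ∈ C (insert a E) π ↔ σ.1 a = π.1 a ∧ σ ∈ C E π := by
  simp [mem_C]

theorem C_insert_eq_filter (E : Finset D) (a : D) (π : Om srt) :
    C (insert a E) π = (C E π).filter (fun σ => σ.1 a = π.1 a) := by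
  ext σ
  rw [mem_C_insert, mem_filter]
  tauto

/-- Left multiplication by a transposition of two points of the same sort. -/
def swapL (v w : D) (h : srt v = srt w) (σ : Om srt) : Om srt :=
  ⟨Equiv.swap v w * σ.1, by
    intro d
    rw [Equiv.Perm.mul_apply, Equiv.swap_apply_def]
    split_ifs with h1 h2
    · rw [← h, ← h1, σ.2]
    · rw [h, ← h2, σ.2]
    · exact σ.2 d⟩

theorem swapL_apply (v w : D) (h : srt v = srt w) (σ : Om srt) (d : D) :
    (swapL v w h σ).1 d = Equiv.swap v w (σ.1 d) := rfl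

theorem swapL_swapL (v w : D) (h : srt v = srt w) (σ : Om srt) :
    swapL v w h (swapL v w h σ) = σ := by
  apply Subtype.ext
  ext d
  simp [swapL_apply]

/-- Free values at `a`, given what `π` does on `E`. -/
def Fr (E : Finset D) (π : Om srt) (a : D) : Finset D :=
  univ.filter (fun v => srt v = srt a ∧ ∀ b ∈ E, π.1 b ≠ v)

theorem mem_Fr {E : Finset D} {π : Om srt} {a v : D} :
    v ∈ Fr E π a ↔ srt v = srt a ∧ ∀ b ∈ E, π.1 b ≠ v := by
  simp [Fr]

theorem card_Fr (E : Finset D) (π : Om srt) (a : D) : (Fr E π a).card = fr srt E a := by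
  have : Fr E π a = (fib srt a \ E).map π.1.toEmbedding := by
    ext v
    simp only [mem_Fr, mem_map, mem_sdiff, fib, mem_filter, mem_univ, true_and,
      Equiv.coe_toEmbedding]
    constructor
    · rintro ⟨h1, h2⟩
      refine ⟨π.1.symm v, ⟨?_, ?_⟩, by simp⟩
      · rw [← h1, ← π.2 (π.1.symm v)]; simp
      · intro hb
        exact h2 _ hb (by simp)
    · rintro ⟨c, ⟨h1, h2⟩, rfl⟩
      refine ⟨by rw [π.2, h1], ?_⟩
      intro b hb heq
      exact h2 (π.1.injective heq ▸ hb)
  rw [this, card_map, fr]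

theorem apply_mem_Fr {E : Finset D} {π σ : Om srt} {a : D} (ha : a ∉ E) (hσ : σ ∈ C E π) :
    σ.1 a ∈ Fr E π a := by
  rw [mem_Fr]
  refine ⟨σ.2 a, ?_⟩
  intro b hb heq
  rw [← mem_C.mp hσ b hb] at heq
  exact ha (σ.1.injective heq ▸ hb)

theorem card_filter_eq {E : Finset D} {π : Om srt} {a v w : D}
    (hv : v ∈ Fr E π a) (hw : w ∈ Fr E π a) :
    ((C E π).filter (fun σ => σ.1 a = v)).card = ((C E π).filter (fun σ => σ.1 a = w)).card := by
  rw [mem_Fr] at hv hw
  have hvw : srt v = srt w := hv.1.trans hw.1.symm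
  refine card_bij' (fun σ _ => swapL v w hvw σ) (fun σ _ => swapL v w hvw σ) ?_ ?_ ?_ ?_
  · intro σ hσ
    rw [mem_filter, mem_C] at *
    refine ⟨?_, ?_⟩
    · intro b hb
      rw [swapL_apply, hσ.1 b hb]
      exact Equiv.swap_apply_of_ne_of_ne (hv.2 b hb) (hw.2 b hb)
    · rw [swapL_apply, hσ.2, Equiv.swap_apply_left]
  · intro σ hσ
    rw [mem_filter, mem_C] at *
    refine ⟨?_, ?_⟩
    · intro b hb
      rw [swapL_apply, hσ.1 b hb]
      exact Equiv.swap_apply_of_ne_of_ne (hv.2 b hb) (hw.2 b hb)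
    · rw [swapL_apply, hσ.2, Equiv.swap_apply_right]
  · intro σ _; exact swapL_swapL v w hvw σ
  · intro σ _; exact swapL_swapL v w hvw σ

/-- The basic counting identity. -/
theorem card_C_insert {E : Finset D} {a : D} (ha : a ∉ E) (π : Om srt) :
    (C E π).card = (C (insert a E) π).card * fr srt E a := by
  have h1 : (C E π).card = ∑ v ∈ Fr E π a, ((C E π).filter (fun σ => σ.1 a = v)).card :=
    card_eq_sum_card_fiberwise (fun σ hσ => apply_mem_Fr ha hσ)
  rw [h1]
  have h2 : ∀ v ∈ Fr E π a, ((C E π).filter (fun σ => σ.1 a = v)).card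
      = (C (insert a E) π).card := by
    intro v hv
    rw [C_insert_eq_filter]
    exact card_filter_eq hv (apply_mem_Fr ha (self_mem_C E π))
  rw [sum_congr rfl h2, sum_const, card_Fr, smul_eq_mul, mul_comm]

theorem exists_apply_eq {E : Finset D} {π : Om srt} {a v : D} (ha : a ∉ E)
    (hv : v ∈ Fr E π a) : ∃ σ ∈ C E π, σ.1 a = v := by
  have h := card_filter_eq hv (apply_mem_Fr ha (self_mem_C E π))
  rw [← C_insert_eq_filter] at h
  have hpos : 0 < ((C E π).filter (fun σ => σ.1 a = v)).card := by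
    rw [h]; exact card_C_pos _ _
  obtain ⟨σ, hσ⟩ := card_pos.mp hpos
  rw [mem_filter] at hσ
  exact ⟨σ, hσ.1, hσ.2⟩

/-- Two partial injections without a conflict have a common extension. -/
theorem exists_common {E₁ E₂ : Finset D} {σ π : Om srt}
    (hdir : ∀ a ∈ E₁, a ∈ E₂ → σ.1 a = π.1 a)
    (hcol : ∀ a ∈ E₁, ∀ c ∈ E₂, σ.1 a = π.1 c → a = c) :
    ∃ τ : Om srt, τ ∈ C E₁ σ ∧ τ ∈ C E₂ π := by
  induction E₂ using Finset.induction_on with
  | empty => exact ⟨σ, self_mem_C _ _, by simp [mem_C]⟩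
  | insert a E₂ ha ih =>
    obtain ⟨τ, h1, h2⟩ := ih (fun b hb hb' => hdir b hb (mem_insert_of_mem hb'))
      (fun b hb c hc => hcol b hb c (mem_insert_of_mem hc))
    by_cases haE : a ∈ E₁
    · refine ⟨τ, h1, ?_⟩
      rw [mem_C_insert]
      exact ⟨(mem_C.mp h1 a haE).trans (hdir a haE (mem_insert_self _ _)), h2⟩
    · have hfree : π.1 a ∈ Fr (E₁ ∪ E₂) τ a := by
        rw [mem_Fr]
        refine ⟨π.2 a, ?_⟩
        intro b hb heq
        rw [mem_union] at hb
        rcases hb with hb | hb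
        · rw [mem_C.mp h1 b hb] at heq
          exact haE (hcol b hb a (mem_insert_self _ _) heq ▸ hb)
        · rw [mem_C.mp h2 b hb] at heq
          exact ha (π.1.injective heq ▸ hb)
      have hnot : a ∉ E₁ ∪ E₂ := by
        rw [mem_union]; tauto
      obtain ⟨ρ, hρ, hρa⟩ := exists_apply_eq hnot hfree
      refine ⟨ρ, mem_C_trans h1 (C_mono subset_union_left _ hρ), ?_⟩
      rw [mem_C_insert]
      exact ⟨hρa, mem_C_trans h2 (C_mono subset_union_right _ hρ)⟩

/-- Sum over `C E π` split according to the value at `a`, in double-counting form. -/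
theorem sum_C_fiber {E : Finset D} {a : D} (ha : a ∉ E) (π : Om srt) (g : Om srt → ℝ) :
    ∑ σ ∈ C E π, g σ = ∑ v ∈ Fr E π a, ∑ σ ∈ (C E π).filter (fun σ => σ.1 a = v), g σ :=
  (sum_fiberwise_of_maps_to (fun σ hσ => apply_mem_Fr ha hσ) g).symm

theorem filter_eq_C {E : Finset D} {a : D} {π σ : Om srt} (hσ : σ ∈ C E π) :
    (C E π).filter (fun τ => τ.1 a = σ.1 a) = C (insert a E) σ := by
  rw [C_insert_eq_filter, C_eq_of_mem hσ]

/-- To bound a sum over `C E π` it is enough to bound it after revealing the value at `a`. -/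
theorem sum_C_le_of_reveal {E : Finset D} {a : D} (ha : a ∉ E) (π : Om srt)
    (g h : Om srt → ℝ)
    (H : ∀ σ ∈ C E π, ∑ τ ∈ C (insert a E) σ, g τ ≤ ∑ τ ∈ C (insert a E) σ, h τ) :
    ∑ σ ∈ C E π, g σ ≤ ∑ σ ∈ C E π, h σ := by
  rw [sum_C_fiber ha, sum_C_fiber ha]
  apply sum_le_sum
  intro v hv
  obtain ⟨σ, hσ, hσa⟩ := exists_apply_eq ha hv
  rw [← hσa, filter_eq_C hσ]
  exact H σ hσ

end Pool.Agent.H82.SVL
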