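import Mathlib
import Pool.Agent.H82.SVL.Count

set_option autoImplicit false
set_option linter.unusedSectionVars false

namespace Pool.Agent.H82.SVL

open Finset

variable {D : Type} [Fintype D] [DecidableEq D] {srt : D → ℕ}

theorem fr_mono {E E' : Finset D} (h : E ⊆ E') (a : D) : fr srt E' a ≤ fr srt E a :=
  card_le_card (sdiff_subset_sdiff (Subset.refl _) h)

theorem fr_le_add {E E' : Finset D} (a : D) :
    fr srt E a ≤ fr srt E' a + (E' \ E).card := by
  unfold fr
  have : fib srt a \ E ⊆ (fib srt a \ E') ∪ (E' \ E) := by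
    intro x hx
    rw [mem_sdiff] at hx
    rw [mem_union, mem_sdiff, mem_sdiff]
    by_cases h : x ∈ E'
    · right; exact ⟨h, hx.2⟩
    · left; exact ⟨hx.1, h⟩
  exact (card_le_card this).trans (card_union_le _ _)

/-- Upper bound on the size of a cylinder by the product measure. -/
theorem card_C_le {E E' A : Finset D} (hE : E ⊆ E') (hA : Disjoint A E') (σ : Om srt) :
    (C E' σ).card ≤ (C (E' ∪ A) σ).card * ∏ a ∈ A, fr srt E a := by
  induction A using Finset.induction_on with
  | empty => simp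
  | insert a A ha ih =>
    rw [disjoint_insert_left] at hA
    have h1 := ih hA.2
    have hnot : a ∉ E' ∪ A := by rw [mem_union]; tauto
    rw [prod_insert ha, union_insert]
    calc (C E' σ).card ≤ (C (E' ∪ A) σ).card * ∏ a ∈ A, fr srt E a := h1
      _ = (C (insert a (E' ∪ A)) σ).card * fr srt (E' ∪ A) a * ∏ a ∈ A, fr srt E a := by
          rw [card_C_insert hnot σ]
      _ ≤ (C (insert a (E' ∪ A)) σ).card * fr srt E a * ∏ a ∈ A, fr srt E a := by
          gcongr
          exact fr_mono (hE.trans subset_union_left) a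
      _ = _ := by ring

/-- Lower bound on the size of a cylinder by the product measure. -/
theorem card_C_ge {E E' A : Finset D} (hA : Disjoint A E') {N M : ℝ}
    (hN : 0 < N) (hfr : ∀ a ∈ A, N ≤ fr srt E a)
    (hM : ((E' \ E).card : ℝ) + A.card ≤ M) (hMN : M ≤ N) (σ : Om srt) :
    ((C (E' ∪ A) σ).card : ℝ) * (∏ a ∈ A, (fr srt E a : ℝ)) * (1 - M / N) ^ A.card
      ≤ (C E' σ).card := by
  have hρ : 0 ≤ 1 - M / N := by
    rw [sub_nonneg, div_le_one hN]; exact hMN
  induction A using Finset.induction_on with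
  | empty => simp
  | insert a A ha ih =>
    rw [disjoint_insert_left] at hA
    rw [card_insert_of_notMem ha] at hM
    push_cast at hM
    have h1 := ih hA.2 (fun b hb => hfr b (mem_insert_of_mem hb)) (by linarith)
    have hnot : a ∉ E' ∪ A := by rw [mem_union]; tauto
    rw [prod_insert ha, union_insert, card_insert_of_notMem ha]
    have hNa := hfr a (mem_insert_self _ _)
    have hfra : (fr srt E a : ℝ) * (1 - M / N) ≤ fr srt (E' ∪ A) a := by
      have h2 : (fr srt E a : ℝ) ≤ fr srt (E' ∪ A) a + ((E' ∪ A) \ E).card := by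
        exact_mod_cast fr_le_add (srt := srt) (E := E) (E' := E' ∪ A) a
      have h3 : (((E' ∪ A) \ E).card : ℝ) ≤ M := by
        have : ((E' ∪ A) \ E).card ≤ (E' \ E).card + A.card := by
          rw [union_sdiff_distrib]
          exact (card_union_le _ _).trans (by gcongr; exact sdiff_subset)
        have h4 : (((E' ∪ A) \ E).card : ℝ) ≤ (E' \ E).card + A.card := by exact_mod_cast this
        linarith
      have hM0 : 0 ≤ M := by
        have : (0:ℝ) ≤ ((E' \ E).card : ℝ) := by positivity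
        have : (0:ℝ) ≤ (A.card : ℝ) := by positivity
        linarith
      have h5 : M ≤ fr srt E a * (M / N) := by
        rw [mul_div_assoc', le_div_iff₀ hN]
        nlinarith
      nlinarith
    calc ((C (insert a (E' ∪ A)) σ).card : ℝ) * ((fr srt E a : ℝ) * ∏ a ∈ A, (fr srt E a : ℝ))
          * (1 - M / N) ^ (A.card + 1)
        = ((C (insert a (E' ∪ A)) σ).card : ℝ) * ((fr srt E a : ℝ) * (1 - M / N))
          * (∏ a ∈ A, (fr srt E a : ℝ)) * (1 - M / N) ^ A.card := by ring
      _ ≤ ((C (insert a (E' ∪ A)) σ).card : ℝ) * (fr srt (E' ∪ A) a : ℝ)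
          * (∏ a ∈ A, (fr srt E a : ℝ)) * (1 - M / N) ^ A.card := by
          gcongr
      _ = ((C (E' ∪ A) σ).card : ℝ)
          * (∏ a ∈ A, (fr srt E a : ℝ)) * (1 - M / N) ^ A.card := by
          rw [card_C_insert hnot σ]; push_cast; ring
      _ ≤ _ := h1

/-- Double counting along a relation whose classes are complete bipartite blocks. -/
theorem block_count {X Y : Type} (s : Finset X) (t : Finset Y) (R : X → Y → Prop)
    [∀ x y, Decidable (R x y)] {c : ℝ} (hc0 : 0 ≤ c)
    (hdif : ∀ x ∈ s, ∀ x' ∈ s, ∀ y ∈ t, ∀ y' ∈ t, R x y → R x' y → R x y' → R x' y')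
    (hc : ∀ x ∈ s, ∀ y ∈ t, R x y →
      ((s.filter (fun x' => R x' y)).card : ℝ) ≤ c * (t.filter (fun y' => R x y')).card)
    (hx : ∀ x ∈ s, ∃ y ∈ t, R x y) :
    (s.card : ℝ) ≤ c * t.card := by
  classical
  have h1 : (s.card : ℝ) = ∑ x ∈ s, ∑ y ∈ t.filter (fun y => R x y),
      (1 : ℝ) / (t.filter (fun y' => R x y')).card := by
    rw [card_eq_sum_ones, Nat.cast_sum]
    apply sum_congr rfl
    intro x hxs
    obtain ⟨y, hy, hxy⟩ := hx x hxs
    have hpos : (0 : ℝ) < ((t.filter (fun y' => R x y')).card : ℝ) := by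
      exact_mod_cast card_pos.mpr ⟨y, by simp [hy, hxy]⟩
    rw [sum_const, nsmul_eq_mul]
    push_cast
    field_simp
  rw [h1]
  have h2 : ∑ x ∈ s, ∑ y ∈ t.filter (fun y => R x y),
      (1 : ℝ) / (t.filter (fun y' => R x y')).card
      = ∑ y ∈ t, ∑ x ∈ s.filter (fun x => R x y),
      (1 : ℝ) / (t.filter (fun y' => R x y')).card := by
    simp only [sum_filter]
    rw [sum_comm]
  rw [h2]
  have h3 : ∀ y ∈ t, ∑ x ∈ s.filter (fun x => R x y),
      (1 : ℝ) / (t.filter (fun y' => R x y')).card ≤ c := by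
    intro y hy
    by_cases hne : (s.filter (fun x => R x y)).Nonempty
    · obtain ⟨x₀, hx₀⟩ := hne
      rw [mem_filter] at hx₀
      have heq : ∀ x ∈ s.filter (fun x => R x y),
          (1 : ℝ) / (t.filter (fun y' => R x y')).card
          = (1 : ℝ) / (t.filter (fun y' => R x₀ y')).card := by
        intro x hx'
        rw [mem_filter] at hx'
        have : t.filter (fun y' => R x y') = t.filter (fun y' => R x₀ y') := by
          ext z
          simp only [mem_filter]
          constructor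
          · rintro ⟨hz, hxz⟩
            exact ⟨hz, hdif x hx'.1 x₀ hx₀.1 y hy z hz hx'.2 hx₀.2 hxz⟩
          · rintro ⟨hz, hxz⟩
            exact ⟨hz, hdif x₀ hx₀.1 x hx'.1 y hy z hz hx₀.2 hx'.2 hxz⟩
        rw [this]
      rw [sum_congr rfl heq, sum_const, nsmul_eq_mul]
      have hpos : (0 : ℝ) < ((t.filter (fun y' => R x₀ y')).card : ℝ) := by
        exact_mod_cast card_pos.mpr ⟨y, by simp [hy, hx₀.2]⟩
      rw [mul_one_div, div_le_iff₀ hpos]
      exact hc x₀ hx₀.1 y hy hx₀.2
    · rw [not_nonempty_iff_eq_empty] at hne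
      rw [hne, sum_empty]
      exact hc0
  calc _ ≤ ∑ _y ∈ t, c := sum_le_sum h3
    _ = c * t.card := by rw [sum_const, nsmul_eq_mul, mul_comm]

/-- The space of functions extending `π` on `E`, with values outside `E` free. -/
def F0 (E : Finset D) (π : Om srt) : Finset (D → D) :=
  Fintype.piFinset (fun a => if a ∈ E then {π.1 a} else Fr E π a)

theorem mem_F0 {E : Finset D} {π : Om srt} {f : D → D} :
    f ∈ F0 E π ↔ (∀ a ∈ E, f a = π.1 a) ∧ (∀ a, a ∉ E → f a ∈ Fr E π a) := by
  rw [F0, Fintype.mem_piFinset]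
  constructor
  · intro h
    refine ⟨fun a ha => ?_, fun a ha => ?_⟩
    · have := h a
      rw [if_pos ha, mem_singleton] at this
      exact this
    · have := h a
      rw [if_neg ha] at this
      exact this
  · rintro ⟨h1, h2⟩ a
    split_ifs with ha
    · rw [mem_singleton]; exact h1 a ha
    · exact h2 a ha

theorem apply_mem_F0 {E : Finset D} {π σ : Om srt} (h : σ ∈ C E π) :
    (fun a => σ.1 a) ∈ F0 E π := by
  rw [mem_F0]
  exact ⟨fun a ha => mem_C.mp h a ha, fun a ha => apply_mem_Fr ha h⟩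

theorem F0_nonempty (E : Finset D) (π : Om srt) : (F0 E π).Nonempty :=
  ⟨_, apply_mem_F0 (self_mem_C E π)⟩

theorem card_F0_filter {E : Finset D} {π σ : Om srt} (hσ : σ ∈ C E π) (A : Finset D) :
    (F0 E π).card = ((F0 E π).filter (fun f => ∀ a ∈ A, f a = σ.1 a)).card
      * ∏ a ∈ A \ E, fr srt E a := by
  have h1 : (F0 E π).filter (fun f => ∀ a ∈ A, f a = σ.1 a)
      = Fintype.piFinset (fun a => if a ∈ E ∪ A then {σ.1 a} else Fr E π a) := by
    ext f
    rw [mem_filter, mem_F0, Fintype.mem_piFinset]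
    constructor
    · rintro ⟨⟨h1, h2⟩, h3⟩ a
      split_ifs with ha
      · rw [mem_singleton]
        rw [mem_union] at ha
        rcases ha with ha | ha
        · rw [h1 a ha, mem_C.mp hσ a ha]
        · exact h3 a ha
      · rw [mem_union, not_or] at ha
        exact h2 a ha.1
    · intro h
      have key : ∀ a ∈ E ∪ A, f a = σ.1 a := by
        intro a ha
        have := h a
        rw [if_pos ha, mem_singleton] at this
        exact this
      refine ⟨⟨fun a ha => ?_, fun a ha => ?_⟩, fun a ha => key a (mem_union_right _ ha)⟩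
      · rw [key a (mem_union_left _ ha), mem_C.mp hσ a ha]
      · by_cases haA : a ∈ A
        · rw [key a (mem_union_right _ haA)]
          exact apply_mem_Fr ha hσ
        · have := h a
          rw [if_neg (by rw [mem_union]; tauto)] at this
          exact this
  rw [h1, F0, Fintype.card_piFinset, Fintype.card_piFinset]
  have h2 : ∏ a ∈ A \ E, fr srt E a = ∏ a, (if a ∈ A \ E then fr srt E a else 1) := by
    rw [prod_ite_mem, univ_inter]
  rw [h2, ← prod_mul_distrib]
  apply prod_congr rfl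
  intro a _
  by_cases haE : a ∈ E
  · simp [haE]
  · by_cases haA : a ∈ A
    · simp [haE, haA, card_Fr]
    · simp [haE, haA]

section Transfer

variable {α : Type}

/-- Event-level comparison, upper bound: random functions versus random permutations. -/
theorem transfer_le {E : Finset D} {π : Om srt} (T : Tree D α) (ψ : α → Finset D → Prop)
    [∀ x s, Decidable (ψ x s)] (s : Finset (D → D)) (hs : s ⊆ F0 E π)
    (hs1 : ∀ f ∈ s, ∃ σ ∈ C E π, ∀ a ∈ Tree.qs f T, f a = σ.1 a)
    (hs2 : ∀ f ∈ s, ψ (Tree.run f T) (Tree.qs f T)) :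
    (s.card : ℝ) ≤ ((F0 E π).card / (C E π).card : ℝ)
      * ((C E π).filter (fun σ => ψ (Tree.run σ.1 T) (Tree.qs σ.1 T))).card := by
  classical
  have hCpos : (0 : ℝ) < (C E π).card := by exact_mod_cast card_C_pos E π
  have hFpos : (0 : ℝ) < (F0 E π).card := by exact_mod_cast card_pos.mpr (F0_nonempty E π)
  refine block_count s _ (fun f σ => ∀ a ∈ Tree.qs f T, σ.1 a = f a) (by positivity)
    ?_ ?_ ?_
  · intro f _ f' _ σ _ σ' _ h1 h2 h3 a ha
    have e1 : Tree.qs σ.1 T = Tree.qs f T := Tree.qs_congr h1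
    have e2 : Tree.qs σ.1 T = Tree.qs f' T := Tree.qs_congr h2
    rw [← h2 a ha]
    have ha' : a ∈ Tree.qs f T := by rw [← e1, e2]; exact ha
    rw [h3 a ha', ← h1 a ha']
  · intro f hf σ hσ hR
    rw [mem_filter] at hσ
    have e1 : Tree.qs σ.1 T = Tree.qs f T := Tree.qs_congr hR
    -- the class of functions
    have hsub : s.filter (fun f' => ∀ a ∈ Tree.qs f' T, σ.1 a = f' a)
        ⊆ (F0 E π).filter (fun f' => ∀ a ∈ Tree.qs f T, f' a = σ.1 a) := by
      intro f' hf'
      rw [mem_filter] at hf' ⊢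
      have e2 : Tree.qs σ.1 T = Tree.qs f' T := Tree.qs_congr hf'.2
      exact ⟨hs hf'.1, fun a ha => (hf'.2 a (by rw [← e2, e1]; exact ha)).symm⟩
    have hsup : C (E ∪ Tree.qs f T) σ ⊆
        ((C E π).filter (fun σ => ψ (Tree.run σ.1 T) (Tree.qs σ.1 T))).filter
          (fun σ' => ∀ a ∈ Tree.qs f T, σ'.1 a = f a) := by
      intro τ hτ
      rw [mem_filter, mem_filter]
      have hag : ∀ a ∈ Tree.qs f T, τ.1 a = f a := by
        intro a ha
        rw [mem_C.mp hτ a (mem_union_right _ ha), hR a ha]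
      refine ⟨⟨mem_C_trans hσ.1 (C_mono subset_union_left _ hτ), ?_⟩, hag⟩
      rw [Tree.run_congr hag, Tree.qs_congr hag]
      exact hs2 f hf
    have h1 : ((s.filter (fun f' => ∀ a ∈ Tree.qs f' T, σ.1 a = f' a)).card : ℝ)
        * ∏ a ∈ Tree.qs f T \ E, (fr srt E a : ℝ) ≤ (F0 E π).card := by
      rw [card_F0_filter hσ.1 (Tree.qs f T)]
      push_cast
      gcongr
    have h2 : ((C E π).card : ℝ) ≤ (C (E ∪ Tree.qs f T) σ).card
        * ∏ a ∈ Tree.qs f T \ E, (fr srt E a : ℝ) := by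
      have := card_C_le (srt := srt) (E := E) (E' := E) (A := Tree.qs f T \ E)
        (Subset.refl _) sdiff_disjoint σ
      rw [union_sdiff_self_eq_union, C_eq_of_mem hσ.1] at this
      exact_mod_cast this
    have h3 : ((C (E ∪ Tree.qs f T) σ).card : ℝ) ≤
        ((((C E π).filter (fun σ => ψ (Tree.run σ.1 T) (Tree.qs σ.1 T))).filter
          (fun σ' => ∀ a ∈ Tree.qs f T, σ'.1 a = f a)).card : ℝ) := by
      exact_mod_cast card_le_card hsup
    have hP : 0 ≤ ∏ a ∈ Tree.qs f T \ E, (fr srt E a : ℝ) := by positivity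
    rw [div_mul_eq_mul_div, le_div_iff₀ hCpos]
    calc ((s.filter (fun f' => ∀ a ∈ Tree.qs f' T, σ.1 a = f' a)).card : ℝ) * (C E π).card
        ≤ ((s.filter (fun f' => ∀ a ∈ Tree.qs f' T, σ.1 a = f' a)).card : ℝ)
          * ((C (E ∪ Tree.qs f T) σ).card * ∏ a ∈ Tree.qs f T \ E, (fr srt E a : ℝ)) := by
          gcongr
      _ = ((s.filter (fun f' => ∀ a ∈ Tree.qs f' T, σ.1 a = f' a)).card
          * ∏ a ∈ Tree.qs f T \ E, (fr srt E a : ℝ)) * (C (E ∪ Tree.qs f T) σ).card := by ring
      _ ≤ (F0 E π).card * _ := by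
          gcongr
  · intro f hf
    obtain ⟨σ, hσ, hag⟩ := hs1 f hf
    refine ⟨σ, ?_, fun a ha => (hag a ha).symm⟩
    rw [mem_filter]
    refine ⟨hσ, ?_⟩
    have hag' : ∀ a ∈ Tree.qs f T, σ.1 a = f a := fun a ha => (hag a ha).symm
    rw [Tree.run_congr hag', Tree.qs_congr hag']
    exact hs2 f hf

/-- Event-level comparison, lower bound: random functions versus random permutations. -/
theorem transfer_ge {E : Finset D} {π : Om srt} (T : Tree D α) {m : ℕ} (hT : Tree.DLe T m)
    {N : ℝ} (hN : 0 < N) (hmN : (m : ℝ) ≤ N) (hfr : ∀ a, a ∉ E → N ≤ fr srt E a)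
    (p : Finset (Om srt)) (hp : p ⊆ C E π) (s : Finset (D → D))
    (hps : ∀ σ ∈ p, ∀ f ∈ F0 E π, (∀ a ∈ Tree.qs σ.1 T, f a = σ.1 a) → f ∈ s) :
    (1 - m / N) ^ m * (p.card / (C E π).card : ℝ) * (F0 E π).card ≤ s.card := by
  classical
  have hCpos : (0 : ℝ) < (C E π).card := by exact_mod_cast card_C_pos E π
  have hFpos : (0 : ℝ) < (F0 E π).card := by exact_mod_cast card_pos.mpr (F0_nonempty E π)
  have hρ0 : 0 ≤ 1 - (m : ℝ) / N := by rw [sub_nonneg, div_le_one hN]; exact hmN
  rcases hρ0.lt_or_eq with hρ | hρ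
  swap
  · rcases Nat.eq_zero_or_pos m with hm | hm
    · subst hm; simp at hρ
    · rw [← hρ, zero_pow hm.ne', zero_mul, zero_mul]; positivity
  have key : (p.card : ℝ) ≤ ((C E π).card / ((1 - m / N) ^ m * (F0 E π).card)) * s.card := by
    refine block_count p s (fun σ f => ∀ a ∈ Tree.qs σ.1 T, f a = σ.1 a) (by positivity)
      ?_ ?_ ?_
    · intro σ _ σ' _ f _ f' _ h1 h2 h3 a ha
      have e1 : Tree.qs f T = Tree.qs σ.1 T := Tree.qs_congr h1
      have e2 : Tree.qs f T = Tree.qs σ'.1 T := Tree.qs_congr h2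
      have ha' : a ∈ Tree.qs σ.1 T := by rw [← e1, e2]; exact ha
      rw [← h2 a ha, h3 a ha', ← h1 a ha']
    · intro σ hσ f hf hR
      have e1 : Tree.qs f T = Tree.qs σ.1 T := Tree.qs_congr hR
      have hσC := hp hσ
      have hsub : p.filter (fun σ' => ∀ a ∈ Tree.qs σ'.1 T, f a = σ'.1 a)
          ⊆ C (E ∪ Tree.qs σ.1 T) σ := by
        intro τ hτ
        rw [mem_filter] at hτ
        have e2 : Tree.qs f T = Tree.qs τ.1 T := Tree.qs_congr hτ.2
        rw [mem_C]
        intro a ha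
        rw [mem_union] at ha
        rcases ha with ha | ha
        · rw [mem_C.mp (hp hτ.1) a ha, mem_C.mp hσC a ha]
        · rw [← hτ.2 a (by rw [← e2, e1]; exact ha), hR a ha]
      have hsup : (F0 E π).filter (fun f' => ∀ a ∈ Tree.qs σ.1 T, f' a = σ.1 a) ⊆
          s.filter (fun f' => ∀ a ∈ Tree.qs σ.1 T, f' a = σ.1 a) := by
        intro f' hf'
        rw [mem_filter] at hf' ⊢
        exact ⟨hps σ hσ f' hf'.1 hf'.2, hf'.2⟩
      have hcardm : (Tree.qs σ.1 T \ E).card ≤ m :=
        (card_le_card sdiff_subset).trans (Tree.card_qs_le _ hT)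
      have h2 : ((C (E ∪ Tree.qs σ.1 T) σ).card : ℝ) *
          (∏ a ∈ Tree.qs σ.1 T \ E, (fr srt E a : ℝ)) * (1 - m / N) ^ m ≤ (C E π).card := by
        have := card_C_ge (srt := srt) (E := E) (E' := E) (A := Tree.qs σ.1 T \ E)
          sdiff_disjoint hN (fun a ha => hfr a (mem_sdiff.mp ha).2) (M := m)
          (by simpa using hcardm) hmN σ
        rw [union_sdiff_self_eq_union, C_eq_of_mem hσC] at this
        refine le_trans ?_ this
        gcongr ?_ * ?_
        apply pow_le_pow_of_le_one hρ0 _ hcardm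
        rw [sub_le_self_iff]; positivity
      have h4 : ((C (E ∪ Tree.qs σ.1 T) σ).card : ℝ) * (1 - m / N) ^ m * (F0 E π).card
          ≤ (C E π).card * (s.filter (fun f' => ∀ a ∈ Tree.qs σ.1 T, f' a = σ.1 a)).card := by
        rw [card_F0_filter hσC (Tree.qs σ.1 T)]
        push_cast
        have h5 : (((F0 E π).filter (fun f' => ∀ a ∈ Tree.qs σ.1 T, f' a = σ.1 a)).card : ℝ)
            ≤ (s.filter (fun f' => ∀ a ∈ Tree.qs σ.1 T, f' a = σ.1 a)).card := by
          exact_mod_cast card_le_card hsup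
        calc ((C (E ∪ Tree.qs σ.1 T) σ).card : ℝ) * (1 - m / N) ^ m *
              (((F0 E π).filter (fun f' => ∀ a ∈ Tree.qs σ.1 T, f' a = σ.1 a)).card
              * ∏ a ∈ Tree.qs σ.1 T \ E, (fr srt E a : ℝ))
            = (((C (E ∪ Tree.qs σ.1 T) σ).card : ℝ) *
          (∏ a ∈ Tree.qs σ.1 T \ E, (fr srt E a : ℝ)) * (1 - m / N) ^ m) *
              (((F0 E π).filter (fun f' => ∀ a ∈ Tree.qs σ.1 T, f' a = σ.1 a)).card) := by ring
          _ ≤ _ := by gcongr
      have h6 : ((p.filter (fun σ' => ∀ a ∈ Tree.qs σ'.1 T, f a = σ'.1 a)).card : ℝ)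
          ≤ (C (E ∪ Tree.qs σ.1 T) σ).card := by exact_mod_cast card_le_card hsub
      rw [div_mul_eq_mul_div, le_div_iff₀ (by positivity)]
      calc ((p.filter (fun σ' => ∀ a ∈ Tree.qs σ'.1 T, f a = σ'.1 a)).card : ℝ)
            * ((1 - m / N) ^ m * (F0 E π).card)
          ≤ (C (E ∪ Tree.qs σ.1 T) σ).card * ((1 - m / N) ^ m * (F0 E π).card) := by gcongr
        _ = ((C (E ∪ Tree.qs σ.1 T) σ).card : ℝ) * (1 - m / N) ^ m * (F0 E π).card := by ring
        _ ≤ _ := h4
    · intro σ hσ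
      refine ⟨fun a => σ.1 a, ?_, fun a _ => rfl⟩
      exact hps σ hσ _ (apply_mem_F0 (hp hσ)) (fun a _ => rfl)
  rw [div_mul_eq_mul_div, le_div_iff₀ (by positivity)] at key
  rw [show (1 - (m : ℝ) / N) ^ m * (p.card / (C E π).card : ℝ) * (F0 E π).card
    = (p.card * ((1 - m / N) ^ m * (F0 E π).card)) / (C E π).card by ring]
  rw [div_le_iff₀ hCpos]
  linarith

end Transfer

end Pool.Agent.H82.SVL
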