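import Mathlib
import Pool.Agent.H82.SVL.Transfer

set_option autoImplicit false
set_option linter.unusedSectionVars false

namespace Pool.Agent.H82.SVL

open Finset

variable {D : Type} [Fintype D] [DecidableEq D] {srt : D → ℕ}
variable {Λ : Type} [Fintype Λ] [DecidableEq Λ]

/-- A node (`E`, values of `π` on `E`) is `θ`-light for the search problem with labels `lab`
and verifiers `V` if every label, and every unknown point of the accepting run, has
probability at most `θ`. -/
def Light (V : Λ → Tree D Bool) (lab : Om srt → Λ) (θ : ℝ) (E : Finset D) (π : Om srt) : Prop :=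
  (∀ x, (((C E π).filter (fun σ => lab σ = x)).card : ℝ) ≤ θ * (C E π).card) ∧
  (∀ a, a ∉ E → (((C E π).filter (fun σ => a ∈ Tree.qs σ.1 (V (lab σ)))).card : ℝ)
    ≤ θ * (C E π).card)

/-- Functions on which `V x` accepts along an injective transcript. -/
def AA (V : Λ → Tree D Bool) (E : Finset D) (π : Om srt) (x : Λ) : Finset (D → D) :=
  open Classical in
  (F0 E π).filter (fun f => Tree.run f (V x) = true ∧
    ∃ σ ∈ C E π, ∀ a ∈ Tree.qs f (V x), f a = σ.1 a)

theorem mem_AA {V : Λ → Tree D Bool} {E : Finset D} {π : Om srt} {x : Λ} {f : D → D} :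
    f ∈ AA V E π x ↔ f ∈ F0 E π ∧ Tree.run f (V x) = true ∧
      ∃ σ ∈ C E π, ∀ a ∈ Tree.qs f (V x), f a = σ.1 a := by
  simp [AA]

/-- Overwriting `f` by `g` on the points queried by `V x` on `g`. -/
def ov (V : Λ → Tree D Bool) (x : Λ) (g f : D → D) : D → D :=
  (Tree.qs g (V x)).piecewise g f

theorem ov_eq_on {V : Λ → Tree D Bool} {x : Λ} {g f : D → D} {a : D}
    (ha : a ∈ Tree.qs g (V x)) : ov V x g f a = g a := by
  simp [ov, piecewise_eq_of_mem _ _ _ ha]

theorem ov_eq_off {V : Λ → Tree D Bool} {x : Λ} {g f : D → D} {a : D}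
    (ha : a ∉ Tree.qs g (V x)) : ov V x g f a = f a := by
  simp [ov, piecewise_eq_of_notMem _ _ _ ha]

theorem piecewise_mem_F0 {E : Finset D} {π : Om srt} {f g : D → D} (A : Finset D)
    (hf : f ∈ F0 E π) (hg : g ∈ F0 E π) : A.piecewise f g ∈ F0 E π := by
  rw [mem_F0] at *
  refine ⟨fun a ha => ?_, fun a ha => ?_⟩
  · by_cases h : a ∈ A
    · rw [piecewise_eq_of_mem _ _ _ h, hf.1 a ha]
    · rw [piecewise_eq_of_notMem _ _ _ h, hg.1 a ha]
  · by_cases h : a ∈ A
    · rw [piecewise_eq_of_mem _ _ _ h]; exact hf.2 a ha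
    · rw [piecewise_eq_of_notMem _ _ _ h]; exact hg.2 a ha

theorem ov_mem_AA {V : Λ → Tree D Bool} {E : Finset D} {π : Om srt} {x : Λ} {f g : D → D}
    (hg : g ∈ AA V E π x) (hf : f ∈ F0 E π) : ov V x g f ∈ AA V E π x := by
  rw [mem_AA] at *
  obtain ⟨h1, h2, σ, hσ, h3⟩ := hg
  have e : ∀ a ∈ Tree.qs g (V x), ov V x g f a = g a := fun a ha => ov_eq_on ha
  refine ⟨piecewise_mem_F0 _ h1 hf, by rw [Tree.run_congr e, h2], σ, hσ, ?_⟩
  intro a ha
  rw [Tree.qs_congr e] at ha
  rw [e a ha, h3 a ha]

theorem sum_ov {V : Λ → Tree D Bool} {E : Finset D} {π : Om srt} (x : Λ) (φ : (D → D) → ℝ) :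
    ∑ f ∈ F0 E π, ∑ g ∈ AA V E π x, φ (ov V x g f)
      = (F0 E π).card * ∑ g ∈ AA V E π x, φ g := by
  have h1 : ∑ f ∈ F0 E π, ∑ g ∈ AA V E π x, φ (ov V x g f)
      = ∑ p ∈ F0 E π ×ˢ AA V E π x, φ (ov V x p.2 p.1) := by rw [sum_product]
  have h2 : (F0 E π).card * ∑ g ∈ AA V E π x, φ g
      = ∑ p ∈ F0 E π ×ˢ AA V E π x, φ p.2 := by
    rw [sum_product]
    simp only [sum_const, nsmul_eq_mul]
  rw [h1, h2]
  have hqs : ∀ f g : D → D, Tree.qs (ov V x g f) (V x) = Tree.qs g (V x) := fun f g =>
    Tree.qs_congr (fun a ha => ov_eq_on ha)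
  have hinv : ∀ p : (D → D) × (D → D),
      ((Tree.qs (ov V x p.2 p.1) (V x)).piecewise
        ((Tree.qs p.2 (V x)).piecewise p.1 p.2) (ov V x p.2 p.1),
       ov V x (ov V x p.2 p.1) ((Tree.qs p.2 (V x)).piecewise p.1 p.2)) = p := by
    rintro ⟨f, g⟩
    apply Prod.ext
    · funext a
      simp only [hqs]
      by_cases ha : a ∈ Tree.qs g (V x)
      · simp [ha]
      · simp [ha, ov_eq_off ha]
    · funext a
      simp only
      by_cases ha : a ∈ Tree.qs g (V x)
      · rw [ov_eq_on (by rw [hqs]; exact ha), ov_eq_on ha]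
      · rw [ov_eq_off (by rw [hqs]; exact ha)]
        simp [ha]
  refine sum_nbij' (fun p => ((Tree.qs p.2 (V x)).piecewise p.1 p.2, ov V x p.2 p.1))
    (fun p => ((Tree.qs p.2 (V x)).piecewise p.1 p.2, ov V x p.2 p.1)) ?_ ?_ ?_ ?_ ?_
  · rintro ⟨f, g⟩ hp
    rw [mem_product] at *
    exact ⟨piecewise_mem_F0 _ hp.1 (mem_AA.mp hp.2).1, ov_mem_AA hp.2 hp.1⟩
  · rintro ⟨f, g⟩ hp
    rw [mem_product] at *
    exact ⟨piecewise_mem_F0 _ hp.1 (mem_AA.mp hp.2).1, ov_mem_AA hp.2 hp.1⟩
  · intro p _; exact hinv p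
  · intro p _; exact hinv p
  · intro p _; rfl

/-- At a light node no shallow computation finds the label with noticeable probability. -/
theorem light_kills {V : Λ → Tree D Bool} {lab : Om srt → Λ} {θ : ℝ} {E : Finset D}
    {π : Om srt} {k d : ℕ}
    (hval : ∀ σ ∈ C E π, ∀ x, Tree.run σ.1 (V x) = true ↔ x = lab σ)
    (hk : ∀ x, Tree.DLe (V x) k)
    (hlight : Light V lab θ E π) (T : Tree D Λ) (hT : Tree.DLe T d)
    {N : ℝ} (hN : 0 < N) (hmN : ((d + k : ℕ) : ℝ) ≤ N) (hfr : ∀ a, a ∉ E → N ≤ fr srt E a)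
    (hθ : (k + 1) * θ ≤ 1 / 16)
    (hsucc : 3 / 4 ≤ (1 - ((d + k : ℕ) : ℝ) / N) ^ (d + k)
      * (((C E π).filter (fun σ => Tree.run σ.1 T = lab σ)).card / (C E π).card : ℝ)) :
    False := by
  classical
  have hCpos : (0 : ℝ) < (C E π).card := by exact_mod_cast card_C_pos E π
  have hFpos : (0 : ℝ) < (F0 E π).card := by exact_mod_cast card_pos.mpr (F0_nonempty E π)
  have hθ0 : 0 ≤ θ := by
    have := hlight.1 (lab π)
    have h0 : (0 : ℝ) ≤ (((C E π).filter (fun σ => lab σ = lab π)).card : ℝ) := by positivity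
    by_contra hneg
    push Not at hneg
    nlinarith
  set F := F0 E π with hF
  set Z : (D → D) → ℕ := fun f => (univ.filter (fun x => f ∈ AA V E π x)).card with hZ
  -- total mass
  have hAx : ∀ x, ((AA V E π x).card : ℝ) ≤ ((F.card : ℝ) / (C E π).card)
      * ((C E π).filter (fun σ => lab σ = x)).card := by
    intro x
    have := transfer_le (V x) (fun b _ => b = true) (AA V E π x)
      (fun f hf => (mem_AA.mp hf).1) (fun f hf => (mem_AA.mp hf).2.2)
      (fun f hf => (mem_AA.mp hf).2.1)
    refine this.trans (le_of_eq ?_)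
    congr 2
    congr 1
    ext σ
    simp only [mem_filter]
    constructor
    · rintro ⟨h1, h2⟩; exact ⟨h1, ((hval σ h1 x).mp h2).symm⟩
    · rintro ⟨h1, h2⟩; exact ⟨h1, (hval σ h1 x).mpr h2.symm⟩
  have hAxa : ∀ a, a ∉ E → ∑ x, (((AA V E π x).filter (fun g => a ∈ Tree.qs g (V x))).card : ℝ)
      ≤ θ * F.card := by
    intro a ha
    have h1 : ∀ x, (((AA V E π x).filter (fun g => a ∈ Tree.qs g (V x))).card : ℝ)
        ≤ ((F.card : ℝ) / (C E π).card)
          * ((C E π).filter (fun σ => lab σ = x ∧ a ∈ Tree.qs σ.1 (V (lab σ)))).card := by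
      intro x
      have := transfer_le (V x) (fun b s => b = true ∧ a ∈ s)
        ((AA V E π x).filter (fun g => a ∈ Tree.qs g (V x)))
        (fun f hf => (mem_AA.mp (mem_filter.mp hf).1).1)
        (fun f hf => (mem_AA.mp (mem_filter.mp hf).1).2.2)
        (fun f hf => ⟨(mem_AA.mp (mem_filter.mp hf).1).2.1, (mem_filter.mp hf).2⟩)
      refine this.trans (le_of_eq ?_)
      congr 2
      congr 1
      ext σ
      simp only [mem_filter]
      constructor
      · rintro ⟨h1, h2, h3⟩
        have := (hval σ h1 x).mp h2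
        subst this
        exact ⟨h1, rfl, h3⟩
      · rintro ⟨h1, h2, h3⟩
        subst h2
        exact ⟨h1, (hval σ h1 _).mpr rfl, h3⟩
    calc ∑ x, (((AA V E π x).filter (fun g => a ∈ Tree.qs g (V x))).card : ℝ)
        ≤ ∑ x, ((F.card : ℝ) / (C E π).card)
          * ((C E π).filter (fun σ => lab σ = x ∧ a ∈ Tree.qs σ.1 (V (lab σ)))).card :=
          sum_le_sum (fun x _ => h1 x)
      _ = ((F.card : ℝ) / (C E π).card)
          * ((C E π).filter (fun σ => a ∈ Tree.qs σ.1 (V (lab σ)))).card := by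
          rw [← mul_sum]
          congr 1
          rw [← Nat.cast_sum]
          congr 1
          rw [card_eq_sum_card_fiberwise (f := lab) (t := univ)
            (s := (C E π).filter (fun σ => a ∈ Tree.qs σ.1 (V (lab σ)))) (fun _ _ => mem_univ _)]
          apply sum_congr rfl
          intro x _
          congr 1
          ext σ
          simp only [mem_filter]
          tauto
      _ ≤ ((F.card : ℝ) / (C E π).card) * (θ * (C E π).card) := by
          gcongr
          exact hlight.2 a ha
      _ = θ * F.card := by field_simp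
  have hsumZ : ∑ f ∈ F, (Z f : ℝ) = ∑ x, ((AA V E π x).card : ℝ) := by
    have h1 : ∀ f, (Z f : ℝ) = ∑ x, (if f ∈ AA V E π x then (1 : ℝ) else 0) := by
      intro f
      rw [hZ, sum_ite, sum_const_zero, add_zero, sum_const, nsmul_eq_mul, mul_one]
    simp_rw [h1]
    rw [sum_comm]
    apply sum_congr rfl
    intro x _
    rw [← sum_filter]
    have : F.filter (fun f => f ∈ AA V E π x) = AA V E π x := by
      ext f
      rw [mem_filter]
      exact ⟨fun h => h.2, fun h => ⟨(mem_AA.mp h).1, h⟩⟩
    rw [this, sum_const, nsmul_eq_mul, mul_one]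
  have hsumA : ∑ x, ((AA V E π x).card : ℝ) ≤ F.card := by
    calc ∑ x, ((AA V E π x).card : ℝ) ≤ ∑ x, ((F.card : ℝ) / (C E π).card)
      * ((C E π).filter (fun σ => lab σ = x)).card := sum_le_sum (fun x _ => hAx x)
      _ = ((F.card : ℝ) / (C E π).card) * (C E π).card := by
          rw [← mul_sum, ← Nat.cast_sum]
          congr 2
          exact (card_eq_sum_card_fiberwise (fun _ _ => mem_univ _)).symm
      _ = F.card := by field_simp
  -- the good functions
  set G := F.filter (fun f => 1 ≤ Z f) with hG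
  have hGcard : 3 / 4 * (F.card : ℝ) ≤ G.card := by
    have hT' : Tree.DLe (T.bind V) (d + k) := hT.bind hk
    have := transfer_ge (srt := srt) (E := E) (π := π) (T.bind V) hT' hN hmN hfr
      ((C E π).filter (fun σ => Tree.run σ.1 T = lab σ)) (filter_subset _ _) G ?_
    · refine le_trans ?_ this
      gcongr
    · intro σ hσ f hf hag
      rw [mem_filter] at hσ
      rw [hG, mem_filter]
      refine ⟨hf, ?_⟩
      rw [hZ]
      simp only
      rw [Nat.one_le_iff_ne_zero, card_ne_zero]
      refine ⟨lab σ, ?_⟩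
      rw [mem_filter]
      refine ⟨mem_univ _, ?_⟩
      rw [mem_AA]
      rw [Tree.qs_bind, hσ.2] at hag
      have hag' : ∀ a ∈ Tree.qs σ.1 (V (lab σ)), f a = σ.1 a :=
        fun a ha => hag a (mem_union_right _ ha)
      refine ⟨hf, ?_, σ, hσ.1, ?_⟩
      · rw [Tree.run_congr hag']
        exact (hval σ hσ.1 _).mpr rfl
      · intro a ha
        rw [Tree.qs_congr hag'] at ha
        exact hag' a ha
  -- the main double count
  set φ : (D → D) → ℝ := fun g => if 2 ≤ Z g then 1 else 0 with hφ
  have hφ0 : ∀ g, 0 ≤ φ g := by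
    intro g; rw [hφ]; simp only; split_ifs <;> norm_num
  have hup : ∑ f ∈ F, ∑ x, ∑ g ∈ AA V E π x, φ (ov V x g f) ≤ F.card * (1 / 2 * F.card) := by
    rw [sum_comm]
    have h1 : ∀ x, ∑ f ∈ F, ∑ g ∈ AA V E π x, φ (ov V x g f)
        = F.card * ∑ g ∈ AA V E π x, φ g := fun x => sum_ov x φ
    simp_rw [h1]
    rw [← mul_sum]
    gcongr
    have h2 : ∑ x, ∑ g ∈ AA V E π x, φ g = ∑ g ∈ F, (Z g : ℝ) * φ g := by
      have h3 : ∀ g, (Z g : ℝ) = ∑ x, (if g ∈ AA V E π x then (1 : ℝ) else 0) := by
        intro g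
        rw [hZ, sum_ite, sum_const_zero, add_zero, sum_const, nsmul_eq_mul, mul_one]
      simp_rw [h3, sum_mul]
      rw [sum_comm (s := F)]
      apply sum_congr rfl
      intro x _
      have : AA V E π x = F.filter (fun f => f ∈ AA V E π x) := by
        ext f
        rw [mem_filter]
        exact ⟨fun h => ⟨(mem_AA.mp h).1, h⟩, fun h => h.2⟩
      conv_lhs => rw [this]
      rw [sum_filter]
      apply sum_congr rfl
      intro g _
      split_ifs <;> simp
    rw [h2]
    have h4 : ∀ g ∈ F, (Z g : ℝ) * φ g ≤ 2 * ((Z g : ℝ) - (if 1 ≤ Z g then 1 else 0)) := by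
      intro g _
      rw [hφ]
      simp only
      rcases Nat.lt_or_ge (Z g) 1 with h | h
      · have : Z g = 0 := by omega
        simp [this]
      · rcases Nat.lt_or_ge (Z g) 2 with h' | h'
        · have : Z g = 1 := by omega
          simp [this]
        · have hc : (2 : ℝ) ≤ Z g := by exact_mod_cast h'
          rw [if_pos h', if_pos h]
          linarith
    calc ∑ g ∈ F, (Z g : ℝ) * φ g ≤ ∑ g ∈ F, 2 * ((Z g : ℝ) - (if 1 ≤ Z g then 1 else 0)) :=
          sum_le_sum h4
      _ = 2 * (∑ g ∈ F, (Z g : ℝ) - G.card) := by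
          rw [← mul_sum, sum_sub_distrib]
          congr 2
          rw [sum_ite, sum_const_zero, add_zero, sum_const, nsmul_eq_mul, mul_one]
      _ ≤ 1 / 2 * F.card := by
          rw [hsumZ]
          linarith
  have hlow : ∑ f ∈ G, ((3 / 4 : ℝ) - 1 / 16) * F.card
      ≤ ∑ f ∈ F, ∑ x, ∑ g ∈ AA V E π x, φ (ov V x g f) := by
    have hsub : ∑ f ∈ G, ∑ x, ∑ g ∈ AA V E π x, φ (ov V x g f)
        ≤ ∑ f ∈ F, ∑ x, ∑ g ∈ AA V E π x, φ (ov V x g f) := by
      apply sum_le_sum_of_subset_of_nonneg (filter_subset _ _)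
      intro f _ _
      exact sum_nonneg (fun x _ => sum_nonneg (fun g _ => hφ0 _))
    refine le_trans ?_ hsub
    apply sum_le_sum
    intro f hf
    rw [hG, mem_filter] at hf
    obtain ⟨hfF, hfZ⟩ := hf
    rw [hZ] at hfZ
    simp only at hfZ
    obtain ⟨xf, hxf⟩ := card_pos.mp (show 0 < (univ.filter (fun x => f ∈ AA V E π x)).card by omega)
    rw [mem_filter] at hxf
    have hfA := hxf.2
    set A := Tree.qs f (V xf) with hA
    have hAk : A.card ≤ k := Tree.card_qs_le f (hk xf)
    -- pointwise lower bound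
    have hpt : ∀ x, ∀ g ∈ AA V E π x,
        (1 : ℝ) - (if x = xf then 1 else 0)
          - ∑ a ∈ A \ E, (if a ∈ Tree.qs g (V x) then (1 : ℝ) else 0)
        ≤ φ (ov V x g f) := by
      intro x g hg
      by_cases hx : x = xf
      · rw [if_pos hx]
        have : (0 : ℝ) ≤ ∑ a ∈ A \ E, (if a ∈ Tree.qs g (V x) then (1 : ℝ) else 0) :=
          sum_nonneg (fun a _ => by split_ifs <;> norm_num)
        linarith [hφ0 (ov V x g f)]
      · rw [if_neg hx]
        by_cases hd : ∃ a ∈ A \ E, a ∈ Tree.qs g (V x)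
        · obtain ⟨a, ha, ha'⟩ := hd
          have : (1 : ℝ) ≤ ∑ a ∈ A \ E, (if a ∈ Tree.qs g (V x) then (1 : ℝ) else 0) := by
            have h5 := single_le_sum (s := A \ E)
              (f := fun a => (if a ∈ Tree.qs g (V x) then (1 : ℝ) else 0))
              (fun a _ => by split_ifs <;> norm_num) ha
            simp only [if_pos ha'] at h5
            exact h5
          linarith [hφ0 (ov V x g f)]
        · push Not at hd
          have hz : ∑ a ∈ A \ E, (if a ∈ Tree.qs g (V x) then (1 : ℝ) else 0) = 0 :=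
            sum_eq_zero (fun a ha => if_neg (hd a ha))
          rw [hz]
          have hφ1 : φ (ov V x g f) = 1 := by
            rw [hφ]
            simp only
            rw [if_pos]
            -- both x and xf are accepted
            have hmx : ov V x g f ∈ AA V E π x := ov_mem_AA hg hfF
            have hagree : ∀ a ∈ Tree.qs f (V xf), ov V x g f a = f a := by
              intro a ha
              by_cases haq : a ∈ Tree.qs g (V x)
              · rw [ov_eq_on haq]
                by_cases haE : a ∈ E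
                · rw [(mem_F0.mp (mem_AA.mp hg).1).1 a haE, (mem_F0.mp hfF).1 a haE]
                · exact absurd haq (hd a (mem_sdiff.mpr ⟨ha, haE⟩))
              · exact ov_eq_off haq
            have hmxf : ov V x g f ∈ AA V E π xf := by
              rw [mem_AA] at hfA ⊢
              obtain ⟨_, h2, σ, hσ, h3⟩ := hfA
              refine ⟨(mem_AA.mp hmx).1, by rw [Tree.run_congr hagree, h2], σ, hσ, ?_⟩
              intro a ha
              rw [Tree.qs_congr hagree] at ha
              rw [hagree a ha, h3 a ha]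
            rw [hZ]
            simp only
            have : ({x, xf} : Finset Λ) ⊆ univ.filter (fun y => ov V x g f ∈ AA V E π y) := by
              intro y hy
              rw [mem_insert, mem_singleton] at hy
              rw [mem_filter]
              rcases hy with rfl | rfl
              · exact ⟨mem_univ _, hmx⟩
              · exact ⟨mem_univ _, hmxf⟩
            calc 2 = ({x, xf} : Finset Λ).card := (card_pair hx).symm
              _ ≤ _ := card_le_card this
          rw [hφ1]
          norm_num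
    have hsum : ∑ x, ∑ g ∈ AA V E π x, ((1 : ℝ) - (if x = xf then 1 else 0)
          - ∑ a ∈ A \ E, (if a ∈ Tree.qs g (V x) then (1 : ℝ) else 0))
        = ∑ x, ((AA V E π x).card : ℝ) - (AA V E π xf).card
          - ∑ a ∈ A \ E, ∑ x, (((AA V E π x).filter (fun g => a ∈ Tree.qs g (V x))).card : ℝ) := by
      have e1 : ∀ x, ∑ g ∈ AA V E π x, ((1 : ℝ) - (if x = xf then 1 else 0)
          - ∑ a ∈ A \ E, (if a ∈ Tree.qs g (V x) then (1 : ℝ) else 0))
          = ((AA V E π x).card : ℝ) - (if x = xf then ((AA V E π x).card : ℝ) else 0)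
          - ∑ a ∈ A \ E, (((AA V E π x).filter (fun g => a ∈ Tree.qs g (V x))).card : ℝ) := by
        intro x
        rw [sum_sub_distrib, sum_sub_distrib, sum_comm]
        congr 1
        · congr 1
          · rw [sum_const, nsmul_eq_mul, mul_one]
          · split_ifs
            · rw [sum_const, nsmul_eq_mul, mul_one]
            · rw [sum_const, nsmul_eq_mul, mul_zero]
        · apply sum_congr rfl
          intro a _
          rw [sum_ite, sum_const_zero, add_zero, sum_const, nsmul_eq_mul, mul_one]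
      simp_rw [e1]
      rw [sum_sub_distrib, sum_sub_distrib, sum_comm (t := A \ E)]
      congr 2
      rw [sum_ite_eq' univ xf (fun x => ((AA V E π x).card : ℝ))]
      simp
    calc ((3 / 4 : ℝ) - 1 / 16) * F.card
        ≤ ∑ x, ((AA V E π x).card : ℝ) - (AA V E π xf).card
          - ∑ a ∈ A \ E, ∑ x,
            (((AA V E π x).filter (fun g => a ∈ Tree.qs g (V x))).card : ℝ) := by
          have b1 : (G.card : ℝ) ≤ ∑ x, ((AA V E π x).card : ℝ) := by
            rw [← hsumZ, hG, card_filter]
            push_cast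
            apply sum_le_sum
            intro g _
            split_ifs with h
            · exact_mod_cast h
            · positivity
          have b2 : ((AA V E π xf).card : ℝ) ≤ θ * F.card := by
            calc ((AA V E π xf).card : ℝ) ≤ ((F.card : ℝ) / (C E π).card)
                * ((C E π).filter (fun σ => lab σ = xf)).card := hAx xf
              _ ≤ ((F.card : ℝ) / (C E π).card) * (θ * (C E π).card) := by
                  gcongr
                  exact hlight.1 xf
              _ = θ * F.card := by field_simp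
          have b3 : ∑ a ∈ A \ E, ∑ x,
              (((AA V E π x).filter (fun g => a ∈ Tree.qs g (V x))).card : ℝ)
              ≤ k * (θ * F.card) := by
            calc ∑ a ∈ A \ E, ∑ x,
              (((AA V E π x).filter (fun g => a ∈ Tree.qs g (V x))).card : ℝ)
                ≤ ∑ a ∈ A \ E, θ * F.card :=
                  sum_le_sum (fun a ha => hAxa a (mem_sdiff.mp ha).2)
              _ = (A \ E).card * (θ * F.card) := by rw [sum_const, nsmul_eq_mul]
              _ ≤ k * (θ * F.card) := by
                  gcongr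
                  exact (card_le_card sdiff_subset).trans hAk
          have b4 : (k + 1) * θ * F.card ≤ 1 / 16 * F.card := by gcongr
          nlinarith
      _ = ∑ x, ∑ g ∈ AA V E π x, ((1 : ℝ) - (if x = xf then 1 else 0)
          - ∑ a ∈ A \ E, (if a ∈ Tree.qs g (V x) then (1 : ℝ) else 0)) := hsum.symm
      _ ≤ ∑ x, ∑ g ∈ AA V E π x, φ (ov V x g f) :=
          sum_le_sum (fun x _ => sum_le_sum (fun g hg => hpt x g hg))
  rw [sum_const, nsmul_eq_mul] at hlow
  have hfinal := hlow.trans hup
  nlinarith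

end Pool.Agent.H82.SVL
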