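import Mathlib
import Pool.Agent.H82.SVL.Light

set_option autoImplicit false
set_option linter.unusedSectionVars false

namespace Pool.Agent.H82.SVL

open Finset

variable {D : Type} [Fintype D] [DecidableEq D] {srt : D → ℕ}

section HL

/-- `a` is heavy for `Q` in `S`. -/
def Heavy (Q : Om srt → Finset D) (θ : ℝ) (S : Finset (Om srt)) (a : D) : Prop :=
  θ * S.card < (S.filter (fun σ => a ∈ Q σ)).card

open Classical in
/-- A canonical unknown heavy point, if there is one. -/
noncomputable def pick (Q : Om srt → Finset D) (θ : ℝ) (E : Finset D) (S : Finset (Om srt)) :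
    Option D :=
  if h : ∃ a, a ∉ E ∧ Heavy Q θ S a then some (Classical.choose h) else none

theorem pick_some {Q : Om srt → Finset D} {θ : ℝ} {E : Finset D} {S : Finset (Om srt)} {a : D}
    (h : pick Q θ E S = some a) : a ∉ E ∧ Heavy Q θ S a := by
  unfold pick at h
  split_ifs at h with h'
  cases h
  exact Classical.choose_spec h'

theorem pick_none {Q : Om srt → Finset D} {θ : ℝ} {E : Finset D} {S : Finset (Om srt)}
    (h : pick Q θ E S = none) : ∀ a, a ∉ E → ((S.filter (fun σ => a ∈ Q σ)).card : ℝ)
      ≤ θ * S.card := by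
  unfold pick at h
  split_ifs at h with h'
  push Not at h'
  intro a ha
  have := h' a ha
  unfold Heavy at this
  exact not_lt.mp this

/-- The set learnt by querying heavy points at most `n` times, along `π`. -/
noncomputable def hl (Q : Om srt → Finset D) (θ : ℝ) : ℕ → Finset D → Om srt → Finset D
  | 0, E, _ => E
  | n + 1, E, π =>
    match pick Q θ E (C E π) with
    | some a => hl Q θ n (insert a E) π
    | none => E

open Classical in
/-- The decision tree querying heavy points at most `n` times. -/
noncomputable def hlT (Q : Om srt → Finset D) (θ : ℝ) :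
    ℕ → Finset D → Om srt → Tree D (Option (Finset D × Om srt))
  | 0, E, π => Tree.leaf (some (E, π))
  | n + 1, E, π =>
    match pick Q θ E (C E π) with
    | some a => Tree.query a (fun v =>
        if h : ∃ σ ∈ C E π, σ.1 a = v then hlT Q θ n (insert a E) (Classical.choose h)
        else Tree.leaf none)
    | none => Tree.leaf (some (E, π))

variable {Q : Om srt → Finset D} {θ : ℝ}

theorem hl_zero (E : Finset D) (π : Om srt) : hl Q θ 0 E π = E := rfl

theorem hl_succ_some {n : ℕ} {E : Finset D} {π : Om srt} {a : D}
    (h : pick Q θ E (C E π) = some a) : hl Q θ (n + 1) E π = hl Q θ n (insert a E) π := by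
  simp only [hl, h]

theorem hl_succ_none {n : ℕ} {E : Finset D} {π : Om srt}
    (h : pick Q θ E (C E π) = none) : hl Q θ (n + 1) E π = E := by
  simp only [hl, h]

theorem subset_hl (n : ℕ) (E : Finset D) (π : Om srt) : E ⊆ hl Q θ n E π := by
  induction n generalizing E with
  | zero => exact Subset.refl _
  | succ n ih =>
    cases h : pick Q θ E (C E π) with
    | none => rw [hl_succ_none h]
    | some a => rw [hl_succ_some h]; exact (subset_insert _ _).trans (ih _)

theorem hl_sdiff_some {n : ℕ} {E : Finset D} {π : Om srt} {a : D}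
    (h : pick Q θ E (C E π) = some a) :
    hl Q θ (n + 1) E π \ E = insert a (hl Q θ n (insert a E) π \ insert a E) := by
  rw [hl_succ_some h]
  have h1 := (pick_some h).1
  have h2 := subset_hl (Q := Q) (θ := θ) n (insert a E) π
  have h3 : a ∈ hl Q θ n (insert a E) π := h2 (mem_insert_self _ _)
  ext x
  simp only [mem_sdiff, mem_insert]
  constructor
  · rintro ⟨h4, h5⟩
    by_cases hxa : x = a
    · left; exact hxa
    · right; exact ⟨h4, by tauto⟩
  · rintro (h4 | ⟨h4, h5⟩)
    · subst h4; exact ⟨h3, h1⟩
    · exact ⟨h4, by tauto⟩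

theorem card_hl_sdiff_some {n : ℕ} {E : Finset D} {π : Om srt} {a : D}
    (h : pick Q θ E (C E π) = some a) :
    (hl Q θ (n + 1) E π \ E).card = (hl Q θ n (insert a E) π \ insert a E).card + 1 := by
  rw [hl_sdiff_some h, card_insert_of_notMem]
  simp

theorem card_hl_sdiff_le (n : ℕ) (E : Finset D) (π : Om srt) :
    (hl Q θ n E π \ E).card ≤ n := by
  induction n generalizing E with
  | zero => simp [hl_zero]
  | succ n ih =>
    cases h : pick Q θ E (C E π) with
    | none => rw [hl_succ_none h]; simp
    | some a => rw [card_hl_sdiff_some h]; exact Nat.succ_le_succ (ih _)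

theorem card_hl_le (n : ℕ) (E : Finset D) (π : Om srt) :
    (hl Q θ n E π).card ≤ E.card + n := by
  have h1 := card_hl_sdiff_le (Q := Q) (θ := θ) n E π
  have h2 := card_sdiff_add_card_eq_card (subset_hl (Q := Q) (θ := θ) n E π)
  omega

theorem pick_hl (n : ℕ) (E : Finset D) (π : Om srt)
    (h : (hl Q θ n E π \ E).card < n) :
    pick Q θ (hl Q θ n E π) (C (hl Q θ n E π) π) = none := by
  induction n generalizing E with
  | zero => omega
  | succ n ih =>
    cases h' : pick Q θ E (C E π) with
    | none => rw [hl_succ_none h']; exact h'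
    | some a =>
      rw [card_hl_sdiff_some h'] at h
      rw [hl_succ_some h']
      exact ih _ (by omega)

theorem hl_congr (n : ℕ) (E : Finset D) (π σ : Om srt)
    (h : σ ∈ C (hl Q θ n E π) π) : hl Q θ n E σ = hl Q θ n E π := by
  induction n generalizing E with
  | zero => rfl
  | succ n ih =>
    have hE : σ ∈ C E π := C_mono (subset_hl (n + 1) E π) π h
    have hC : C E σ = C E π := C_eq_of_mem hE
    cases h' : pick Q θ E (C E π) with
    | none =>
      rw [hl_succ_none h', hl_succ_none (by rw [hC]; exact h')]
    | some a =>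
      rw [hl_succ_some h'] at h ⊢
      rw [hl_succ_some (by rw [hC]; exact h')]
      exact ih _ h

theorem DLe_hlT (n : ℕ) (E : Finset D) (π : Om srt) : Tree.DLe (hlT Q θ n E π) n := by
  induction n generalizing E π with
  | zero => simp [hlT, Tree.DLe]
  | succ n ih =>
    cases h' : pick Q θ E (C E π) with
    | none => simp only [hlT, h']; exact Tree.DLe_leaf _ _
    | some a =>
      simp only [hlT, h']
      intro v
      beta_reduce
      split_ifs with h
      · exact ih _ _
      · exact Tree.DLe_leaf _ _

theorem run_hlT (n : ℕ) (E : Finset D) (π : Om srt) (f : D → D) {E' : Finset D} {σ' : Om srt}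
    (h : Tree.run f (hlT Q θ n E π) = some (E', σ')) :
    E ⊆ E' ∧ σ' ∈ C E π ∧ (∀ a ∈ E' \ E, σ'.1 a = f a) ∧
      Tree.qs f (hlT Q θ n E π) = E' \ E ∧ E' = hl Q θ n E σ' := by
  induction n generalizing E π with
  | zero =>
    simp only [hlT, Tree.run_leaf, Option.some.injEq, Prod.mk.injEq] at h
    obtain ⟨rfl, rfl⟩ := h
    refine ⟨Subset.refl _, self_mem_C _ _, by simp, by simp [hlT], rfl⟩
  | succ n ih =>
    cases h' : pick Q θ E (C E π) with
    | none =>
      simp only [hlT, h', Tree.run_leaf, Option.some.injEq, Prod.mk.injEq] at h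
      obtain ⟨rfl, rfl⟩ := h
      refine ⟨Subset.refl _, self_mem_C _ _, by simp, by simp [hlT, h'], ?_⟩
      rw [hl_succ_none h']
    | some a =>
      simp only [hlT, h', Tree.run_query] at h
      split_ifs at h with hex
      · obtain ⟨h1, h2, h3, h4, h5⟩ := ih _ _ h
        obtain ⟨hs1, hs2⟩ := Classical.choose_spec hex
        set π₁ := Classical.choose hex with hπ₁
        have haE := (pick_some h').1
        have hσa : σ'.1 a = f a := by
          rw [mem_C.mp h2 a (mem_insert_self _ _), hs2]
        have hσE : σ' ∈ C E π := mem_C_trans hs1 (C_mono (subset_insert a E) π₁ h2)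
        have haE' : a ∈ E' := h1 (mem_insert_self _ _)
        have hset : E' \ E = insert a (E' \ insert a E) := by
          ext x
          simp only [mem_sdiff, mem_insert]
          constructor
          · rintro ⟨q1, q2⟩
            by_cases hxa : x = a
            · left; exact hxa
            · right; exact ⟨q1, by tauto⟩
          · rintro (q1 | ⟨q1, q2⟩)
            · subst q1; exact ⟨haE', haE⟩
            · exact ⟨q1, by tauto⟩
        refine ⟨(subset_insert a E).trans h1, hσE, ?_, ?_, ?_⟩
        · intro b hb
          rw [hset, mem_insert] at hb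
          rcases hb with rfl | hb
          · exact hσa
          · exact h3 b hb
        · simp only [hlT, h', Tree.qs_query]
          rw [dif_pos hex, h4, hset]
        · rw [hl_succ_some (by rw [C_eq_of_mem hσE]; exact h')]
          exact h5
      · simp at h

theorem run_hlT_ne_none (n : ℕ) (E : Finset D) (π σ : Om srt) (hσ : σ ∈ C E π) :
    ∃ σ', Tree.run σ.1 (hlT Q θ n E π) = some (hl Q θ n E σ, σ') ∧
      σ ∈ C (hl Q θ n E σ) σ' := by
  have hne : ∃ p, Tree.run σ.1 (hlT Q θ n E π) = some p := by
    induction n generalizing E π with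
    | zero => exact ⟨_, rfl⟩
    | succ n ih =>
      cases h' : pick Q θ E (C E π) with
      | none => exact ⟨(E, π), by simp [hlT, h']⟩
      | some a =>
        have hex : ∃ τ ∈ C E π, τ.1 a = σ.1 a := ⟨σ, hσ, rfl⟩
        simp only [hlT, h', Tree.run_query]
        rw [dif_pos hex]
        apply ih
        obtain ⟨hs1, hs2⟩ := Classical.choose_spec hex
        rw [mem_C_insert]
        refine ⟨hs2.symm, ?_⟩
        exact mem_C_trans (mem_C_symm hs1) hσ
  obtain ⟨⟨E', σ'⟩, hp⟩ := hne
  obtain ⟨h1, h2, h3, h4, h5⟩ := run_hlT n E π σ.1 hp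
  have hσ' : σ ∈ C E' σ' := by
    rw [mem_C]
    intro a ha
    by_cases haE : a ∈ E
    · rw [mem_C.mp hσ a haE, mem_C.mp h2 a haE]
    · exact (h3 a (mem_sdiff.mpr ⟨ha, haE⟩)).symm
  have hE' : E' = hl Q θ n E σ := by
    rw [hl_congr n E σ' σ (by rw [← h5]; exact hσ')]
    exact h5
  subst hE'
  exact ⟨σ', hp, hσ'⟩

theorem qs_hlT (n : ℕ) (E : Finset D) (π σ : Om srt) (hσ : σ ∈ C E π) :
    Tree.qs σ.1 (hlT Q θ n E π) = hl Q θ n E σ \ E := by
  obtain ⟨σ', h1, _⟩ := run_hlT_ne_none n E π σ hσ
  exact (run_hlT n E π σ.1 h1).2.2.2.1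

/-- Every heavy query has a chance `θ` of hitting `Q`, hence few are made on average. -/
theorem sum_hl_le (n : ℕ) (E : Finset D) (π : Om srt) :
    θ * ∑ σ ∈ C E π, ((hl Q θ n E σ \ E).card : ℝ)
      ≤ ∑ σ ∈ C E π, (((Q σ) ∩ (hl Q θ n E σ \ E)).card : ℝ) := by
  induction n generalizing E π with
  | zero => simp [hl_zero]
  | succ n ih =>
    cases h : pick Q θ E (C E π) with
    | none =>
      have h0 : ∀ σ ∈ C E π, hl Q θ (n + 1) E σ = E := fun σ hσ =>
        hl_succ_none (by rw [C_eq_of_mem hσ]; exact h)
      rw [sum_congr rfl (fun σ hσ => by rw [h0 σ hσ] : ∀ σ ∈ C E π,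
        ((hl Q θ (n + 1) E σ \ E).card : ℝ) = ((E \ E).card : ℝ)),
        sum_congr rfl (fun σ hσ => by rw [h0 σ hσ] : ∀ σ ∈ C E π,
        (((Q σ) ∩ (hl Q θ (n + 1) E σ \ E)).card : ℝ) = (((Q σ) ∩ (E \ E)).card : ℝ))]
      simp
    | some a =>
      obtain ⟨haE, hheavy⟩ := pick_some h
      have hs : ∀ σ ∈ C E π, pick Q θ E (C E σ) = some a := fun σ hσ => by
        rw [C_eq_of_mem hσ]; exact h
      have e1 : ∑ σ ∈ C E π, ((hl Q θ (n + 1) E σ \ E).card : ℝ)
          = ∑ σ ∈ C E π, ((hl Q θ n (insert a E) σ \ insert a E).card : ℝ) + (C E π).card := by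
        rw [card_eq_sum_ones, Nat.cast_sum, ← sum_add_distrib]
        apply sum_congr rfl
        intro σ hσ
        rw [card_hl_sdiff_some (hs σ hσ)]
        push_cast
        ring
      have e2 : ∑ σ ∈ C E π, (((Q σ) ∩ (hl Q θ (n + 1) E σ \ E)).card : ℝ)
          = ∑ σ ∈ C E π, (((Q σ) ∩ (hl Q θ n (insert a E) σ \ insert a E)).card : ℝ)
            + ((C E π).filter (fun σ => a ∈ Q σ)).card := by
        rw [card_filter, Nat.cast_sum, ← sum_add_distrib]
        apply sum_congr rfl
        intro σ hσ
        rw [hl_sdiff_some (hs σ hσ)]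
        by_cases haQ : a ∈ Q σ
        · rw [inter_insert_of_mem haQ, card_insert_of_notMem, if_pos haQ]
          · push_cast; ring
          · simp
        · rw [inter_insert_of_notMem haQ, if_neg haQ]
          simp
      rw [e1, e2, mul_add]
      apply add_le_add
      · rw [mul_sum]
        apply sum_C_le_of_reveal haE
        intro σ _
        rw [← mul_sum]
        exact ih _ _
      · exact hheavy.le

theorem sum_hl_le' {k : ℕ} (hQ : ∀ σ, (Q σ).card ≤ k) (n : ℕ) (E : Finset D) (π : Om srt) :
    θ * ∑ σ ∈ C E π, ((hl Q θ n E σ \ E).card : ℝ) ≤ k * (C E π).card := by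
  refine (sum_hl_le n E π).trans ?_
  calc ∑ σ ∈ C E π, (((Q σ) ∩ (hl Q θ n E σ \ E)).card : ℝ) ≤ ∑ _σ ∈ C E π, (k : ℝ) := by
        apply sum_le_sum
        intro σ _
        exact_mod_cast (card_le_card inter_subset_left).trans (hQ σ)
    _ = k * (C E π).card := by rw [sum_const, nsmul_eq_mul, mul_comm]

theorem card_trunc_le {k : ℕ} (hQ : ∀ σ, (Q σ).card ≤ k) (hθ : 0 ≤ θ) (n : ℕ)
    (E : Finset D) (π : Om srt) :
    θ * n * ((C E π).filter (fun σ => n ≤ (hl Q θ n E σ \ E).card)).card
      ≤ k * (C E π).card := by
  refine le_trans ?_ (sum_hl_le' (θ := θ) hQ n E π)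
  rw [mul_assoc]
  gcongr
  calc (n : ℝ) * ((C E π).filter (fun σ => n ≤ (hl Q θ n E σ \ E).card)).card
      = ∑ _σ ∈ (C E π).filter (fun σ => n ≤ (hl Q θ n E σ \ E).card), (n : ℝ) := by
        rw [sum_const, nsmul_eq_mul, mul_comm]
    _ ≤ ∑ σ ∈ (C E π).filter (fun σ => n ≤ (hl Q θ n E σ \ E).card),
          ((hl Q θ n E σ \ E).card : ℝ) := by
        apply sum_le_sum
        intro σ hσ
        exact_mod_cast (mem_filter.mp hσ).2
    _ ≤ _ := by
        apply sum_le_sum_of_subset_of_nonneg (filter_subset _ _)
        intro σ _ _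
        positivity

end HL

/-- Either a tree reads only known points, or its first unknown point is common to the node. -/
theorem qs_dichotomy {α : Type} (T : Tree D α) (E : Finset D) (π : Om srt) :
    (∀ σ ∈ C E π, Tree.qs σ.1 T ⊆ E) ∨ ∃ a, a ∉ E ∧ ∀ σ ∈ C E π, a ∈ Tree.qs σ.1 T := by
  induction T with
  | leaf a => left; intro σ _; simp
  | query d k ih =>
    by_cases hd : d ∈ E
    · rcases ih (π.1 d) with h | ⟨a, ha, h⟩
      · left
        intro σ hσ
        rw [Tree.qs_query, mem_C.mp hσ d hd]
        exact insert_subset hd (h σ hσ)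
      · right
        refine ⟨a, ha, ?_⟩
        intro σ hσ
        rw [Tree.qs_query, mem_C.mp hσ d hd]
        exact mem_insert_of_mem (h σ hσ)
    · right
      exact ⟨d, hd, fun σ _ => by rw [Tree.qs_query]; exact mem_insert_self _ _⟩

section Solve

variable {Λ : Type} [Fintype Λ] [DecidableEq Λ]

/-- The label is constant on the node. -/
def Slv (lab : Om srt → Λ) (E : Finset D) (π : Om srt) : Prop :=
  ∀ σ ∈ C E π, lab σ = lab π

theorem slv_or_light {V : Λ → Tree D Bool} {lab : Om srt → Λ} {θ : ℝ} {E : Finset D}
    {π : Om srt} (hθ : 0 ≤ θ)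
    (hval : ∀ σ ∈ C E π, ∀ x, Tree.run σ.1 (V x) = true ↔ x = lab σ)
    (hpick : pick (fun σ => Tree.qs σ.1 (V (lab σ))) θ E (C E π) = none) :
    Slv lab E π ∨ Light V lab θ E π := by
  have h2 := pick_none hpick
  by_cases hl : Light V lab θ E π
  · right; exact hl
  left
  have h1 : ∃ x, θ * (C E π).card < ((C E π).filter (fun σ => lab σ = x)).card := by
    by_contra hcon
    push Not at hcon
    exact hl ⟨hcon, h2⟩
  obtain ⟨x, hx⟩ := h1
  have hne : ((C E π).filter (fun σ => lab σ = x)).Nonempty := by
    rw [← card_pos]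
    have : (0 : ℝ) < ((C E π).filter (fun σ => lab σ = x)).card :=
      lt_of_le_of_lt (by positivity) hx
    exact_mod_cast this
  obtain ⟨σ₀, hσ₀⟩ := hne
  rw [mem_filter] at hσ₀
  rcases qs_dichotomy (V x) E π with h | ⟨a, ha, h⟩
  · have hall : ∀ σ ∈ C E π, lab σ = x := by
      intro σ hσ
      have hag : ∀ a ∈ Tree.qs σ₀.1 (V x), σ.1 a = σ₀.1 a := by
        intro a ha
        have haE := h σ₀ hσ₀.1 ha
        rw [mem_C.mp hσ a haE, mem_C.mp hσ₀.1 a haE]
      have : Tree.run σ.1 (V x) = true := by
        rw [Tree.run_congr hag]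
        exact (hval σ₀ hσ₀.1 x).mpr hσ₀.2.symm
      exact ((hval σ hσ x).mp this).symm
    intro σ hσ
    rw [hall σ hσ, hall π (self_mem_C _ _)]
  · exfalso
    have := h2 a ha
    have hsub : (C E π).filter (fun σ => lab σ = x)
        ⊆ (C E π).filter (fun σ => a ∈ Tree.qs σ.1 (V (lab σ))) := by
      intro σ hσ
      rw [mem_filter] at hσ ⊢
      refine ⟨hσ.1, ?_⟩
      rw [hσ.2]
      exact h σ hσ.1
    have h3 : (((C E π).filter (fun σ => lab σ = x)).card : ℝ)
        ≤ ((C E π).filter (fun σ => a ∈ Tree.qs σ.1 (V (lab σ)))).card := by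
      exact_mod_cast card_le_card hsub
    linarith

end Solve

theorem fib_card_le_fr_add (E : Finset D) (a : D) :
    (fib srt a).card ≤ fr srt E a + E.card := by
  unfold fr
  have := card_le_card_sdiff_add_card (s := fib srt a) (t := E)
  omega

/-- A shallow computation on a random permutation rarely sees a value in a given small set. -/
theorem value_hit {α : Type} (T : Tree D α) {m : ℕ} (hT : Tree.DLe T m) (E : Finset D)
    (π : Om srt) (Y : Finset D) {N : ℝ} (hN : 0 < N)
    (hfib : ∀ a, N + E.card + m ≤ ((fib srt a).card : ℝ)) :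
    (((C E π).filter (fun σ => ∃ a ∈ Tree.qs σ.1 T \ E, σ.1 a ∈ Y)).card : ℝ)
      ≤ (m * Y.card / N) * (C E π).card := by
  classical
  induction T generalizing m E π with
  | leaf a =>
    simp only [Tree.qs_leaf, empty_sdiff, notMem_empty, false_and, exists_false, filter_false,
      card_empty, Nat.cast_zero]
    positivity
  | query d k ih =>
    cases m with
    | zero => exact absurd hT (by simp [Tree.DLe])
    | succ m =>
      by_cases hd : d ∈ E
      · have h1 : (C E π).filter (fun σ => ∃ a ∈ Tree.qs σ.1 (Tree.query d k) \ E, σ.1 a ∈ Y)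
            ⊆ (C E π).filter (fun σ => ∃ a ∈ Tree.qs σ.1 (k (π.1 d)) \ E, σ.1 a ∈ Y) := by
          intro σ hσ
          rw [mem_filter] at hσ ⊢
          obtain ⟨hσ, a, ha, haY⟩ := hσ
          refine ⟨hσ, a, ?_, haY⟩
          rw [mem_sdiff, Tree.qs_query, mem_insert, mem_C.mp hσ d hd] at ha
          rw [mem_sdiff]
          refine ⟨?_, ha.2⟩
          rcases ha.1 with rfl | h
          · exact absurd hd ha.2
          · exact h
        have h2 := ih (π.1 d) (m := m) (hT _) E π (fun a => by
          have := hfib a; push_cast at this; linarith)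
        calc _ ≤ (((C E π).filter
              (fun σ => ∃ a ∈ Tree.qs σ.1 (k (π.1 d)) \ E, σ.1 a ∈ Y)).card : ℝ) := by
              exact_mod_cast card_le_card h1
          _ ≤ (m * Y.card / N) * (C E π).card := h2
          _ ≤ _ := by
              gcongr
              linarith
      · -- reveal the value at d
        have hfr : N ≤ fr srt E d := by
          have h3 := hfib d
          have h4 : ((fib srt d).card : ℝ) ≤ fr srt E d + E.card := by
            exact_mod_cast fib_card_le_fr_add (srt := srt) E d
          push_cast at h3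
          linarith
        have key : ∑ σ ∈ C E π, (if (∃ a ∈ Tree.qs σ.1 (Tree.query d k) \ E, σ.1 a ∈ Y)
              then (1 : ℝ) else 0)
            ≤ ∑ σ ∈ C E π, ((m * Y.card / N) + if σ.1 d ∈ Y then (1 : ℝ) else 0) := by
          apply sum_C_le_of_reveal hd
          intro σ hσ
          by_cases hσY : σ.1 d ∈ Y
          · apply sum_le_sum
            intro τ hτ
            have : τ.1 d = σ.1 d := mem_C.mp hτ d (mem_insert_self _ _)
            rw [this, if_pos hσY]
            have h0 : (0 : ℝ) ≤ m * Y.card / N := by positivity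
            split_ifs
            · linarith
            · linarith
          · have h1 : ∀ τ ∈ C (insert d E) σ,
                (if (∃ a ∈ Tree.qs τ.1 (Tree.query d k) \ E, τ.1 a ∈ Y) then (1 : ℝ) else 0)
                ≤ if (∃ a ∈ Tree.qs τ.1 (k (σ.1 d)) \ insert d E, τ.1 a ∈ Y)
                  then (1 : ℝ) else 0 := by
              intro τ hτ
              have hτd : τ.1 d = σ.1 d := mem_C.mp hτ d (mem_insert_self _ _)
              split_ifs with h5 h6
              · norm_num
              · exfalso
                apply h6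
                obtain ⟨a, ha, haY⟩ := h5
                rw [mem_sdiff, Tree.qs_query, mem_insert, hτd] at ha
                refine ⟨a, ?_, haY⟩
                rw [mem_sdiff, mem_insert]
                rcases ha.1 with rfl | h7
                · rw [hτd] at haY; exact absurd haY hσY
                · refine ⟨h7, ?_⟩
                  rintro (rfl | h8)
                  · rw [hτd] at haY; exact hσY haY
                  · exact ha.2 h8
              · norm_num
              · norm_num
            have h2 : ∑ τ ∈ C (insert d E) σ,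
                (if (∃ a ∈ Tree.qs τ.1 (k (σ.1 d)) \ insert d E, τ.1 a ∈ Y)
                  then (1 : ℝ) else 0) ≤ (m * Y.card / N) * (C (insert d E) σ).card := by
              have := ih (σ.1 d) (m := m) (hT _) (insert d E) σ (fun a => by
                have := hfib a
                rw [card_insert_of_notMem hd]
                push_cast at this ⊢
                linarith)
              rw [card_filter] at this
              push_cast at this
              exact this
            calc _ ≤ ∑ τ ∈ C (insert d E) σ,
                (if (∃ a ∈ Tree.qs τ.1 (k (σ.1 d)) \ insert d E, τ.1 a ∈ Y)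
                  then (1 : ℝ) else 0) := sum_le_sum h1
              _ ≤ (m * Y.card / N) * (C (insert d E) σ).card := h2
              _ = ∑ τ ∈ C (insert d E) σ, (m * Y.card / N : ℝ) := by
                  rw [sum_const, nsmul_eq_mul, mul_comm]
              _ ≤ _ := by
                  apply sum_le_sum
                  intro τ _
                  split_ifs <;> linarith
        have hY : (((C E π).filter (fun σ => σ.1 d ∈ Y)).card : ℝ)
            ≤ (Y.card / N) * (C E π).card := by
          have h1 : ((C E π).filter (fun σ => σ.1 d ∈ Y)).card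
              ≤ ∑ v ∈ Y, ((C E π).filter (fun σ => σ.1 d = v)).card := by
            rw [card_eq_sum_card_fiberwise (s := (C E π).filter (fun σ => σ.1 d ∈ Y))
              (f := fun σ : Om srt => σ.1 d) (t := Y)
              (fun σ hσ => (mem_filter.mp (mem_coe.mp hσ)).2)]
            apply sum_le_sum
            intro v _
            apply card_le_card
            intro σ hσ
            rw [mem_filter, mem_filter] at hσ
            rw [mem_filter]
            exact ⟨hσ.1.1, hσ.2⟩
          have h2 : ∀ v ∈ Y, (((C E π).filter (fun σ => σ.1 d = v)).card : ℝ)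
              ≤ (C E π).card / N := by
            intro v _
            rw [le_div_iff₀ hN]
            by_cases hne : ((C E π).filter (fun σ => σ.1 d = v)).Nonempty
            · obtain ⟨σ, hσ⟩ := hne
              rw [mem_filter] at hσ
              have h5 : (C E π).filter (fun τ => τ.1 d = v) = C (insert d E) σ := by
                rw [← hσ.2]; exact filter_eq_C hσ.1
              rw [h5]
              have h6 := card_C_insert hd σ
              rw [C_eq_of_mem hσ.1] at h6
              rw [h6]
              push_cast
              gcongr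
            · rw [not_nonempty_iff_eq_empty] at hne
              rw [hne]
              simp
          calc (((C E π).filter (fun σ => σ.1 d ∈ Y)).card : ℝ)
              ≤ ∑ v ∈ Y, (((C E π).filter (fun σ => σ.1 d = v)).card : ℝ) := by
                exact_mod_cast h1
            _ ≤ ∑ v ∈ Y, ((C E π).card / N : ℝ) := sum_le_sum h2
            _ = (Y.card / N) * (C E π).card := by rw [sum_const, nsmul_eq_mul]; ring
        rw [card_filter]
        push_cast
        refine key.trans ?_
        rw [sum_add_distrib, sum_const, nsmul_eq_mul]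
        rw [card_filter] at hY
        push_cast at hY
        calc ((C E π).card : ℝ) * (m * Y.card / N) + ∑ σ ∈ C E π, (if σ.1 d ∈ Y then (1 : ℝ) else 0)
            ≤ ((C E π).card : ℝ) * (m * Y.card / N) + (Y.card / N) * (C E π).card := by
              linarith
          _ = _ := by ring

end Pool.Agent.H82.SVL
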