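import Mathlib
import Pool.Agent.H82.SVL.HL

set_option autoImplicit false
set_option linter.unusedSectionVars false

namespace Pool.Agent.H82.SVL

open Finset

variable {D : Type} [Fintype D] [DecidableEq D] {srt : D → ℕ}
variable {Λ : Type} [Fintype Λ] [DecidableEq Λ]

/-- The points read by the accepting verifier. -/
def QV (V : Λ → Tree D Bool) (lab : Om srt → Λ) (σ : Om srt) : Finset D :=
  Tree.qs σ.1 (V (lab σ))

theorem card_QV_le {V : Λ → Tree D Bool} {lab : Om srt → Λ} {k : ℕ}
    (hk : ∀ x, Tree.DLe (V x) k) (σ : Om srt) : (QV V lab σ).card ≤ k :=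
  Tree.card_qs_le _ (hk _)

theorem unslv_le {V : Λ → Tree D Bool} {lab : Om srt → Λ} {θ : ℝ} (hθ : 0 ≤ θ) {k n : ℕ}
    {E : Finset D} {π : Om srt}
    (hval : ∀ σ ∈ C E π, ∀ x, Tree.run σ.1 (V x) = true ↔ x = lab σ)
    (hk : ∀ x, Tree.DLe (V x) k)
    (hno : ∀ σ ∈ C E π, ¬ Light V lab θ (hl (QV V lab) θ n E σ) σ) :
    open Classical in
    θ * n * ((C E π).filter (fun σ => ¬ Slv lab (hl (QV V lab) θ n E σ) σ)).card
      ≤ k * (C E π).card := by
  classical
  refine le_trans ?_ (card_trunc_le (Q := QV V lab) (θ := θ) (card_QV_le hk) hθ n E π)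
  have hsub0 : (C E π).filter (fun σ => ¬ Slv lab (hl (QV V lab) θ n E σ) σ)
      ⊆ (C E π).filter (fun σ => n ≤ (hl (QV V lab) θ n E σ \ E).card) := by
    intro σ hσ
    rw [mem_filter] at hσ ⊢
    refine ⟨hσ.1, ?_⟩
    by_contra hlt
    push Not at hlt
    have hp := pick_hl n E σ hlt
    have hsub : ∀ τ ∈ C (hl (QV V lab) θ n E σ) σ, τ ∈ C E π := fun τ hτ =>
      mem_C_trans hσ.1 (C_mono (subset_hl _ _ _) σ hτ)
    rcases slv_or_light (V := V) (lab := lab) hθ (fun τ hτ => hval τ (hsub τ hτ)) hp with h | h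
    · exact hσ.2 h
    · exact hno σ hσ.1 h
  apply mul_le_mul_of_nonneg_left _ (by positivity)
  exact_mod_cast card_le_card hsub0

theorem shrink {V : Λ → Tree D Bool} {lab : Om srt → Λ} {θ₁ θ₂ N : ℝ} {k K₁ : ℕ}
    {B E' : Finset D} {π₀ : Om srt} (hB : B ⊆ E')
    (hval : ∀ σ ∈ C B π₀, ∀ x, Tree.run σ.1 (V x) = true ↔ x = lab σ)
    (hk : ∀ x, Tree.DLe (V x) k) (hθ₁ : 0 < θ₁) (hK₁ : 0 < K₁)
    (hlight : Light V lab θ₂ E' π₀)
    (hno : ∀ (E : Finset D) (π : Om srt), B ⊆ E → π ∈ C B π₀ → E.card ≤ B.card + (k + 1) * K₁ →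
      ¬ Light V lab θ₁ E π)
    (h1 : 10 * (k : ℝ) ≤ θ₁ * K₁) (hN : 0 < N)
    (hfib : ∀ a, N + (B.card + (k + 1) * K₁ : ℕ) ≤ ((fib srt a).card : ℝ))
    (h2 : (k + 1) * (2 * (K₁ * k / N) + θ₂ + K₁ * θ₂) < 1) : False := by
  classical
  set Q := QV V lab with hQdef
  have hCpos : (0 : ℝ) < (C E' π₀).card := by exact_mod_cast card_C_pos E' π₀
  have hθ₂ : 0 ≤ θ₂ := by
    have := hlight.1 (lab π₀)
    have h0 : (0 : ℝ) ≤ (((C E' π₀).filter (fun σ => lab σ = lab π₀)).card : ℝ) := by positivity
    by_contra hneg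
    push Not at hneg
    nlinarith
  set η : ℝ := 2 * (K₁ * k / N) + θ₂ + K₁ * θ₂ with hη
  have hη0 : 0 ≤ η := by positivity
  have claim : ∀ j : ℕ, j ≤ k + 1 → ∃ (Ej : Finset D) (Bad : Finset (Om srt)),
      B ⊆ Ej ∧ Ej ⊆ E' ∧ Ej.card ≤ B.card + j * K₁ ∧
      (Bad.card : ℝ) ≤ j * η * (C E' π₀).card ∧
      ∀ π ∈ C E' π₀, π ∉ Bad → j ≤ (Q π ∩ Ej).card := by
    intro j
    induction j with
    | zero =>
      intro _
      exact ⟨B, ∅, Subset.refl _, hB, by simp, by simp, by simp⟩
    | succ j ih =>
      intro hj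
      obtain ⟨Ej, Bad, hBE, hEE', hcard, hbad, hmain⟩ := ih (by omega)
      have hπ₀B : ∀ σ ∈ C Ej π₀, σ ∈ C B π₀ := fun σ hσ => C_mono hBE π₀ hσ
      have hCj : (0 : ℝ) < (C Ej π₀).card := by exact_mod_cast card_C_pos Ej π₀
      -- the unsolved part
      have hU := unslv_le (V := V) (lab := lab) (θ := θ₁) hθ₁.le (n := K₁) (E := Ej) (π := π₀)
        (fun σ hσ => hval σ (hπ₀B σ hσ)) hk (by
          intro σ hσ
          apply hno _ _ (hBE.trans (subset_hl _ _ _)) (hπ₀B σ hσ)
          have := card_hl_le (Q := QV V lab) (θ := θ₁) K₁ Ej σ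
          have h3 : j * K₁ + K₁ ≤ (k + 1) * K₁ := by
            calc j * K₁ + K₁ = (j + 1) * K₁ := by ring
              _ ≤ (k + 1) * K₁ := Nat.mul_le_mul_right _ hj
          omega)
      set U := (C Ej π₀).filter (fun σ => ¬ Slv lab (hl Q θ₁ K₁ Ej σ) σ) with hUdef
      have hUc : (U.card : ℝ) ≤ (1 / 10) * (C Ej π₀).card := by
        rcases Nat.eq_zero_or_pos k with hk0 | hk0
        · subst hk0
          simp only [Nat.cast_zero, zero_mul] at hU
          have hpos : 0 < θ₁ * K₁ := by positivity
          have hU0 : (U.card : ℝ) ≤ 0 := by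
            by_contra hc
            push Not at hc
            have := mul_pos hpos hc
            linarith
          linarith
        · have hk' : (0 : ℝ) < k := by exact_mod_cast hk0
          have h4 : 10 * (k : ℝ) * U.card ≤ k * (C Ej π₀).card :=
            le_trans (by gcongr) hU
          have h5 : 10 * (U.card : ℝ) ≤ (C Ej π₀).card := by
            by_contra hc
            push Not at hc
            nlinarith
          linarith
      -- collisions
      let coll : Om srt → Om srt → Prop := fun σ π =>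
        ∃ a ∈ hl Q θ₁ K₁ Ej σ \ Ej, σ.1 a ∈ (Q π).image π.1
      have hcoll : ∀ π : Om srt, (((C Ej π₀).filter (fun σ => coll σ π)).card : ℝ)
          ≤ (K₁ * k / N) * (C Ej π₀).card := by
        intro π
        have h3 := value_hit (srt := srt) (hlT Q θ₁ K₁ Ej π₀) (DLe_hlT _ _ _) Ej π₀
          ((Q π).image π.1) hN (by
            intro a
            have h4 := hfib a
            have h5 : Ej.card + K₁ ≤ B.card + (k + 1) * K₁ := by
              calc Ej.card + K₁ ≤ B.card + j * K₁ + K₁ := by omega
                _ = B.card + (j + 1) * K₁ := by ring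
                _ ≤ B.card + (k + 1) * K₁ := by
                    apply Nat.add_le_add_left
                    exact Nat.mul_le_mul_right _ hj
            have h6 : (Ej.card : ℝ) + K₁ ≤ (B.card + (k + 1) * K₁ : ℕ) := by exact_mod_cast h5
            linarith)
        have h7 : (C Ej π₀).filter (fun σ => coll σ π) = (C Ej π₀).filter (fun σ =>
            ∃ a ∈ Tree.qs σ.1 (hlT Q θ₁ K₁ Ej π₀) \ Ej, σ.1 a ∈ (Q π).image π.1) := by
          apply filter_congr
          intro σ hσ
          rw [qs_hlT K₁ Ej π₀ σ hσ]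
          have : (hl Q θ₁ K₁ Ej σ \ Ej) \ Ej = hl Q θ₁ K₁ Ej σ \ Ej := by
            rw [sdiff_sdiff_left, sup_eq_union, union_self]
          rw [this]
        rw [h7]
        refine h3.trans ?_
        gcongr
        exact card_image_le.trans (card_QV_le hk π)
      -- a solved σ with few collisions
      have hex : ∃ σ ∈ C Ej π₀, Slv lab (hl Q θ₁ K₁ Ej σ) σ ∧
          (((C E' π₀).filter (fun π => coll σ π)).card : ℝ)
            ≤ 2 * (K₁ * k / N) * (C E' π₀).card := by
        by_contra hcon
        push Not at hcon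
        have hs : ∑ σ ∈ C Ej π₀, (((C E' π₀).filter (fun π => coll σ π)).card : ℝ)
            ≤ (K₁ * k / N) * (C Ej π₀).card * (C E' π₀).card := by
          have hswap : ∑ σ ∈ C Ej π₀, (((C E' π₀).filter (fun π => coll σ π)).card : ℝ)
              = ∑ π ∈ C E' π₀, (((C Ej π₀).filter (fun σ => coll σ π)).card : ℝ) := by
            simp only [card_filter]
            push_cast
            rw [sum_comm]
          rw [hswap]
          calc _ ≤ ∑ π ∈ C E' π₀, ((K₁ * k / N) * (C Ej π₀).card : ℝ) :=
                sum_le_sum (fun π _ => hcoll π)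
            _ = _ := by rw [sum_const, nsmul_eq_mul]; ring
        have hlow : ∑ σ ∈ (C Ej π₀).filter (fun σ => Slv lab (hl Q θ₁ K₁ Ej σ) σ),
            (2 * (K₁ * k / N) * (C E' π₀).card : ℝ)
            ≤ ∑ σ ∈ C Ej π₀, (((C E' π₀).filter (fun π => coll σ π)).card : ℝ) := by
          refine le_trans (sum_le_sum (fun σ hσ => ?_))
            (sum_le_sum_of_subset_of_nonneg (filter_subset _ _) (fun _ _ _ => by positivity))
          rw [mem_filter] at hσ
          exact (hcon σ hσ.1 hσ.2).le
        rw [sum_const, nsmul_eq_mul] at hlow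
        have hcompl : (((C Ej π₀).filter (fun σ => Slv lab (hl Q θ₁ K₁ Ej σ) σ)).card : ℝ)
            + U.card = (C Ej π₀).card := by
          rw [hUdef]
          exact_mod_cast card_filter_add_card_filter_not (s := C Ej π₀)
            (fun σ => Slv lab (hl Q θ₁ K₁ Ej σ) σ)
        have hslv : (9 / 10 : ℝ) * (C Ej π₀).card
            ≤ ((C Ej π₀).filter (fun σ => Slv lab (hl Q θ₁ K₁ Ej σ) σ)).card := by linarith
        have hκ0 : (0 : ℝ) ≤ K₁ * k / N := by positivity
        have htot := hlow.trans hs
        rcases hκ0.lt_or_eq with hκ | hκ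
        · have : 0 < (K₁ * k / N) * (C E' π₀).card := by positivity
          have e1 : (9 / 10 : ℝ) * (C Ej π₀).card * (2 * (K₁ * k / N) * (C E' π₀).card)
              ≤ (K₁ * k / N) * (C Ej π₀).card * (C E' π₀).card :=
            le_trans (by gcongr) htot
          have e2 : 0 < (C Ej π₀).card * ((K₁ * k / N) * (C E' π₀).card) := by positivity
          nlinarith
        · -- no collisions at all
          have hne : ((C Ej π₀).filter (fun σ => Slv lab (hl Q θ₁ K₁ Ej σ) σ)).Nonempty := by
            rw [← card_pos]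
            have : (0 : ℝ) < ((C Ej π₀).filter
              (fun σ => Slv lab (hl Q θ₁ K₁ Ej σ) σ)).card := by
              refine lt_of_lt_of_le ?_ hslv
              positivity
            exact_mod_cast this
          obtain ⟨σ, hσ⟩ := hne
          rw [mem_filter] at hσ
          have h8 := hcon σ hσ.1 hσ.2
          rw [← hκ] at h8
          simp only [mul_zero, zero_mul] at h8
          obtain ⟨π, hπ⟩ := card_pos.mp (show 0 < ((C E' π₀).filter
            (fun π => coll σ π)).card by exact_mod_cast h8)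
          rw [mem_filter] at hπ
          have h9 := hcoll π
          rw [← hκ, zero_mul] at h9
          have h10 : 0 < ((C Ej π₀).filter (fun σ => coll σ π)).card :=
            card_pos.mpr ⟨σ, by rw [mem_filter]; exact ⟨hσ.1, hπ.2⟩⟩
          have : (0 : ℝ) < ((C Ej π₀).filter (fun σ => coll σ π)).card := by exact_mod_cast h10
          linarith
      obtain ⟨σ, hσ, hslv, hcσ⟩ := hex
      set Es := hl Q θ₁ K₁ Ej σ with hEs
      have hEjs : Ej ⊆ Es := subset_hl _ _ _
      refine ⟨Ej ∪ (Es ∩ E'), Bad ∪ ((C E' π₀).filter (fun π => coll σ π) ∪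
        ((C E' π₀).filter (fun π => lab π = lab σ) ∪
        (Es \ E').biUnion (fun a => (C E' π₀).filter (fun π => a ∈ Q π)))),
        hBE.trans subset_union_left, union_subset hEE' inter_subset_right, ?_, ?_, ?_⟩
      · have h3 : Ej ∪ (Es ∩ E') ⊆ Es := union_subset hEjs inter_subset_left
        have h4 := card_hl_le (Q := Q) (θ := θ₁) K₁ Ej σ
        calc _ ≤ Es.card := card_le_card h3
          _ ≤ Ej.card + K₁ := h4
          _ ≤ B.card + j * K₁ + K₁ := by omega
          _ = B.card + (j + 1) * K₁ := by ring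
      · have c1 : (((C E' π₀).filter (fun π => lab π = lab σ)).card : ℝ)
            ≤ θ₂ * (C E' π₀).card := hlight.1 _
        have c2 : (((Es \ E').biUnion (fun a => (C E' π₀).filter (fun π => a ∈ Q π))).card : ℝ)
            ≤ K₁ * θ₂ * (C E' π₀).card := by
          have c3 : (((Es \ E').biUnion (fun a => (C E' π₀).filter (fun π => a ∈ Q π))).card : ℝ)
              ≤ ∑ a ∈ Es \ E', (((C E' π₀).filter (fun π => a ∈ Q π)).card : ℝ) := by
            exact_mod_cast card_biUnion_le
          refine c3.trans ?_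
          calc ∑ a ∈ Es \ E', (((C E' π₀).filter (fun π => a ∈ Q π)).card : ℝ)
              ≤ ∑ a ∈ Es \ E', θ₂ * (C E' π₀).card :=
                sum_le_sum (fun a ha => hlight.2 a (mem_sdiff.mp ha).2)
            _ = (Es \ E').card * (θ₂ * (C E' π₀).card) := by rw [sum_const, nsmul_eq_mul]
            _ ≤ K₁ * (θ₂ * (C E' π₀).card) := by
                gcongr
                exact (card_le_card (sdiff_subset_sdiff (Subset.refl _) hEE')).trans
                  (card_hl_sdiff_le _ _ _)
            _ = _ := by ring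
        have c4 := card_union_le Bad ((C E' π₀).filter (fun π => coll σ π) ∪
          ((C E' π₀).filter (fun π => lab π = lab σ) ∪
          (Es \ E').biUnion (fun a => (C E' π₀).filter (fun π => a ∈ Q π))))
        have c5 := card_union_le ((C E' π₀).filter (fun π => coll σ π))
          ((C E' π₀).filter (fun π => lab π = lab σ) ∪
          (Es \ E').biUnion (fun a => (C E' π₀).filter (fun π => a ∈ Q π)))
        have c6 := card_union_le ((C E' π₀).filter (fun π => lab π = lab σ))
          ((Es \ E').biUnion (fun a => (C E' π₀).filter (fun π => a ∈ Q π)))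
        have c7 : ((Bad ∪ ((C E' π₀).filter (fun π => coll σ π) ∪
          ((C E' π₀).filter (fun π => lab π = lab σ) ∪
          (Es \ E').biUnion (fun a => (C E' π₀).filter (fun π => a ∈ Q π))))).card : ℝ)
          ≤ Bad.card + (((C E' π₀).filter (fun π => coll σ π)).card
          + (((C E' π₀).filter (fun π => lab π = lab σ)).card
          + ((Es \ E').biUnion (fun a => (C E' π₀).filter (fun π => a ∈ Q π))).card)) := by
          exact_mod_cast (by omega)
        refine c7.trans ?_
        push_cast
        rw [hη] at hbad ⊢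
        nlinarith
      · intro π hπ hπbad
        simp only [mem_union, mem_filter, mem_biUnion, not_or, not_and, not_exists] at hπbad
        obtain ⟨hb1, hb2, hb3, hb4⟩ := hπbad
        have hncoll := hb2 hπ
        have hnlab := hb3 hπ
        have hj' := hmain π hπ hb1
        -- there is a direct conflict
        have hconf : ∃ a ∈ Es, a ∈ Q π ∧ σ.1 a ≠ π.1 a := by
          by_contra hcon
          push Not at hcon
          have hcol : ∀ a ∈ Es, ∀ c ∈ Q π, σ.1 a = π.1 c → a = c := by
            intro a ha c hc heq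
            by_cases haj : a ∈ Ej
            · have h3 : σ.1 a = π.1 a := by
                rw [mem_C.mp hσ a haj, mem_C.mp hπ a (hEE' haj)]
              rw [h3] at heq
              exact π.1.injective heq
            · exfalso
              apply hncoll
              exact ⟨a, mem_sdiff.mpr ⟨ha, haj⟩, by rw [mem_image]; exact ⟨c, hc, heq.symm⟩⟩
          obtain ⟨τ, hτ1, hτ2⟩ := exists_common hcon hcol
          have hτlab : lab τ = lab σ := hslv τ hτ1
          have hτB : τ ∈ C B π₀ := by
            apply hπ₀B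
            exact mem_C_trans hσ (C_mono hEjs σ hτ1)
          have h4 : Tree.run τ.1 (V (lab π)) = true := by
            rw [Tree.run_congr (f := π.1) (fun a ha => mem_C.mp hτ2 a ha)]
            exact (hval π (C_mono hB π₀ hπ) _).mpr rfl
          have h5 := (hval τ hτB _).mp h4
          exact hnlab (h5.trans hτlab)
        obtain ⟨a, haEs, haQ, hane⟩ := hconf
        have haj : a ∉ Ej := by
          intro haj
          apply hane
          rw [mem_C.mp hσ a haj, mem_C.mp hπ a (hEE' haj)]
        have haE' : a ∈ E' := by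
          by_contra hc
          exact hb4 a (mem_sdiff.mpr ⟨haEs, hc⟩) hπ haQ
        have hsub : insert a (Q π ∩ Ej) ⊆ Q π ∩ (Ej ∪ (Es ∩ E')) := by
          intro b hb
          rw [mem_insert] at hb
          rw [mem_inter, mem_union, mem_inter]
          rcases hb with rfl | hb
          · exact ⟨haQ, Or.inr ⟨haEs, haE'⟩⟩
          · rw [mem_inter] at hb
            exact ⟨hb.1, Or.inl hb.2⟩
        have := card_le_card hsub
        rw [card_insert_of_notMem (by rw [mem_inter]; tauto)] at this
        omega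
  obtain ⟨Ej, Bad, _, _, _, hbad, hmain⟩ := claim (k + 1) le_rfl
  have hlt : (Bad.card : ℝ) < (C E' π₀).card := by
    refine lt_of_le_of_lt hbad ?_
    push_cast
    nlinarith
  have hex : ∃ π ∈ C E' π₀, π ∉ Bad := by
    by_contra hcon
    push Not at hcon
    have : (C E' π₀).card ≤ Bad.card := card_le_card hcon
    have : ((C E' π₀).card : ℝ) ≤ Bad.card := by exact_mod_cast this
    linarith
  obtain ⟨π, hπ, hπb⟩ := hex
  have h3 := hmain π hπ hπb
  have h4 : (Q π ∩ Ej).card ≤ k := (card_le_card inter_subset_left).trans (card_QV_le hk π)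
  omega

end Pool.Agent.H82.SVL
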