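import Mathlib
import Pool.Agent.H82.SVL.NoLight

set_option autoImplicit false
set_option linter.unusedSectionVars false

namespace Pool.Agent.H82.SVL

open Finset

/-- A line instance: start, successor computation, verifiers and length. -/
structure Inst (D Λ : Type) where
  x0 : Λ
  S : Λ → Tree D Λ
  V : ℕ → Λ → Tree D Bool
  L : ℕ

/-- The `i`-th element of the line. -/
def Inst.seq {D Λ : Type} (I : Inst D Λ) (f : D → D) : ℕ → Λ
  | 0 => I.x0
  | i + 1 => Tree.run f (I.S (Inst.seq I f i))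

/-- Verifiability of the line. -/
def Inst.Valid {D Λ : Type} (I : Inst D Λ) (f : D → D) : Prop :=
  ∀ i, i ≤ I.L → ∀ x, Tree.run f (I.V i x) = true ↔ x = I.seq f i

/-- Query bounds. -/
def Inst.Bdd {D Λ : Type} (I : Inst D Λ) (k : ℕ) : Prop :=
  (∀ x, Tree.DLe (I.S x) k) ∧ (∀ i x, Tree.DLe (I.V i x) k)

variable {D : Type} [Fintype D] [DecidableEq D] {srt : D → ℕ}
variable {Λ : Type} [Fintype Λ] [DecidableEq Λ]

/-- Label function of the `i`-th problem. -/
def Inst.lab (srt : D → ℕ) (I : Inst D Λ) (i : ℕ) (σ : Om srt) : Λ := I.seq σ.1 i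

/-- Parameters of the argument. -/
structure Params (srt : D → ℕ) (k K₁ K₂ K₀ : ℕ) (θ₁ θ₂ N : ℝ) (b : ℕ) : Prop where
  hθ₁ : 0 < θ₁
  hθ₁k : (k + 1) * θ₁ ≤ 1 / 16
  hK₁ : 0 < K₁
  h10 : 10 * (k : ℝ) ≤ θ₁ * K₁
  hK₀ : (k + 1) * K₁ ≤ K₀
  hθ₂ : 0 < θ₂
  hK₂ : 0 < K₂
  h10' : 10 * (k : ℝ) ≤ θ₂ * K₂
  hN : 0 < N
  hη : (k + 1) * (2 * (K₁ * k / N) + θ₂ + K₁ * θ₂) < 1
  hfib : ∀ a, N + (b + K₀ : ℕ) ≤ ((fib srt a).card : ℝ)
  hBern : 16 * ((K₂ + k + k : ℕ) : ℝ) ^ 2 ≤ N

theorem unslv_tenth {V : Λ → Tree D Bool} {lab : Om srt → Λ} {θ : ℝ} (hθ : 0 < θ) {k n : ℕ}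
    (hn : 0 < n)
    {E : Finset D} {π : Om srt}
    (hval : ∀ σ ∈ C E π, ∀ x, Tree.run σ.1 (V x) = true ↔ x = lab σ)
    (hk : ∀ x, Tree.DLe (V x) k) (h10 : 10 * (k : ℝ) ≤ θ * n)
    (hno : ∀ σ ∈ C E π, ¬ Light V lab θ (hl (QV V lab) θ n E σ) σ) :
    open Classical in
    (((C E π).filter (fun σ => ¬ Slv lab (hl (QV V lab) θ n E σ) σ)).card : ℝ)
      ≤ (1 / 10) * (C E π).card := by
  classical
  have hU := unslv_le hθ.le hval hk hno
  set U := ((C E π).filter (fun σ => ¬ Slv lab (hl (QV V lab) θ n E σ) σ)) with hUdef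
  rcases Nat.eq_zero_or_pos k with hk0 | hk0
  · subst hk0
    simp only [Nat.cast_zero, zero_mul] at hU
    have hpos : 0 < θ * n := by positivity
    have hU0 : (U.card : ℝ) ≤ 0 := by
      by_contra hc
      push Not at hc
      have := mul_pos hpos hc
      linarith
    have : (0 : ℝ) ≤ (C E π).card := by positivity
    linarith
  · have hk' : (0 : ℝ) < k := by exact_mod_cast hk0
    have h4 : 10 * (k : ℝ) * U.card ≤ k * (C E π).card :=
      le_trans (by gcongr) hU
    have h5 : 10 * (U.card : ℝ) ≤ (C E π).card := by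
      by_contra hc
      push Not at hc
      nlinarith
    linarith

/-- No problem on the line has a light node of bounded size. -/
theorem no_light (I : Inst D Λ) {k K₁ K₂ K₀ : ℕ} {θ₁ θ₂ N : ℝ} {B : Finset D} {π₀ : Om srt}
    (hI : I.Bdd k) (hbase : ∀ σ ∈ C B π₀, I.Valid σ.1)
    (hP : Params srt k K₁ K₂ K₀ θ₁ θ₂ N B.card) :
    ∀ i, i ≤ I.L → ∀ (E : Finset D) (π : Om srt), B ⊆ E → π ∈ C B π₀ →
      E.card ≤ B.card + K₀ → ¬ Light (I.V i) (I.lab srt i) θ₁ E π := by
  classical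
  intro i
  induction i with
  | zero =>
    intro _ E π _ _ _ hL
    have h1 := hL.1 I.x0
    have h2 : (C E π).filter (fun σ => I.lab srt 0 σ = I.x0) = C E π := by
      apply filter_true_of_mem
      intro σ _
      rfl
    rw [h2] at h1
    have hpos : (0 : ℝ) < (C E π).card := by exact_mod_cast card_C_pos E π
    have h3 := hP.hθ₁k
    have h4 : (0 : ℝ) ≤ k := by positivity
    have h5 := hP.hθ₁
    nlinarith
  | succ i ih =>
    intro hi E π hBE hπ hE hL
    have ih' := ih (by omega)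
    set lab := I.lab srt i with hlab
    set Q := QV (I.V i) lab with hQ
    have hvalB : ∀ σ ∈ C B π₀, ∀ x, Tree.run σ.1 (I.V i x) = true ↔ x = lab σ :=
      fun σ hσ x => hbase σ hσ i (by omega) x
    have hEB : ∀ σ ∈ C E π, σ ∈ C B π₀ := fun σ hσ => mem_C_trans hπ (C_mono hBE π hσ)
    have hfr : ∀ a, a ∉ E → N ≤ fr srt E a := by
      intro a _
      have h1 := hP.hfib a
      have h2 : ((fib srt a).card : ℝ) ≤ fr srt E a + E.card := by
        exact_mod_cast fib_card_le_fr_add (srt := srt) E a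
      have h3 : (E.card : ℝ) ≤ (B.card + K₀ : ℕ) := by exact_mod_cast hE
      linarith
    by_cases hlt : ∃ σ ∈ C E π, Light (I.V i) lab θ₂ (hl Q θ₂ K₂ E σ) σ
    · obtain ⟨σ, hσ, hσL⟩ := hlt
      have hCB : C B σ = C B π₀ := C_eq_of_mem (hEB σ hσ)
      refine shrink (B := B) (E' := hl Q θ₂ K₂ E σ) (π₀ := σ) (V := I.V i) (lab := lab)
        (θ₁ := θ₁) (θ₂ := θ₂) (N := N) (k := k) (K₁ := K₁)
        (hBE.trans (subset_hl _ _ _)) (by rw [hCB]; exact hvalB) (fun x => hI.2 i x)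
        hP.hθ₁ hP.hK₁ hσL ?_ hP.h10 hP.hN ?_ hP.hη
      · intro E'' π'' h1 h2 h3
        exact ih' E'' π'' h1 (by rw [← hCB]; exact h2)
          (h3.trans (Nat.add_le_add_left hP.hK₀ _))
      · intro a
        have h1 := hP.hfib a
        have h2 : ((B.card + (k + 1) * K₁ : ℕ) : ℝ) ≤ (B.card + K₀ : ℕ) := by
          exact_mod_cast Nat.add_le_add_left hP.hK₀ _
        linarith
    · push Not at hlt
      have hU := unslv_tenth (V := I.V i) (lab := lab) hP.hθ₂ hP.hK₂
        (fun σ hσ => hvalB σ (hEB σ hσ)) (fun x => hI.2 i x) hP.h10' hlt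
      set T : Tree D Λ := (hlT Q θ₂ K₂ E π).bind
        (fun r => match r with
          | none => Tree.leaf I.x0
          | some p => I.S (lab p.2)) with hT
      have hTd : Tree.DLe T (K₂ + k) := by
        apply (DLe_hlT _ _ _).bind
        intro r
        cases r with
        | none => exact Tree.DLe_leaf _ _
        | some p => exact hI.1 _
      have hsub : (C E π).filter (fun σ => Slv lab (hl Q θ₂ K₂ E σ) σ)
          ⊆ (C E π).filter (fun σ => Tree.run σ.1 T = I.lab srt (i + 1) σ) := by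
        intro σ hσ
        rw [mem_filter] at hσ ⊢
        refine ⟨hσ.1, ?_⟩
        obtain ⟨σ', h1, h2⟩ := run_hlT_ne_none (Q := Q) (θ := θ₂) K₂ E π σ hσ.1
        rw [hT, Tree.run_bind, h1]
        simp only
        have h3 : lab σ' = lab σ := hσ.2 σ' (mem_C_symm h2)
        rw [h3]
        rfl
      have hsucc : (9 / 10 : ℝ) * (C E π).card
          ≤ ((C E π).filter (fun σ => Tree.run σ.1 T = I.lab srt (i + 1) σ)).card := by
        have hcompl : (((C E π).filter (fun σ => Slv lab (hl Q θ₂ K₂ E σ) σ)).card : ℝ)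
            + ((C E π).filter (fun σ => ¬ Slv lab (hl Q θ₂ K₂ E σ) σ)).card
            = (C E π).card := by
          exact_mod_cast card_filter_add_card_filter_not (s := C E π)
            (fun σ => Slv lab (hl Q θ₂ K₂ E σ) σ)
        have h1 : (((C E π).filter (fun σ => Slv lab (hl Q θ₂ K₂ E σ) σ)).card : ℝ)
            ≤ ((C E π).filter (fun σ => Tree.run σ.1 T = I.lab srt (i + 1) σ)).card := by
          exact_mod_cast card_le_card hsub
        linarith
      have hCpos : (0 : ℝ) < (C E π).card := by exact_mod_cast card_C_pos E π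
      set m : ℕ := K₂ + k + k with hm
      have hmN1 : 16 * (m : ℝ) ^ 2 ≤ N := hP.hBern
      have hm1 : (1 : ℝ) ≤ m := by
        have := hP.hK₂
        exact_mod_cast (by omega : 1 ≤ m)
      have hmN : (m : ℝ) ≤ N := by nlinarith
      refine light_kills (V := I.V (i + 1)) (lab := I.lab srt (i + 1)) (θ := θ₁) (E := E)
        (π := π) (k := k) (d := K₂ + k)
        (fun σ hσ x => hbase σ (hEB σ hσ) (i + 1) hi x) (fun x => hI.2 _ x) hL T hTd hP.hN
        hmN hfr hP.hθ₁k ?_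
      have hb : (15 / 16 : ℝ) ≤ (1 - (m : ℝ) / N) ^ m := by
        have h1 := one_add_mul_le_pow (a := -((m : ℝ) / N)) (by
          have : (m : ℝ) / N ≤ 1 := by rw [div_le_one hP.hN]; exact hmN
          linarith) m
        have h2 : (m : ℝ) * (m / N) ≤ 1 / 16 := by
          rw [mul_div_assoc', div_le_iff₀ hP.hN]
          nlinarith
        have h3 : (1 + -((m : ℝ) / N)) = 1 - m / N := by ring
        rw [h3] at h1
        linarith
      have hfrac : (9 / 10 : ℝ) ≤
          (((C E π).filter (fun σ => Tree.run σ.1 T = I.lab srt (i + 1) σ)).card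
            / (C E π).card : ℝ) := by
        rw [le_div_iff₀ hCpos]; exact hsucc
      calc (3 / 4 : ℝ) ≤ (15 / 16) * (9 / 10) := by norm_num
        _ ≤ _ := by gcongr

/-- From every small node above the base, the heavy-point tree solves the `i`-th problem
except with small probability. -/
theorem solve_fraction (I : Inst D Λ) {k K₁ K₂ K₀ : ℕ} {θ₁ θ₂ N : ℝ} {B : Finset D}
    {π₀ : Om srt} (hI : I.Bdd k) (hbase : ∀ σ ∈ C B π₀, I.Valid σ.1)
    (hP : Params srt k K₁ K₂ K₀ θ₁ θ₂ N B.card) {i : ℕ} (hi : i ≤ I.L) {E : Finset D}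
    {π : Om srt} (hBE : B ⊆ E) (hπ : π ∈ C B π₀) {n : ℕ} (hE : E.card + n ≤ B.card + K₀) :
    open Classical in
    θ₁ * n * ((C E π).filter (fun σ =>
        ¬ Slv (I.lab srt i) (hl (QV (I.V i) (I.lab srt i)) θ₁ n E σ) σ)).card
      ≤ k * (C E π).card := by
  apply unslv_le hP.hθ₁.le
  · intro σ hσ x
    exact hbase σ (mem_C_trans hπ (C_mono hBE π hσ)) i hi x
  · exact fun x => hI.2 i x
  · intro σ hσ
    refine no_light I hI hbase hP i hi _ σ (hBE.trans (subset_hl _ _ _))
      (mem_C_trans hπ (C_mono hBE π hσ)) ?_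
    exact (card_hl_le _ _ _).trans hE

end Pool.Agent.H82.SVL
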