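import Mathlib
import Pool.Agent.H82.SVL.Main

set_option autoImplicit false
set_option linter.unusedSectionVars false

namespace Pool.Agent.H82.SVL

open Finset

variable {D : Type} [Fintype D] [DecidableEq D] {srt : D → ℕ}
variable {Λ : Type} [Fintype Λ] [DecidableEq Λ] {R : Type}

/-- A tree that also reports the set of known points and the set of consistent permutations. -/
def trk {α : Type} : Tree D α → Finset D → Finset (Om srt) →
    Tree D (α × Finset D × Finset (Om srt))
  | Tree.leaf a, E, S => Tree.leaf (a, E, S)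
  | Tree.query d k, E, S =>
      Tree.query d (fun v => trk (k v) (insert d E) (S.filter (fun τ => τ.1 d = v)))

theorem run_trk {α : Type} (T : Tree D α) (E : Finset D) (σ : Om srt) :
    Tree.run σ.1 (trk T E (C E σ))
      = (Tree.run σ.1 T, E ∪ Tree.qs σ.1 T, C (E ∪ Tree.qs σ.1 T) σ) := by
  induction T generalizing E with
  | leaf a => simp [trk]
  | query d k ih =>
    simp only [trk, Tree.run_query, Tree.qs_query]
    rw [← C_insert_eq_filter, ih]
    have : insert d E ∪ Tree.qs σ.1 (k (σ.1 d)) = E ∪ insert d (Tree.qs σ.1 (k (σ.1 d))) := by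
      rw [insert_union, union_insert]
    rw [this]

theorem qs_trk {α : Type} (T : Tree D α) (E : Finset D) (S : Finset (Om srt)) (f : D → D) :
    Tree.qs f (trk T E S) = Tree.qs f T := by
  induction T generalizing E S with
  | leaf a => simp [trk]
  | query d k ih => simp only [trk, Tree.qs_query, ih]

theorem DLe_trk {α : Type} {T : Tree D α} {m : ℕ} (h : Tree.DLe T m) (E : Finset D)
    (S : Finset (Om srt)) : Tree.DLe (trk T E S) m := by
  induction T generalizing E S m with
  | leaf a => simp only [trk]; exact Tree.DLe_leaf _ _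
  | query d k ih =>
    cases m with
    | zero => exact absurd h (by simp [Tree.DLe])
    | succ m =>
      simp only [trk]
      intro v
      exact ih v (h v) _ _

/-- States of the solver. -/
structure St (srt : D → ℕ) (Λ : Type) where
  E : Finset D
  S : Finset (Om srt)
  H : Finset D
  lo : ℕ
  hi : ℕ
  x : Λ

/-- Hidden data: coins and permutation, together with the points read by the sampler. -/
structure Hid (srt : D → ℕ) (R : Type) where
  Θ : Finset (R × Om srt)
  EG : R → Om srt → Finset D
  closed : ∀ r π, (r, π) ∈ Θ → ∀ σ ∈ C (EG r π) π, (r, σ) ∈ Θ ∧ EG r σ = EG r π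

/-- Hidden data consistent with the state. -/
def Pos (h : Hid srt R) (s : St srt Λ) : Finset (R × Om srt) :=
  h.Θ.filter (fun p => p.2 ∈ s.S)

theorem mem_Pos {h : Hid srt R} {s : St srt Λ} {p : R × Om srt} :
    p ∈ Pos h s ↔ p ∈ h.Θ ∧ p.2 ∈ s.S := by simp [Pos]

/-- No flagged unknown element is read by the verifier at `hi`. -/
def Unj (I : Inst D Λ) (E H : Finset D) (hi : ℕ) (σ : Om srt) : Prop :=
  hi ≤ I.L ∧ ¬ ∃ c ∈ QV (I.V hi) (I.lab srt hi) σ, c ∉ E ∧ σ.1 c ∈ H

open Classical in
/-- The potential. -/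
noncomputable def Pot (I : Inst D Λ) (h : Hid srt R) (αd αf W : ℝ) (s : St srt Λ)
    (p : R × Om srt) : ℝ :=
  αd * (h.EG p.1 p.2 \ s.E).card + αf * ((h.EG p.1 p.2).image p.2.1 \ s.H).card
    + W * (s.H \ s.E.image p.2.1).card + W * (if Unj I s.E s.H s.hi p.2 then 1 else 0)
    + ((Nat.clog 2 (s.hi - s.lo) : ℝ) + 1)

theorem Pot_nonneg (I : Inst D Λ) (h : Hid srt R) {αd αf W : ℝ} (h1 : 0 ≤ αd) (h2 : 0 ≤ αf)
    (h3 : 0 ≤ W) (s : St srt Λ) (p : R × Om srt) : 0 ≤ Pot I h αd αf W s p := by
  unfold Pot
  split_ifs <;> positivity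

/-- Invariants of states. -/
structure Inv (I : Inst D Λ) (h : Hid srt R) (s : St srt Λ) : Prop where
  cyl : ∀ σ ∈ s.S, s.S = C s.E σ
  lohi : s.lo < s.hi
  hiL : s.hi ≤ I.L + 1
  xlo : ∀ p ∈ Pos h s, I.lab srt s.lo p.2 = s.x

/-- New potential after a step. -/
noncomputable def NPot (I : Inst D Λ) (h : Hid srt R) (αd αf W : ℝ) (o : Λ ⊕ St srt Λ)
    (p : R × Om srt) : ℝ :=
  match o with
  | Sum.inl _ => 0
  | Sum.inr s' => Pot I h αd αf W s' p

/-- A good step of the solver. -/
structure Step (I : Inst D Λ) (h : Hid srt R) (αd αf W : ℝ) (s : St srt Λ) (m : ℕ)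
    (T : Tree D (Λ ⊕ St srt Λ)) : Prop where
  dle : Tree.DLe T m
  out : ∀ p ∈ Pos h s, ∀ x, Tree.run p.2.1 T = Sum.inl x → x = I.lab srt I.L p.2
  inv : ∀ p ∈ Pos h s, ∀ s', Tree.run p.2.1 T = Sum.inr s' →
    Inv I h s' ∧ s'.E.card ≤ s.E.card + m
  block : ∀ p ∈ Pos h s, ∀ s', Tree.run p.2.1 T = Sum.inr s' →
    ∀ q, q ∈ Pos h s' ↔ q ∈ Pos h s ∧ Tree.run q.2.1 T = Sum.inr s'
  drift : ∑ p ∈ Pos h s, NPot I h αd αf W (Tree.run p.2.1 T) p
    ≤ ∑ p ∈ Pos h s, Pot I h αd αf W s p - (Pos h s).card / 2

/-- If good steps are always available, iterating them solves the problem. -/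
theorem drift (I : Inst D Λ) (h : Hid srt R) {αd αf W : ℝ} (hd : 0 ≤ αd) (hf : 0 ≤ αf)
    (hW : 0 ≤ W) {m M : ℕ}
    (hstep : ∀ s : St srt Λ, Inv I h s → (Pos h s).Nonempty → s.E.card ≤ M →
      ∃ T, Step I h αd αf W s m T) :
    ∀ (F : ℕ) (s : St srt Λ), Inv I h s → s.E.card + F * m ≤ M →
      ∃ T : Tree D Λ, Tree.DLe T (F * m) ∧
        (F : ℝ) * ((Pos h s).filter (fun p => Tree.run p.2.1 T ≠ I.lab srt I.L p.2)).card
          ≤ 2 * ∑ p ∈ Pos h s, Pot I h αd αf W s p := by
  classical
  intro F
  induction F with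
  | zero =>
    intro s _ _
    refine ⟨Tree.leaf I.x0, Tree.DLe_leaf _ _, ?_⟩
    have : 0 ≤ ∑ p ∈ Pos h s, Pot I h αd αf W s p :=
      sum_nonneg (fun p _ => Pot_nonneg I h hd hf hW s p)
    push_cast
    linarith
  | succ F ih =>
    intro s hs hE
    have hE' : (F + 1) * m = F * m + m := by ring
    rcases (Pos h s).eq_empty_or_nonempty with hemp | hne
    · refine ⟨Tree.leaf I.x0, Tree.DLe_leaf _ _, ?_⟩
      rw [hemp]; simp
    obtain ⟨T₀, hT₀⟩ := hstep s hs hne (by omega)
    have : Nonempty (Tree D Λ) := ⟨Tree.leaf I.x0⟩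
    choose! g hg using ih
    refine ⟨T₀.bind (fun o => match o with
      | Sum.inl x => Tree.leaf x
      | Sum.inr s' => if Inv I h s' ∧ s'.E.card + F * m ≤ M then g s' else Tree.leaf I.x0),
      ?_, ?_⟩
    · rw [hE', add_comm]
      apply hT₀.dle.bind
      intro o
      cases o with
      | inl x => exact Tree.DLe_leaf _ _
      | inr s' =>
        simp only
        split_ifs with hc
        · exact (hg s' hc.1 hc.2).1
        · exact Tree.DLe_leaf _ _
    · set T := T₀.bind (fun o => match o with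
      | Sum.inl x => Tree.leaf x
      | Sum.inr s' => if Inv I h s' ∧ s'.E.card + F * m ≤ M then g s' else Tree.leaf I.x0)
        with hT
      set fail := (Pos h s).filter (fun p => Tree.run p.2.1 T ≠ I.lab srt I.L p.2) with hfail
      have hfle : (fail.card : ℝ) ≤ (Pos h s).card := by
        exact_mod_cast card_le_card (filter_subset _ _)
      have hmain : (F : ℝ) * fail.card
          ≤ 2 * ∑ p ∈ Pos h s, NPot I h αd αf W (Tree.run p.2.1 T₀) p := by
        -- split by the outcome of the step
        have h1 : (F : ℝ) * fail.card = ∑ o ∈ (Pos h s).image (fun p => Tree.run p.2.1 T₀),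
            (F : ℝ) * ((fail.filter (fun p => Tree.run p.2.1 T₀ = o)).card : ℝ) := by
          rw [← mul_sum, ← Nat.cast_sum]
          congr 2
          apply card_eq_sum_card_fiberwise
          intro p hp
          have hp' : p ∈ fail := hp
          rw [hfail, mem_filter] at hp'
          exact mem_coe.mpr (mem_image_of_mem _ hp'.1)
        have h2 : 2 * ∑ p ∈ Pos h s, NPot I h αd αf W (Tree.run p.2.1 T₀) p
            = ∑ o ∈ (Pos h s).image (fun p => Tree.run p.2.1 T₀),
              2 * ∑ p ∈ (Pos h s).filter (fun p => Tree.run p.2.1 T₀ = o),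
                NPot I h αd αf W (Tree.run p.2.1 T₀) p := by
          rw [← mul_sum]
          congr 1
          exact (sum_fiberwise_of_maps_to (fun p hp => mem_image_of_mem _ hp) _).symm
        rw [h1, h2]
        apply sum_le_sum
        intro o ho
        rw [mem_image] at ho
        obtain ⟨p₀, hp₀, hp₀o⟩ := ho
        cases o with
        | inl x =>
          have h3 : fail.filter (fun p => Tree.run p.2.1 T₀ = Sum.inl x) = ∅ := by
            rw [filter_eq_empty_iff]
            intro p hp hpx
            rw [hfail, mem_filter] at hp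
            apply hp.2
            rw [hT, Tree.run_bind, hpx]
            simp only [Tree.run_leaf]
            exact hT₀.out p hp.1 x hpx
          rw [h3]
          simp only [card_empty, Nat.cast_zero, mul_zero]
          apply mul_nonneg (by norm_num)
          apply sum_nonneg
          intro p hp
          rw [mem_filter] at hp
          rw [hp.2]
          simp [NPot]
        | inr s' =>
          obtain ⟨hinv, hEc⟩ := hT₀.inv p₀ hp₀ s' hp₀o
          have hblock := hT₀.block p₀ hp₀ s' hp₀o
          have hEc' : s'.E.card + F * m ≤ M := by omega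
          have h3 : (Pos h s).filter (fun p => Tree.run p.2.1 T₀ = Sum.inr s') = Pos h s' := by
            ext q
            rw [mem_filter, hblock q]
          have h4 : fail.filter (fun p => Tree.run p.2.1 T₀ = Sum.inr s')
              = (Pos h s').filter (fun p => Tree.run p.2.1 (g s') ≠ I.lab srt I.L p.2) := by
            rw [← h3, hfail]
            ext q
            simp only [mem_filter]
            constructor
            · rintro ⟨⟨q1, q2⟩, q3⟩
              refine ⟨⟨q1, q3⟩, ?_⟩
              rw [hT, Tree.run_bind, q3] at q2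
              simp only at q2
              rw [if_pos ⟨hinv, hEc'⟩] at q2
              exact q2
            · rintro ⟨⟨q1, q3⟩, q2⟩
              refine ⟨⟨q1, ?_⟩, q3⟩
              rw [hT, Tree.run_bind, q3]
              simp only
              rw [if_pos ⟨hinv, hEc'⟩]
              exact q2
          rw [h4]
          refine ((hg s' hinv hEc').2).trans ?_
          rw [h3]
          apply le_of_eq
          congr 1
          apply sum_congr rfl
          intro p hp
          rw [((hblock p).mp hp).2]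
          rfl
      have hdr := hT₀.drift
      push_cast
      linarith

/-- Steps obtained from a query tree and an update rule. -/
theorem block_of_tree {α : Type} {h : Hid srt R} {s : St srt Λ} (hcyl : ∀ σ ∈ s.S, s.S = C s.E σ)
    (T₀ : Tree D α) (next : α × Finset D × Finset (Om srt) → Λ ⊕ St srt Λ)
    (hnext : ∀ o s', next o = Sum.inr s' → s'.E = o.2.1 ∧ s'.S = o.2.2)
    (p : R × Om srt) (hp : p ∈ Pos h s) (s' : St srt Λ)
    (hs' : Tree.run p.2.1 ((trk T₀ s.E s.S).bind (fun o => Tree.leaf (next o))) = Sum.inr s') :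
    ∀ q, q ∈ Pos h s' ↔ q ∈ Pos h s ∧
      Tree.run q.2.1 ((trk T₀ s.E s.S).bind (fun o => Tree.leaf (next o))) = Sum.inr s' := by
  intro q
  have hrun : ∀ q ∈ Pos h s,
      Tree.run q.2.1 ((trk T₀ s.E s.S).bind (fun o => Tree.leaf (next o)))
      = next (Tree.run q.2.1 T₀, s.E ∪ Tree.qs q.2.1 T₀, C (s.E ∪ Tree.qs q.2.1 T₀) q.2) := by
    intro q hq
    rw [mem_Pos] at hq
    rw [Tree.run_bind, hcyl q.2 hq.2, run_trk]
    rfl
  have hp' := hs'
  rw [hrun p hp] at hp'
  obtain ⟨e1, e2⟩ := hnext _ _ hp'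
  simp only at e1 e2
  constructor
  · intro hq
    rw [mem_Pos] at hq
    rw [e2] at hq
    have hpS := (mem_Pos.mp hp).2
    have hqs : q.2 ∈ s.S := by
      rw [hcyl p.2 hpS]
      exact C_mono subset_union_left _ hq.2
    refine ⟨mem_Pos.mpr ⟨hq.1, hqs⟩, ?_⟩
    rw [hrun q (mem_Pos.mpr ⟨hq.1, hqs⟩)]
    have hag : ∀ a ∈ Tree.qs p.2.1 T₀, q.2.1 a = p.2.1 a := fun a ha =>
      mem_C.mp hq.2 a (mem_union_right _ ha)
    rw [Tree.run_congr hag, Tree.qs_congr hag, C_eq_of_mem hq.2]
    exact hp'
  · rintro ⟨hq, hq'⟩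
    rw [hrun q hq] at hq'
    obtain ⟨_, e4⟩ := hnext _ _ hq'
    simp only at e4
    rw [mem_Pos]
    refine ⟨(mem_Pos.mp hq).1, ?_⟩
    rw [e4]
    exact self_mem_C _ _

end Pool.Agent.H82.SVL
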