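import Mathlib
import Pool.Agent.H82.SVL.Drift

set_option autoImplicit false
set_option linter.unusedSectionVars false

namespace Pool.Agent.H82.SVL

open Finset

variable {D : Type} [Fintype D] [DecidableEq D] {srt : D → ℕ}
variable {Λ : Type} [Fintype Λ] [DecidableEq Λ] {R : Type}

theorem Slv_congr {lab : Om srt → Λ} {E : Finset D} {σ τ : Om srt} (h : τ ∈ C E σ) :
    Slv lab E τ ↔ Slv lab E σ := by
  unfold Slv
  rw [C_eq_of_mem h]
  constructor
  · intro h' ρ hρ
    rw [h' ρ hρ, h' σ (self_mem_C _ _)]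
  · intro h' ρ hρ
    rw [h' ρ hρ, h' τ h]

/-- If the heavy-point tree aborts then it met a value of the foreign part. -/
theorem none_hlT {Q : Om srt → Finset D} {θ : ℝ} (n : ℕ) (E : Finset D) (π τ : Om srt)
    (X : Finset D) (hX : X ⊆ E) (hag : ∀ b ∈ E, b ∉ X → τ.1 b = π.1 b)
    (h : Tree.run τ.1 (hlT Q θ n E π) = none) :
    ∃ a ∈ Tree.qs τ.1 (hlT Q θ n E π), ∃ b ∈ X, τ.1 a = π.1 b := by
  induction n generalizing E π with
  | zero => simp [hlT] at h
  | succ n ih =>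
    cases h' : pick Q θ E (C E π) with
    | none => simp [hlT, h'] at h
    | some a =>
      have haE := (pick_some h').1
      simp only [hlT, h', Tree.run_query, Tree.qs_query] at h ⊢
      by_cases hex : ∃ σ ∈ C E π, σ.1 a = τ.1 a
      · rw [dif_pos hex] at h
        simp only [dif_pos hex]
        obtain ⟨hs1, hs2⟩ := Classical.choose_spec hex
        set π₁ := Classical.choose hex with hπ₁
        obtain ⟨c, hc, b, hb, hcb⟩ := ih (insert a E) π₁ (hX.trans (subset_insert _ _)) (by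
          intro b hb hbX
          rw [mem_insert] at hb
          rcases hb with rfl | hb
          · exact hs2.symm
          · rw [hag b hb hbX, mem_C.mp hs1 b hb]) h
        refine ⟨c, mem_insert_of_mem hc, b, hb, ?_⟩
        rw [hcb, mem_C.mp hs1 b (hX hb)]
      · refine ⟨a, mem_insert_self _ _, ?_⟩
        have hnot : τ.1 a ∉ Fr E π a := fun hv => hex (exists_apply_eq haE hv)
        rw [mem_Fr] at hnot
        push Not at hnot
        obtain ⟨b, hb, hbτ⟩ := hnot (τ.2 a)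
        by_cases hbX : b ∈ X
        · exact ⟨b, hbX, hbτ.symm⟩
        · exfalso
          rw [← hag b hb hbX] at hbτ
          exact haE (τ.1.injective hbτ ▸ hb)

/-- The outcome of the heavy-point tree is an unsolved node. -/
def UnslvAt (lab : Om srt → Λ) (o : Option (Finset D × Om srt)) : Prop :=
  ∃ p, o = some p ∧ ¬ Slv lab p.1 p.2

/-- Unsolved leaves are not much more likely from another node that was not touched. -/
theorem unslv_transfer {Q : Om srt → Finset D} {lab : Om srt → Λ} {θ : ℝ} {n : ℕ}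
    {E Ep Eq : Finset D} {σ₀ π' : Om srt} (hEq : E ⊆ Eq) {N M : ℝ}
    (hN : 0 < N) (hfr : ∀ a, a ∉ E → N ≤ fr srt E a)
    (hM : ((Ep \ E).card : ℝ) + n ≤ M) (hMN : M < N) :
    open Classical in
    (((C Ep σ₀).filter (fun τ => Disjoint (Tree.qs τ.1 (hlT Q θ n Eq π')) (Ep \ E) ∧
        UnslvAt lab (Tree.run τ.1 (hlT Q θ n Eq π')))).card : ℝ)
        * (C Eq π').card * (1 - M / N) ^ n
      ≤ (C Ep σ₀).card
        * ((C Eq π').filter (fun τ => ¬ Slv lab (hl Q θ n Eq τ) τ)).card := by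
  classical
  set T := hlT Q θ n Eq π' with hT
  set s := (C Ep σ₀).filter (fun τ => Disjoint (Tree.qs τ.1 T) (Ep \ E) ∧
        UnslvAt lab (Tree.run τ.1 T)) with hs
  set t := (C Eq π').filter (fun τ => ¬ Slv lab (hl Q θ n Eq τ) τ) with ht
  have hρ : 0 < 1 - M / N := by rw [sub_pos, div_lt_one hN]; exact hMN
  have hM0 : 0 ≤ M := by
    have h1 : (0 : ℝ) ≤ ((Ep \ E).card : ℝ) := by positivity
    have h2 : (0 : ℝ) ≤ (n : ℝ) := by positivity
    linarith
  have hρ1 : 1 - M / N ≤ 1 := by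
    rw [sub_le_self_iff]; positivity
  have hCq : (0 : ℝ) < (C Eq π').card := by exact_mod_cast card_C_pos _ _
  have hCp : (0 : ℝ) < (C Ep σ₀).card := by exact_mod_cast card_C_pos _ _
  have key : (s.card : ℝ) ≤ ((C Ep σ₀).card / ((C Eq π').card * (1 - M / N) ^ n)) * t.card := by
    refine block_count s t (fun τ τ' => ∀ a ∈ Tree.qs τ.1 T, τ'.1 a = τ.1 a) (by positivity)
      ?_ ?_ ?_
    · intro f _ f' _ σ _ σ' _ h1 h2 h3 a ha
      have e1 : Tree.qs σ.1 T = Tree.qs f.1 T := Tree.qs_congr h1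
      have e2 : Tree.qs σ.1 T = Tree.qs f'.1 T := Tree.qs_congr h2
      rw [← h2 a ha]
      have ha' : a ∈ Tree.qs f.1 T := by rw [← e1, e2]; exact ha
      rw [h3 a ha', ← h1 a ha']
    · intro τ hτ y hy hR
      rw [hs, mem_filter] at hτ
      rw [ht, mem_filter] at hy
      obtain ⟨hτC, hdis, ⟨Es, σ'⟩, hrun, hns⟩ := hτ
      obtain ⟨r1, r2, r3, r4, r5⟩ := run_hlT n Eq π' τ.1 hrun
      rw [← hT] at r4
      set A := Tree.qs τ.1 T with hA
      have hAcard : A.card ≤ n := Tree.card_qs_le _ (DLe_hlT _ _ _)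
      have hAEq : Disjoint A Eq := by rw [r4]; exact sdiff_disjoint
      have hAE : Disjoint A E := hAEq.mono_right hEq
      have hAEp : Disjoint A Ep := by
        rw [disjoint_left] at hdis hAE ⊢
        intro a ha haEp
        exact hdis ha (mem_sdiff.mpr ⟨haEp, hAE ha⟩)
      have e1 : Tree.qs y.1 T = A := Tree.qs_congr hR
      have hsub : s.filter (fun x' => ∀ a ∈ Tree.qs x'.1 T, y.1 a = x'.1 a)
          ⊆ C (Ep ∪ A) τ := by
        intro x' hx'
        rw [mem_filter, hs, mem_filter] at hx'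
        have e2 : Tree.qs y.1 T = Tree.qs x'.1 T := Tree.qs_congr hx'.2
        rw [mem_C]
        intro a ha
        rw [mem_union] at ha
        rcases ha with ha | ha
        · rw [mem_C.mp hx'.1.1 a ha, mem_C.mp hτC a ha]
        · rw [← hx'.2 a (by rw [← e2, e1]; exact ha), hR a ha]
      have hhl : hl Q θ n Eq y = Eq ∪ A := by
        have h1 := qs_hlT (Q := Q) (θ := θ) n Eq π' y hy.1
        rw [← hT, e1] at h1
        rw [h1, union_sdiff_of_subset (subset_hl _ _ _)]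
      have hsup : C (Eq ∪ A) y ⊆ t.filter (fun y' => ∀ a ∈ A, y'.1 a = τ.1 a) := by
        intro y' hy'
        rw [mem_filter, ht, mem_filter]
        have hyy : y' ∈ C (hl Q θ n Eq y) y := by rw [hhl]; exact hy'
        refine ⟨⟨mem_C_trans hy.1 (C_mono subset_union_left _ hy'), ?_⟩, ?_⟩
        · rw [hl_congr n Eq y y' hyy, Slv_congr hyy]
          exact hy.2
        · intro a ha
          rw [mem_C.mp hy' a (mem_union_right _ ha), hR a ha]
      have h1 : ((C (Ep ∪ A) τ).card : ℝ) * (∏ a ∈ A, (fr srt E a : ℝ)) * (1 - M / N) ^ n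
          ≤ (C Ep σ₀).card := by
        have := card_C_ge (srt := srt) (E := E) (E' := Ep) (A := A) hAEp hN
          (fun a ha => hfr a (disjoint_left.mp hAE ha)) (M := M)
          (by
            have : (A.card : ℝ) ≤ n := by exact_mod_cast hAcard
            linarith) hMN.le τ
        rw [C_eq_of_mem hτC] at this
        refine le_trans ?_ this
        gcongr ?_ * ?_
        exact pow_le_pow_of_le_one hρ.le hρ1 hAcard
      have h2 : ((C Eq π').card : ℝ) ≤ (C (Eq ∪ A) y).card * ∏ a ∈ A, (fr srt E a : ℝ) := by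
        have := card_C_le (srt := srt) (E := E) (E' := Eq) (A := A) hEq hAEq y
        rw [C_eq_of_mem hy.1] at this
        exact_mod_cast this
      have h3 : ((s.filter (fun x' => ∀ a ∈ Tree.qs x'.1 T, y.1 a = x'.1 a)).card : ℝ)
          ≤ (C (Ep ∪ A) τ).card := by exact_mod_cast card_le_card hsub
      have h4 : ((C (Eq ∪ A) y).card : ℝ) ≤ (t.filter (fun y' => ∀ a ∈ A, y'.1 a = τ.1 a)).card := by
        exact_mod_cast card_le_card hsup
      rw [div_mul_eq_mul_div, le_div_iff₀ (by positivity)]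
      calc ((s.filter (fun x' => ∀ a ∈ Tree.qs x'.1 T, y.1 a = x'.1 a)).card : ℝ)
            * ((C Eq π').card * (1 - M / N) ^ n)
          ≤ (C (Ep ∪ A) τ).card
            * (((C (Eq ∪ A) y).card * ∏ a ∈ A, (fr srt E a : ℝ)) * (1 - M / N) ^ n) := by
            gcongr
        _ = (((C (Ep ∪ A) τ).card : ℝ) * (∏ a ∈ A, (fr srt E a : ℝ)) * (1 - M / N) ^ n)
            * (C (Eq ∪ A) y).card := by ring
        _ ≤ (C Ep σ₀).card * (t.filter (fun y' => ∀ a ∈ A, y'.1 a = τ.1 a)).card := by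
            gcongr
    · intro τ hτ
      rw [hs, mem_filter] at hτ
      obtain ⟨hτC, hdis, ⟨Es, σ'⟩, hrun, hns⟩ := hτ
      obtain ⟨r1, r2, r3, r4, r5⟩ := run_hlT n Eq π' τ.1 hrun
      refine ⟨σ', ?_, ?_⟩
      · rw [ht, mem_filter]
        refine ⟨r2, ?_⟩
        rw [← r5]
        exact hns
      · intro a ha
        rw [hT, r4] at ha
        exact r3 a ha
  rw [div_mul_eq_mul_div, le_div_iff₀ (by positivity)] at key
  linarith

/-- Sum over the classes of the hidden data. -/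
theorem class_sum (h : Hid srt R) (s : St srt Λ) (hcyl : ∀ σ ∈ s.S, s.S = C s.E σ)
    (ev : R → Om srt → Prop) {c : ℝ} (hc : 0 ≤ c)
    (H : ∀ r σ, (r, σ) ∈ Pos h s → open Classical in
      (((C (s.E ∪ h.EG r σ) σ).filter (fun τ => ev r τ)).card : ℝ)
        ≤ c * (C (s.E ∪ h.EG r σ) σ).card) :
    open Classical in
    (((Pos h s).filter (fun p => ev p.1 p.2)).card : ℝ) ≤ c * (Pos h s).card := by
  classical
  have hcl : ∀ r σ, (r, σ) ∈ Pos h s → ∀ τ ∈ C (s.E ∪ h.EG r σ) σ,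
      (r, τ) ∈ Pos h s ∧ h.EG r τ = h.EG r σ := by
    intro r σ hp τ hτ
    rw [mem_Pos] at hp
    obtain ⟨h1, h2⟩ := h.closed r σ hp.1 τ (C_mono subset_union_right _ hτ)
    refine ⟨mem_Pos.mpr ⟨h1, ?_⟩, h2⟩
    simp only at hp ⊢
    rw [hcyl σ hp.2]
    exact C_mono subset_union_left _ hτ
  refine block_count _ (Pos h s)
    (fun p q => p.1 = q.1 ∧ q.2 ∈ C (s.E ∪ h.EG p.1 p.2) p.2) hc ?_ ?_ ?_
  · rintro ⟨r, σ⟩ hp ⟨r', σ'⟩ hp' ⟨r2, τ⟩ _ ⟨r3, τ'⟩ _ ⟨e1, m1⟩ ⟨e2, m2⟩ ⟨e3, m3⟩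
    simp only at e1 m1 e2 m2 e3 m3 ⊢
    subst e1 e2 e3
    refine ⟨rfl, ?_⟩
    rw [mem_filter] at hp hp'
    have a1 := (hcl _ _ hp.1 τ m1).2
    have a2 := (hcl _ _ hp'.1 τ m2).2
    have hEG := a2.symm.trans a1
    rw [hEG] at m2 ⊢
    exact mem_C_trans m2 (mem_C_trans (mem_C_symm m1) m3)
  · rintro ⟨r, σ⟩ hp ⟨r2, τ⟩ hq ⟨e1, m1⟩
    simp only at e1 m1
    subst e1
    rw [mem_filter] at hp
    have hmain := H r σ hp.1
    have h1 : ((((Pos h s).filter (fun p => ev p.1 p.2)).filter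
        (fun p => p.1 = r ∧ τ ∈ C (s.E ∪ h.EG p.1 p.2) p.2)).card : ℝ)
        ≤ ((C (s.E ∪ h.EG r σ) σ).filter (fun τ => ev r τ)).card := by
      have : (((Pos h s).filter (fun p => ev p.1 p.2)).filter
        (fun p => p.1 = r ∧ τ ∈ C (s.E ∪ h.EG p.1 p.2) p.2))
        ⊆ ((C (s.E ∪ h.EG r σ) σ).filter (fun τ => ev r τ)).image (fun τ => (r, τ)) := by
        rintro ⟨r', σ'⟩ hx
        rw [mem_filter, mem_filter] at hx
        obtain ⟨⟨x1, x2⟩, x3, x4⟩ := hx
        simp only at x1 x2 x3 x4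
        subst x3
        rw [mem_image]
        refine ⟨σ', ?_, rfl⟩
        rw [mem_filter]
        refine ⟨?_, x2⟩
        have a1 := (hcl _ _ hp.1 τ m1).2
        have a2 := (hcl _ _ x1 τ x4).2
        have hEG : h.EG r' σ' = h.EG r' σ := by rw [← a2, a1]
        rw [hEG] at x4
        exact mem_C_trans m1 (mem_C_symm x4)
      exact_mod_cast (card_le_card this).trans card_image_le
    have h2 : ((C (s.E ∪ h.EG r σ) σ).card : ℝ)
        ≤ ((Pos h s).filter (fun q => r = q.1 ∧ q.2 ∈ C (s.E ∪ h.EG r σ) σ)).card := by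
      have : (C (s.E ∪ h.EG r σ) σ).image (fun τ => (r, τ))
        ⊆ (Pos h s).filter (fun q => r = q.1 ∧ q.2 ∈ C (s.E ∪ h.EG r σ) σ) := by
        intro q hq
        rw [mem_image] at hq
        obtain ⟨τ', hτ', rfl⟩ := hq
        rw [mem_filter]
        exact ⟨(hcl _ _ hp.1 τ' hτ').1, rfl, hτ'⟩
      have h3 := card_le_card this
      rw [card_image_of_injective _ (Prod.mk_right_injective r)] at h3
      exact_mod_cast h3
    calc _ ≤ _ := h1
      _ ≤ c * (C (s.E ∪ h.EG r σ) σ).card := hmain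
      _ ≤ _ := by gcongr
  · rintro ⟨r, σ⟩ hp
    rw [mem_filter] at hp
    exact ⟨(r, σ), hp.1, rfl, self_mem_C _ _⟩

/-! ### Elementary potential estimates -/

theorem image_known_mono {E E' H : Finset D} (hE : E ⊆ E') (σ : Om srt) :
    H \ E'.image σ.1 ⊆ H \ E.image σ.1 :=
  sdiff_subset_sdiff (Subset.refl _) (image_subset_image hE)

theorem card_known_progress {E E' H : Finset D} (hE : E ⊆ E') (σ : Om srt)
    (h : ∃ c ∈ E' \ E, σ.1 c ∈ H) :
    (H \ E'.image σ.1).card + 1 ≤ (H \ E.image σ.1).card := by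
  obtain ⟨c, hc, hcH⟩ := h
  rw [mem_sdiff] at hc
  have h1 : insert (σ.1 c) (H \ E'.image σ.1) ⊆ H \ E.image σ.1 := by
    intro y hy
    rw [mem_insert] at hy
    rcases hy with rfl | hy
    · rw [mem_sdiff]
      refine ⟨hcH, ?_⟩
      intro hcon
      rw [mem_image] at hcon
      obtain ⟨a, ha, hac⟩ := hcon
      exact hc.2 (σ.1.injective hac ▸ ha)
    · exact image_known_mono hE σ hy
  have h2 := card_le_card h1
  rw [card_insert_of_notMem] at h2
  · exact h2
  · intro hcon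
    rw [mem_sdiff] at hcon
    exact hcon.2 (mem_image_of_mem _ hc.1)

theorem Unj_mono {I : Inst D Λ} {E E' H : Finset D} {hi : ℕ} {σ : Om srt}
    (hnp : ¬ ∃ c ∈ E' \ E, σ.1 c ∈ H) (h : Unj I E' H hi σ) : Unj I E H hi σ := by
  refine ⟨h.1, ?_⟩
  rintro ⟨c, hc, hcE, hcH⟩
  apply h.2
  refine ⟨c, hc, ?_, hcH⟩
  intro hcE'
  exact hnp ⟨c, mem_sdiff.mpr ⟨hcE', hcE⟩, hcH⟩

theorem not_Unj_top {I : Inst D Λ} {E H : Finset D} {σ : Om srt} :
    ¬ Unj I E H (I.L + 1) σ := by
  rintro ⟨h, _⟩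
  omega

/-- The reset state. -/
def rst (I : Inst D Λ) (E : Finset D) (S : Finset (Om srt)) (H : Finset D) : St srt Λ :=
  ⟨E, S, H, 0, I.L + 1, I.x0⟩

/-- Progress: a flagged value was met at a new point. -/
def Prog (E H E' : Finset D) (S' : Finset (Om srt)) : Prop :=
  ∃ c ∈ E' \ E, ∃ τ ∈ S', τ.1 c ∈ H

theorem Prog_iff {E H E' : Finset D} {σ : Om srt} :
    Prog E H E' (C E' σ) ↔ ∃ c ∈ E' \ E, σ.1 c ∈ H := by
  constructor
  · rintro ⟨c, hc, τ, hτ, h⟩
    refine ⟨c, hc, ?_⟩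
    rw [← mem_C.mp hτ c (mem_sdiff.mp hc).1]
    exact h
  · rintro ⟨c, hc, h⟩
    exact ⟨c, hc, σ, self_mem_C _ _, h⟩

theorem Inv_rst (I : Inst D Λ) (h : Hid srt R) (E : Finset D) (σ : Om srt) (H : Finset D) :
    Inv I h (rst I E (C E σ) H) where
  cyl := fun τ hτ => (C_eq_of_mem hτ).symm
  lohi := by simp [rst]
  hiL := by simp [rst]
  xlo := fun p _ => rfl

end Pool.Agent.H82.SVL
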