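import Mathlib
import Pool.Agent.H82.SVL.Steps

set_option autoImplicit false
set_option linter.unusedSectionVars false

namespace Pool.Agent.H82.SVL

open Finset

variable {D : Type} [Fintype D] [DecidableEq D] {srt : D → ℕ}
variable {Λ : Type} [Fintype Λ] [DecidableEq Λ] {R : Type}

/-- The test of index `i` with the help of the sample `(E', π')`. -/
noncomputable def testT (I : Inst D Λ) (θ₁ : ℝ) (n i : ℕ) (E' : Finset D) (π' : Om srt) :
    Tree D (Option Λ) :=
  (hlT (QV (I.V i) (I.lab srt i)) θ₁ n E' π').bind (fun res =>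
    match res with
    | none => Tree.leaf none
    | some p => (I.V i (I.lab srt i p.2)).bind (fun b =>
        Tree.leaf (if b = true then some (I.lab srt i p.2) else none)))

theorem DLe_testT {I : Inst D Λ} {k : ℕ} (hI : I.Bdd k) (θ₁ : ℝ) (n i : ℕ) (E' : Finset D)
    (π' : Om srt) : Tree.DLe (testT I θ₁ n i E' π') (n + k) := by
  apply (DLe_hlT _ _ _).bind
  intro res
  cases res with
  | none => exact Tree.DLe_leaf _ _
  | some p =>
    have : k = k + 0 := by omega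
    rw [this]
    exact (hI.2 _ _).bind (fun _ => Tree.DLe_leaf _ _)

/-- Accepted labels are correct. -/
theorem testT_some {I : Inst D Λ} {θ₁ : ℝ} {n i : ℕ} {E' : Finset D} {π' σ : Om srt} {z : Λ}
    (hi : i ≤ I.L) (hv : I.Valid σ.1)
    (h : Tree.run σ.1 (testT I θ₁ n i E' π') = some z) : z = I.lab srt i σ := by
  rw [testT, Tree.run_bind] at h
  cases hres : Tree.run σ.1 (hlT (QV (I.V i) (I.lab srt i)) θ₁ n E' π') with
  | none => rw [hres] at h; simp at h
  | some p =>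
    rw [hres] at h
    simp only [Tree.run_bind, Tree.run_leaf] at h
    split_ifs at h with hb
    cases h
    exact (hv i hi _).mp hb

/-- The event that the test of `i` is rejected without visible reason. -/
def BadT (I : Inst D Λ) (h : Hid srt R) (θ₁ : ℝ) (n i : ℕ) (E H : Finset D)
    (p q : R × Om srt) : Prop :=
  Tree.run p.2.1 (testT I θ₁ n i (E ∪ h.EG q.1 q.2) q.2) = none ∧
  Disjoint (Tree.qs p.2.1 (testT I θ₁ n i (E ∪ h.EG q.1 q.2) q.2)) (h.EG p.1 p.2 \ E) ∧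
  (∀ c ∈ Tree.qs p.2.1 (testT I θ₁ n i (E ∪ h.EG q.1 q.2) q.2) \ E, p.2.1 c ∉ H) ∧
  Unj I (E ∪ Tree.qs p.2.1 (testT I θ₁ n i (E ∪ h.EG q.1 q.2) q.2)) H i p.2

/-- A rejection has one of four reasons. -/
theorem BadT_cases {I : Inst D Λ} {h : Hid srt R} {θ₁ : ℝ} {n i : ℕ} {s : St srt Λ}
    (hcyl : ∀ σ ∈ s.S, s.S = C s.E σ) {p q : R × Om srt} (hp : p ∈ Pos h s)
    (hq : q ∈ Pos h s) (hvp : I.Valid p.2.1)
    (hvq : ∀ σ ∈ C (h.EG q.1 q.2) q.2, I.Valid σ.1)
    (hb : BadT I h θ₁ n i s.E s.H p q) :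
    (Disjoint (Tree.qs p.2.1 (hlT (QV (I.V i) (I.lab srt i)) θ₁ n (s.E ∪ h.EG q.1 q.2) q.2))
        (h.EG p.1 p.2 \ s.E) ∧
      ∃ a ∈ Tree.qs p.2.1 (hlT (QV (I.V i) (I.lab srt i)) θ₁ n (s.E ∪ h.EG q.1 q.2) q.2) \
        (s.E ∪ h.EG p.1 p.2), p.2.1 a ∈ (h.EG q.1 q.2 \ s.E).image q.2.1) ∨
    (Disjoint (Tree.qs p.2.1 (hlT (QV (I.V i) (I.lab srt i)) θ₁ n (s.E ∪ h.EG q.1 q.2) q.2))
        ((s.E ∪ h.EG p.1 p.2) \ s.E) ∧
      UnslvAt (I.lab srt i) (Tree.run p.2.1
        (hlT (QV (I.V i) (I.lab srt i)) θ₁ n (s.E ∪ h.EG q.1 q.2) q.2))) ∨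
    (∃ a ∈ QV (I.V i) (I.lab srt i) p.2 \ s.E, a ∈ h.EG q.1 q.2) ∨
    (∃ c ∈ QV (I.V i) (I.lab srt i) p.2 \ s.E, p.2.1 c ∉ s.H ∧
      p.2.1 c ∈ (h.EG q.1 q.2 \ s.E).image q.2.1) := by
  obtain ⟨hrun, hdis, hnp, hunj⟩ := hb
  have hi : i ≤ I.L := hunj.1
  set Q := QV (I.V i) (I.lab srt i) with hQ
  set Eq := s.E ∪ h.EG q.1 q.2 with hEq
  set T := hlT Q θ₁ n Eq q.2 with hT
  have hpS := (mem_Pos.mp hp).2
  have hqS := (mem_Pos.mp hq).2
  have hpqE : ∀ b ∈ s.E, p.2.1 b = q.2.1 b := by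
    intro b hb
    have : p.2 ∈ C s.E q.2 := by rw [← hcyl q.2 hqS]; exact hpS
    exact mem_C.mp this b hb
  have hqsub : Tree.qs p.2.1 T ⊆ Tree.qs p.2.1 (testT I θ₁ n i Eq q.2) := by
    rw [testT, Tree.qs_bind]
    exact subset_union_left
  have hdisT : Disjoint (Tree.qs p.2.1 T) (h.EG p.1 p.2 \ s.E) := hdis.mono_left hqsub
  cases hres : Tree.run p.2.1 T with
  | none =>
    left
    refine ⟨hdisT, ?_⟩
    obtain ⟨a, ha, b, hb, hab⟩ := none_hlT n Eq q.2 p.2 (h.EG q.1 q.2 \ s.E)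
      (sdiff_subset.trans subset_union_right) (by
        intro b hb hbX
        rw [hEq, mem_union] at hb
        have hbE : b ∈ s.E := by
          by_contra hc
          rcases hb with hb | hb
          · exact hc hb
          · exact hbX (mem_sdiff.mpr ⟨hb, hc⟩)
        exact hpqE b hbE) hres
    rw [mem_sdiff] at hb
    have haE : a ∉ s.E := by
      intro haE
      rw [hpqE a haE] at hab
      exact hb.2 (q.2.1.injective hab ▸ haE)
    refine ⟨a, ?_, ?_⟩
    · rw [mem_sdiff, mem_union, not_or]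
      refine ⟨ha, haE, ?_⟩
      intro haG
      exact disjoint_left.mp hdisT ha (mem_sdiff.mpr ⟨haG, haE⟩)
    · rw [mem_image]
      exact ⟨b, mem_sdiff.mpr hb, hab.symm⟩
  | some res =>
    obtain ⟨Es, σ'⟩ := res
    right
    by_cases hslv : Slv (I.lab srt i) Es σ'
    swap
    · left
      refine ⟨?_, ?_⟩
      · have : (s.E ∪ h.EG p.1 p.2) \ s.E = h.EG p.1 p.2 \ s.E := union_sdiff_left _ _
        rw [this]
        exact hdisT
      · exact ⟨(Es, σ'), rfl, hslv⟩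
    right
    obtain ⟨r1, r2, r3, r4, r5⟩ := run_hlT n Eq q.2 p.2.1 hres
    by_contra hcon
    push Not at hcon
    obtain ⟨hc1, hc2⟩ := hcon
    -- the value agreement of `σ'` and `p.2` away from the foreign part
    have hσ'q : ∀ b ∈ Eq, σ'.1 b = q.2.1 b := fun b hb => mem_C.mp r2 b hb
    have hag : ∀ a ∈ Es, a ∉ h.EG q.1 q.2 \ s.E → σ'.1 a = p.2.1 a := by
      intro a ha hna
      by_cases haq : a ∈ Eq
      · have haE : a ∈ s.E := by
          by_contra hc
          rw [hEq, mem_union] at haq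
          rcases haq with h1 | h1
          · exact hc h1
          · exact hna (mem_sdiff.mpr ⟨h1, hc⟩)
        rw [hσ'q a haq, hpqE a haE]
      · exact r3 a (mem_sdiff.mpr ⟨ha, haq⟩)
    have hdir : ∀ a ∈ Es, a ∈ Q p.2 → σ'.1 a = p.2.1 a := by
      intro a ha haQ
      by_cases haF : a ∈ h.EG q.1 q.2 \ s.E
      · rw [mem_sdiff] at haF
        exact absurd haF.1 (hc1 a (mem_sdiff.mpr ⟨haQ, haF.2⟩))
      · exact hag a ha haF
    have hcol : ∀ a ∈ Es, ∀ c ∈ Q p.2, σ'.1 a = p.2.1 c → a = c := by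
      intro a ha c hc heq
      by_cases haF : a ∈ h.EG q.1 q.2 \ s.E
      · exfalso
        have haF' := mem_sdiff.mp haF
        have haEq : a ∈ Eq := mem_union_right _ haF'.1
        rw [hσ'q a haEq] at heq
        have hcE : c ∉ s.E := by
          intro hcE
          rw [hpqE c hcE] at heq
          exact haF'.2 (q.2.1.injective heq ▸ hcE)
        have himg : p.2.1 c ∈ (h.EG q.1 q.2 \ s.E).image q.2.1 := by
          rw [mem_image]; exact ⟨a, haF, heq⟩
        have hcH : p.2.1 c ∈ s.H := by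
          by_contra hcH
          exact hc2 c (mem_sdiff.mpr ⟨hc, hcE⟩) hcH himg
        -- progress or justification
        by_cases hcq : c ∈ Tree.qs p.2.1 (testT I θ₁ n i Eq q.2)
        · exact hnp c (mem_sdiff.mpr ⟨hcq, hcE⟩) hcH
        · apply hunj.2
          refine ⟨c, hc, ?_, hcH⟩
          rw [mem_union, not_or]
          exact ⟨hcE, hcq⟩
      · rw [hag a ha haF] at heq
        exact p.2.1.injective heq
    obtain ⟨τ, hτ1, hτ2⟩ := exists_common hdir hcol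
    have hτv : I.Valid τ.1 := by
      apply hvq
      have h1 : τ ∈ C Eq σ' := C_mono r1 σ' hτ1
      exact C_mono subset_union_right _ (mem_C_trans r2 h1)
    have h1 : I.lab srt i τ = I.lab srt i σ' := hslv τ hτ1
    have h2 : Tree.run τ.1 (I.V i (I.lab srt i p.2)) = true := by
      rw [Tree.run_congr (f := p.2.1) (fun a ha => mem_C.mp hτ2 a ha)]
      exact (hvp i hi _).mpr rfl
    have h3 : I.lab srt i p.2 = I.lab srt i τ := (hτv i hi _).mp h2
    rw [testT, Tree.run_bind, hres] at hrun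
    simp only [Tree.run_bind, Tree.run_leaf] at hrun
    rw [← h1, ← h3] at hrun
    have h4 : Tree.run p.2.1 (I.V i (I.lab srt i p.2)) = true := (hvp i hi _).mpr rfl
    rw [h4] at hrun
    simp at hrun

/-- Numerical hypotheses for the solver. -/
structure Num (srt : D → ℕ) (k b n K₁ K₂ K₀ M : ℕ) (θ₁ θ₂ θ N W ℓ : ℝ) : Prop where
  par : Params srt k K₁ K₂ K₀ θ₁ θ₂ N b
  hθ : 0 < θ
  hW1 : ℓ + 1 ≤ W
  hℓ : 0 ≤ ℓ
  hn : 0 < n
  hMK : M + n ≤ K₀
  e1 : 8 * W * (n * b) ≤ N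
  e2 : 16 * W * k ≤ θ₁ * n
  e3 : 8 * W * (k * θ) ≤ 1
  e4 : 2 * (n * (b + n : ℕ) : ℝ) ≤ N

theorem Params.mono {k K₁ K₂ K₀ b b' : ℕ} {θ₁ θ₂ N : ℝ}
    (h : Params srt k K₁ K₂ K₀ θ₁ θ₂ N b) (hb : b' ≤ b) :
    Params srt k K₁ K₂ K₀ θ₁ θ₂ N b' :=
  { h with
    hfib := fun a => by
      have h1 := h.hfib a
      have h2 : ((b' + K₀ : ℕ) : ℝ) ≤ (b + K₀ : ℕ) := by exact_mod_cast Nat.add_le_add_right hb _
      linarith }

theorem sum_badT {I : Inst D Λ} {h : Hid srt R} {s : St srt Λ}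
    {k b n K₁ K₂ K₀ M : ℕ} {θ₁ θ₂ θ N W ℓ : ℝ}
    (hnum : Num srt k b n K₁ K₂ K₀ M θ₁ θ₂ θ N W ℓ) (hI : I.Bdd k)
    (hv : ∀ r π, (r, π) ∈ h.Θ → I.Valid π.1)
    (hb : ∀ r π, (r, π) ∈ h.Θ → (h.EG r π).card ≤ b)
    (hcyl : ∀ σ ∈ s.S, s.S = C s.E σ) (hE : s.E.card ≤ M) {i : ℕ} (hi : i ≤ I.L)
    (hnd : ∀ a, a ∉ s.E → (((Pos h s).filter (fun p => a ∈ h.EG p.1 p.2)).card : ℝ)
      ≤ θ * (Pos h s).card)
    (hnr : ∀ y, y ∉ s.H → (((Pos h s).filter
      (fun p => y ∈ (h.EG p.1 p.2 \ s.E).image p.2.1)).card : ℝ) ≤ θ * (Pos h s).card) :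
    open Classical in
    ∑ q ∈ Pos h s, (((Pos h s).filter (fun p => BadT I h θ₁ n i s.E s.H p q)).card : ℝ)
      ≤ (1 / (2 * W)) * (Pos h s).card * (Pos h s).card := by
  classical
  have hW : 0 < W := by linarith [hnum.hW1, hnum.hℓ]
  have hN := hnum.par.hN
  have hMn : M + n ≤ K₀ := hnum.hMK
  have hfr : ∀ a, a ∉ s.E → N ≤ fr srt s.E a := by
    intro a _
    have h1 := hnum.par.hfib a
    have h2 : ((fib srt a).card : ℝ) ≤ fr srt s.E a + s.E.card := by
      exact_mod_cast fib_card_le_fr_add (srt := srt) s.E a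
    have h3 : (s.E.card : ℝ) ≤ (b + K₀ : ℕ) := by exact_mod_cast (by omega)
    linarith
  set P := Pos h s with hP
  set Q := QV (I.V i) (I.lab srt i) with hQ
  obtain ⟨T, hTd⟩ : ∃ T : R × Om srt → Tree D (Option (Finset D × Om srt)),
    ∀ q, T q = hlT Q θ₁ n (s.E ∪ h.EG q.1 q.2) q.2 := ⟨_, fun _ => rfl⟩
  -- the four events
  obtain ⟨ev1, dev1⟩ : ∃ ev : R × Om srt → R → Om srt → Prop, ∀ q r τ, ev q r τ ↔
    ∃ a ∈ Tree.qs τ.1 (T q) \ (s.E ∪ h.EG r τ), τ.1 a ∈ (h.EG q.1 q.2 \ s.E).image q.2.1 :=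
    ⟨_, fun _ _ _ => Iff.rfl⟩
  obtain ⟨ev2, dev2⟩ : ∃ ev : R × Om srt → R → Om srt → Prop, ∀ q r τ, ev q r τ ↔
    Disjoint (Tree.qs τ.1 (T q)) ((s.E ∪ h.EG r τ) \ s.E) ∧
      UnslvAt (I.lab srt i) (Tree.run τ.1 (T q)) :=
    ⟨_, fun _ _ _ => Iff.rfl⟩
  obtain ⟨ev3, dev3⟩ : ∃ ev : R × Om srt → R × Om srt → Prop, ∀ q p, ev q p ↔
    ∃ a ∈ Q p.2 \ s.E, a ∈ h.EG q.1 q.2 := ⟨_, fun _ _ => Iff.rfl⟩
  obtain ⟨ev4, dev4⟩ : ∃ ev : R × Om srt → R × Om srt → Prop, ∀ q p, ev q p ↔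
    ∃ c ∈ Q p.2 \ s.E, p.2.1 c ∉ s.H ∧ p.2.1 c ∈ (h.EG q.1 q.2 \ s.E).image q.2.1 :=
    ⟨_, fun _ _ => Iff.rfl⟩
  have hclosed : ∀ q ∈ P, ∀ σ ∈ C (h.EG q.1 q.2) q.2, I.Valid σ.1 := by
    intro q hq σ hσ
    exact hv _ _ (h.closed q.1 q.2 (mem_Pos.mp hq).1 σ hσ).1
  have hbad : ∀ q ∈ P, ((P.filter (fun p => BadT I h θ₁ n i s.E s.H p q)).card : ℝ)
      ≤ (P.filter (fun p => ev1 q p.1 p.2)).card + (P.filter (fun p => ev2 q p.1 p.2)).card
        + (P.filter (fun p => ev3 q p)).card + (P.filter (fun p => ev4 q p)).card := by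
    intro q hq
    have hsub : P.filter (fun p => BadT I h θ₁ n i s.E s.H p q)
        ⊆ P.filter (fun p => ev1 q p.1 p.2) ∪ (P.filter (fun p => ev2 q p.1 p.2) ∪
          (P.filter (fun p => ev3 q p) ∪ P.filter (fun p => ev4 q p))) := by
      intro p hp
      rw [mem_filter] at hp
      have hc := BadT_cases hcyl hp.1 hq (hv _ _ (mem_Pos.mp hp.1).1) (hclosed q hq) hp.2
      simp only [mem_union, mem_filter, dev1, dev2, dev3, dev4, hTd]
      rcases hc with hc | hc | hc | hc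
      · left; exact ⟨hp.1, hc.2⟩
      · right; left; exact ⟨hp.1, hc⟩
      · right; right; left; exact ⟨hp.1, hc⟩
      · right; right; right; exact ⟨hp.1, hc⟩
    have h1 := card_le_card hsub
    have h2 := card_union_le (P.filter (fun p => ev1 q p.1 p.2))
      (P.filter (fun p => ev2 q p.1 p.2) ∪
          (P.filter (fun p => ev3 q p) ∪ P.filter (fun p => ev4 q p)))
    have h3 := card_union_le (P.filter (fun p => ev2 q p.1 p.2))
          (P.filter (fun p => ev3 q p) ∪ P.filter (fun p => ev4 q p))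
    have h4 := card_union_le (P.filter (fun p => ev3 q p)) (P.filter (fun p => ev4 q p))
    exact_mod_cast (by omega)
  -- event 1
  have hev1 : ∀ q ∈ P, ((P.filter (fun p => ev1 q p.1 p.2)).card : ℝ)
      ≤ (1 / (8 * W)) * P.card := by
    intro q hq
    have hqb : (h.EG q.1 q.2).card ≤ b := hb _ _ (mem_Pos.mp hq).1
    apply class_sum h s hcyl (ev1 q) (by positivity)
    intro r σ hp
    have hpb : (h.EG r σ).card ≤ b := hb _ _ (mem_Pos.mp hp).1
    have hEp : (s.E ∪ h.EG r σ).card ≤ M + b :=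
      (card_union_le _ _).trans (by omega)
    have hvh := value_hit (srt := srt) (T q) (by rw [hTd]; exact DLe_hlT _ _ _) (s.E ∪ h.EG r σ) σ
      ((h.EG q.1 q.2 \ s.E).image q.2.1) hN (by
        intro a
        have h1 := hnum.par.hfib a
        have h2 : (((s.E ∪ h.EG r σ).card : ℝ) + n) ≤ (b + K₀ : ℕ) := by
          exact_mod_cast (by omega)
        linarith)
    have heq : (C (s.E ∪ h.EG r σ) σ).filter (fun τ => ev1 q r τ)
        ⊆ (C (s.E ∪ h.EG r σ) σ).filter (fun τ => ∃ a ∈ Tree.qs τ.1 (T q) \ (s.E ∪ h.EG r σ),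
          τ.1 a ∈ (h.EG q.1 q.2 \ s.E).image q.2.1) := by
      intro τ hτ
      rw [mem_filter] at hτ ⊢
      refine ⟨hτ.1, ?_⟩
      have hEG : h.EG r τ = h.EG r σ :=
        (h.closed r σ (mem_Pos.mp hp).1 τ (C_mono subset_union_right _ hτ.1)).2
      have h1 := (dev1 q r τ).mp hτ.2
      rw [hEG] at h1
      exact h1
    have hcp' : (0 : ℝ) < (C (s.E ∪ h.EG r σ) σ).card := by exact_mod_cast card_C_pos _ _
    have hY : (((h.EG q.1 q.2 \ s.E).image q.2.1).card : ℝ) ≤ b := by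
      exact_mod_cast card_image_le.trans ((card_le_card sdiff_subset).trans hqb)
    calc (((C (s.E ∪ h.EG r σ) σ).filter (fun τ => ev1 q r τ)).card : ℝ)
        ≤ _ := by exact_mod_cast card_le_card heq
      _ ≤ (n * ((h.EG q.1 q.2 \ s.E).image q.2.1).card / N) * (C (s.E ∪ h.EG r σ) σ).card := hvh
      _ ≤ (n * b / N) * (C (s.E ∪ h.EG r σ) σ).card := by gcongr
      _ ≤ (1 / (8 * W)) * (C (s.E ∪ h.EG r σ) σ).card := by
          apply mul_le_mul_of_nonneg_right _ hcp'.le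
          rw [div_le_div_iff₀ hN (by positivity)]
          linarith [hnum.e1]
  -- event 2
  have hev2 : ∀ q ∈ P, ((P.filter (fun p => ev2 q p.1 p.2)).card : ℝ)
      ≤ (1 / (8 * W)) * P.card := by
    intro q hq
    have hqb : (h.EG q.1 q.2).card ≤ b := hb _ _ (mem_Pos.mp hq).1
    apply class_sum h s hcyl (ev2 q) (by positivity)
    intro r σ hp
    have hpb : (h.EG r σ).card ≤ b := hb _ _ (mem_Pos.mp hp).1
    set Mx : ℝ := ((b + n : ℕ) : ℝ) with hMx
    have hMN : Mx < N := by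
      have h1 := hnum.e4
      have h2 : (1 : ℝ) ≤ n := by exact_mod_cast hnum.hn
      have h3 : (0 : ℝ) < ((b + n : ℕ) : ℝ) := by
        have := hnum.hn
        exact_mod_cast (by omega)
      rw [hMx]
      nlinarith
    have htr := unslv_transfer (Q := Q) (lab := I.lab srt i) (θ := θ₁) (n := n)
      (E := s.E) (Ep := s.E ∪ h.EG r σ) (Eq := s.E ∪ h.EG q.1 q.2) (σ₀ := σ) (π' := q.2)
      subset_union_left hN hfr (M := Mx) (by
        rw [union_sdiff_left]
        have h1 : ((h.EG r σ \ s.E).card : ℝ) ≤ b := by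
          exact_mod_cast (card_le_card sdiff_subset).trans hpb
        rw [hMx]; push_cast; linarith) hMN
    rw [← hTd q] at htr
    have hsf := solve_fraction I (B := h.EG q.1 q.2) (π₀ := q.2) hI (hclosed q hq)
      (hnum.par.mono hqb) hi (E := s.E ∪ h.EG q.1 q.2) (π := q.2) subset_union_right
      (self_mem_C _ _) (n := n) (by
        have := card_union_le s.E (h.EG q.1 q.2)
        omega)
    have hρ : (1 / 2 : ℝ) ≤ (1 - Mx / N) ^ n := by
      have h1 := one_add_mul_le_pow (a := -(Mx / N)) (by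
        have : Mx / N ≤ 1 := by rw [div_le_one hN]; exact hMN.le
        linarith) n
      have h2 : (n : ℝ) * (Mx / N) ≤ 1 / 2 := by
        rw [mul_div_assoc', div_le_iff₀ hN]
        have := hnum.e4
        rw [hMx]
        linarith
      have h3 : (1 + -(Mx / N)) = 1 - Mx / N := by ring
      rw [h3] at h1
      linarith
    have hfeq : (C (s.E ∪ h.EG r σ) σ).filter (fun τ => ev2 q r τ)
        ⊆ (C (s.E ∪ h.EG r σ) σ).filter (fun τ =>
          Disjoint (Tree.qs τ.1 (T q)) ((s.E ∪ h.EG r σ) \ s.E) ∧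
          UnslvAt (I.lab srt i) (Tree.run τ.1 (T q))) := by
      intro τ hτ
      rw [mem_filter] at hτ ⊢
      refine ⟨hτ.1, ?_⟩
      have hEG : h.EG r τ = h.EG r σ :=
        (h.closed r σ (mem_Pos.mp hp).1 τ (C_mono subset_union_right _ hτ.1)).2
      have h1 := (dev2 q r τ).mp hτ.2
      rw [hEG] at h1
      exact h1
    set x : ℝ := (((C (s.E ∪ h.EG r σ) σ).filter (fun τ =>
          Disjoint (Tree.qs τ.1 (T q)) ((s.E ∪ h.EG r σ) \ s.E) ∧
          UnslvAt (I.lab srt i) (Tree.run τ.1 (T q)))).card : ℝ) with hx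
    set y : ℝ := (((C (s.E ∪ h.EG q.1 q.2) q.2).filter
      (fun τ => ¬ Slv (I.lab srt i) (hl Q θ₁ n (s.E ∪ h.EG q.1 q.2) τ) τ)).card : ℝ) with hy
    have hcq : (0 : ℝ) < (C (s.E ∪ h.EG q.1 q.2) q.2).card := by exact_mod_cast card_C_pos _ _
    have hcp : (0 : ℝ) < (C (s.E ∪ h.EG r σ) σ).card := by exact_mod_cast card_C_pos _ _
    have hx0 : 0 ≤ x := by rw [hx]; positivity
    have hy0 : 0 ≤ y := by rw [hy]; positivity
    have hxle : (((C (s.E ∪ h.EG r σ) σ).filter (fun τ => ev2 q r τ)).card : ℝ) ≤ x := by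
      rw [hx]; exact_mod_cast card_le_card hfeq
    refine hxle.trans ?_
    -- x * cq / 2 ≤ cp * y,  θ₁ n y ≤ k cq
    have h5 : x * (C (s.E ∪ h.EG q.1 q.2) q.2).card * (1 / 2)
        ≤ (C (s.E ∪ h.EG r σ) σ).card * y :=
      le_trans (by gcongr) htr
    have h6 : θ₁ * n * y ≤ k * (C (s.E ∪ h.EG q.1 q.2) q.2).card := hsf
    have hθn : 0 < θ₁ * n := by
      have := hnum.par.hθ₁
      have : (0 : ℝ) < n := by exact_mod_cast hnum.hn
      positivity
    -- multiply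
    have h7 : x * (C (s.E ∪ h.EG q.1 q.2) q.2).card * (1 / 2) * (θ₁ * n)
        ≤ (C (s.E ∪ h.EG r σ) σ).card * (k * (C (s.E ∪ h.EG q.1 q.2) q.2).card) := by
      calc x * (C (s.E ∪ h.EG q.1 q.2) q.2).card * (1 / 2) * (θ₁ * n)
          ≤ (C (s.E ∪ h.EG r σ) σ).card * y * (θ₁ * n) := by gcongr
        _ = (C (s.E ∪ h.EG r σ) σ).card * (θ₁ * n * y) := by ring
        _ ≤ _ := by gcongr
    have h8 : x * (θ₁ * n) ≤ 2 * k * (C (s.E ∪ h.EG r σ) σ).card := by
      have h9 : (x * (θ₁ * n)) * (C (s.E ∪ h.EG q.1 q.2) q.2).card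
          ≤ (2 * k * (C (s.E ∪ h.EG r σ) σ).card) * (C (s.E ∪ h.EG q.1 q.2) q.2).card := by
        nlinarith
      exact le_of_mul_le_mul_right h9 hcq
    have h10 : x * (16 * W * k) ≤ x * (θ₁ * n) := by
      have := hnum.e2
      gcongr
    rcases Nat.eq_zero_or_pos k with hk0 | hk0
    · rw [hk0] at h8
      simp only [Nat.cast_zero, mul_zero, zero_mul] at h8
      have : x ≤ 0 := by
        by_contra hc
        push Not at hc
        have := mul_pos hc hθn
        linarith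
      have : (0 : ℝ) ≤ 1 / (8 * W) * (C (s.E ∪ h.EG r σ) σ).card := by positivity
      linarith
    · have hkp : (0 : ℝ) < k := by exact_mod_cast hk0
      have h11 : x * (8 * W) ≤ (C (s.E ∪ h.EG r σ) σ).card := by
        have h12 : (x * (8 * W)) * (2 * k) ≤ (C (s.E ∪ h.EG r σ) σ).card * (2 * k) := by
          nlinarith
        exact le_of_mul_le_mul_right h12 (by positivity)
      rw [one_div, inv_mul_eq_div, le_div_iff₀ (by positivity)]
      exact h11
  -- events 3 and 4, summed over q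
  have hev3 : ∀ p ∈ P, ((P.filter (fun q => ev3 q p)).card : ℝ) ≤ (1 / (8 * W)) * P.card := by
    intro p hp
    have hsub : P.filter (fun q => ev3 q p)
        ⊆ (Q p.2 \ s.E).biUnion (fun a => P.filter (fun q => a ∈ h.EG q.1 q.2)) := by
      intro q hq
      rw [mem_filter, dev3] at hq
      obtain ⟨hq1, a, ha, haq⟩ := hq
      rw [mem_biUnion]
      exact ⟨a, ha, by rw [mem_filter]; exact ⟨hq1, haq⟩⟩
    calc ((P.filter (fun q => ev3 q p)).card : ℝ)
        ≤ ∑ a ∈ Q p.2 \ s.E, ((P.filter (fun q => a ∈ h.EG q.1 q.2)).card : ℝ) := by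
          exact_mod_cast (card_le_card hsub).trans card_biUnion_le
      _ ≤ ∑ a ∈ Q p.2 \ s.E, θ * P.card :=
          sum_le_sum (fun a ha => hnd a (mem_sdiff.mp ha).2)
      _ = (Q p.2 \ s.E).card * (θ * P.card) := by rw [sum_const, nsmul_eq_mul]
      _ ≤ k * (θ * P.card) := by
          have := hnum.hθ
          gcongr
          exact (card_le_card sdiff_subset).trans (card_QV_le (fun x => hI.2 i x) p.2)
      _ = (k * θ) * P.card := by ring
      _ ≤ (1 / (8 * W)) * P.card := by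
          gcongr
          rw [le_div_iff₀ (by positivity)]
          linarith [hnum.e3]
  have hev4 : ∀ p ∈ P, ((P.filter (fun q => ev4 q p)).card : ℝ) ≤ (1 / (8 * W)) * P.card := by
    intro p hp
    have hsub : P.filter (fun q => ev4 q p)
        ⊆ ((Q p.2 \ s.E).filter (fun c => p.2.1 c ∉ s.H)).biUnion
          (fun c => P.filter (fun q => p.2.1 c ∈ (h.EG q.1 q.2 \ s.E).image q.2.1)) := by
      intro q hq
      rw [mem_filter, dev4] at hq
      obtain ⟨hq1, c, hc, hcH, hcq⟩ := hq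
      rw [mem_biUnion]
      exact ⟨c, by rw [mem_filter]; exact ⟨hc, hcH⟩, by rw [mem_filter]; exact ⟨hq1, hcq⟩⟩
    calc ((P.filter (fun q => ev4 q p)).card : ℝ)
        ≤ ∑ c ∈ (Q p.2 \ s.E).filter (fun c => p.2.1 c ∉ s.H),
          ((P.filter (fun q => p.2.1 c ∈ (h.EG q.1 q.2 \ s.E).image q.2.1)).card : ℝ) := by
          exact_mod_cast (card_le_card hsub).trans card_biUnion_le
      _ ≤ ∑ c ∈ (Q p.2 \ s.E).filter (fun c => p.2.1 c ∉ s.H), θ * P.card :=
          sum_le_sum (fun c hc => hnr _ (mem_filter.mp hc).2)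
      _ = ((Q p.2 \ s.E).filter (fun c => p.2.1 c ∉ s.H)).card * (θ * P.card) := by
          rw [sum_const, nsmul_eq_mul]
      _ ≤ k * (θ * P.card) := by
          have := hnum.hθ
          gcongr
          exact (card_le_card ((filter_subset _ _).trans sdiff_subset)).trans
            (card_QV_le (fun x => hI.2 i x) p.2)
      _ = (k * θ) * P.card := by ring
      _ ≤ (1 / (8 * W)) * P.card := by
          gcongr
          rw [le_div_iff₀ (by positivity)]
          linarith [hnum.e3]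
  have hsw : ∀ (ev : R × Om srt → R × Om srt → Prop),
      ∑ q ∈ P, ((P.filter (fun p => ev q p)).card : ℝ)
        = ∑ p ∈ P, ((P.filter (fun q => ev q p)).card : ℝ) := by
    intro ev
    simp only [card_filter]
    push_cast
    rw [sum_comm]
  have hs3 : ∑ q ∈ P, ((P.filter (fun p => ev3 q p)).card : ℝ)
      ≤ (1 / (8 * W)) * P.card * P.card := by
    rw [hsw ev3]
    calc _ ≤ ∑ p ∈ P, (1 / (8 * W)) * (P.card : ℝ) := sum_le_sum hev3
      _ = _ := by rw [sum_const, nsmul_eq_mul]; ring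
  have hs4 : ∑ q ∈ P, ((P.filter (fun p => ev4 q p)).card : ℝ)
      ≤ (1 / (8 * W)) * P.card * P.card := by
    rw [hsw ev4]
    calc _ ≤ ∑ p ∈ P, (1 / (8 * W)) * (P.card : ℝ) := sum_le_sum hev4
      _ = _ := by rw [sum_const, nsmul_eq_mul]; ring
  have hs1 : ∑ q ∈ P, ((P.filter (fun p => ev1 q p.1 p.2)).card : ℝ)
      ≤ (1 / (8 * W)) * P.card * P.card := by
    calc _ ≤ ∑ q ∈ P, (1 / (8 * W)) * (P.card : ℝ) := sum_le_sum hev1
      _ = _ := by rw [sum_const, nsmul_eq_mul]; ring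
  have hs2 : ∑ q ∈ P, ((P.filter (fun p => ev2 q p.1 p.2)).card : ℝ)
      ≤ (1 / (8 * W)) * P.card * P.card := by
    calc _ ≤ ∑ q ∈ P, (1 / (8 * W)) * (P.card : ℝ) := sum_le_sum hev2
      _ = _ := by rw [sum_const, nsmul_eq_mul]; ring
  calc ∑ q ∈ P, ((P.filter (fun p => BadT I h θ₁ n i s.E s.H p q)).card : ℝ)
      ≤ ∑ q ∈ P, (((P.filter (fun p => ev1 q p.1 p.2)).card : ℝ)
        + (P.filter (fun p => ev2 q p.1 p.2)).card
        + (P.filter (fun p => ev3 q p)).card + (P.filter (fun p => ev4 q p)).card) :=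
        sum_le_sum hbad
    _ = ∑ q ∈ P, ((P.filter (fun p => ev1 q p.1 p.2)).card : ℝ)
        + ∑ q ∈ P, ((P.filter (fun p => ev2 q p.1 p.2)).card : ℝ)
        + ∑ q ∈ P, ((P.filter (fun p => ev3 q p)).card : ℝ)
        + ∑ q ∈ P, ((P.filter (fun p => ev4 q p)).card : ℝ) := by
        simp only [sum_add_distrib]
    _ ≤ (1 / (8 * W)) * P.card * P.card + (1 / (8 * W)) * P.card * P.card
        + (1 / (8 * W)) * P.card * P.card + (1 / (8 * W)) * P.card * P.card := by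
        linarith
    _ = (1 / (2 * W)) * P.card * P.card := by
        field_simp
        ring

end Pool.Agent.H82.SVL
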