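import Mathlib
import Pool.Agent.H82.SVL.TestStep

set_option autoImplicit false
set_option linter.unusedSectionVars false

namespace Pool.Agent.H82.SVL

open Finset

variable {D : Type} [Fintype D] [DecidableEq D] {srt : D → ℕ}
variable {Λ : Type} [Fintype Λ] [DecidableEq Λ] {R : Type}

/-- A step from a query tree and an update rule. -/
theorem step_of_tree {I : Inst D Λ} {h : Hid srt R} {αd αf W : ℝ} {s : St srt Λ} {m : ℕ}
    {α : Type} (hinv : Inv I h s) (T₀ : Tree D α) (hT₀ : Tree.DLe T₀ m)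
    (next : α × Finset D × Finset (Om srt) → Λ ⊕ St srt Λ)
    (n1 : ∀ o s', next o = Sum.inr s' → s'.E = o.2.1 ∧ s'.S = o.2.2)
    (n2 : ∀ p ∈ Pos h s, ∀ x, next (Tree.run p.2.1 T₀, s.E ∪ Tree.qs p.2.1 T₀,
      C (s.E ∪ Tree.qs p.2.1 T₀) p.2) = Sum.inl x → x = I.lab srt I.L p.2)
    (n3 : ∀ p ∈ Pos h s, ∀ s', next (Tree.run p.2.1 T₀, s.E ∪ Tree.qs p.2.1 T₀,
      C (s.E ∪ Tree.qs p.2.1 T₀) p.2) = Sum.inr s' →
        s'.lo < s'.hi ∧ s'.hi ≤ I.L + 1 ∧ I.lab srt s'.lo p.2 = s'.x)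
    (c : R × Om srt → ℝ)
    (n4 : ∀ p ∈ Pos h s, NPot I h αd αf W (next (Tree.run p.2.1 T₀, s.E ∪ Tree.qs p.2.1 T₀,
      C (s.E ∪ Tree.qs p.2.1 T₀) p.2)) p ≤ Pot I h αd αf W s p - c p)
    (n5 : ((Pos h s).card : ℝ) / 2 ≤ ∑ p ∈ Pos h s, c p) :
    ∃ T, Step I h αd αf W s m T := by
  have hrun : ∀ q ∈ Pos h s,
      Tree.run q.2.1 ((trk T₀ s.E s.S).bind (fun o => Tree.leaf (next o)))
      = next (Tree.run q.2.1 T₀, s.E ∪ Tree.qs q.2.1 T₀, C (s.E ∪ Tree.qs q.2.1 T₀) q.2) := by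
    intro q hq
    rw [mem_Pos] at hq
    rw [Tree.run_bind, hinv.cyl q.2 hq.2, run_trk]
    rfl
  refine ⟨(trk T₀ s.E s.S).bind (fun o => Tree.leaf (next o)), ?_, ?_, ?_, ?_, ?_⟩
  · have : m = m + 0 := rfl
    rw [this]
    exact (DLe_trk hT₀ _ _).bind (fun _ => Tree.DLe_leaf _ _)
  · intro p hp x hx
    rw [hrun p hp] at hx
    exact n2 p hp x hx
  · intro p hp s' hs'
    have hb := block_of_tree hinv.cyl T₀ next n1 p hp s' hs'
    have hs'' := hs'
    rw [hrun p hp] at hs''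
    obtain ⟨e1, e2⟩ := n1 _ _ hs''
    simp only at e1 e2
    obtain ⟨l1, l2, l3⟩ := n3 p hp s' hs''
    refine ⟨⟨?_, l1, l2, ?_⟩, ?_⟩
    · intro σ hσ
      rw [e2] at hσ ⊢
      rw [e1]
      exact (C_eq_of_mem hσ).symm
    · intro q hq
      rw [hb q] at hq
      obtain ⟨hq1, hq2⟩ := hq
      rw [hrun q hq1] at hq2
      exact (n3 q hq1 s' hq2).2.2
    · rw [e1]
      exact (card_union_le _ _).trans (Nat.add_le_add_left (Tree.card_qs_le _ hT₀) _)
  · intro p hp s' hs'
    exact block_of_tree hinv.cyl T₀ next n1 p hp s' hs'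
  · have h1 : ∑ p ∈ Pos h s, NPot I h αd αf W
        (Tree.run p.2.1 ((trk T₀ s.E s.S).bind (fun o => Tree.leaf (next o)))) p
        ≤ ∑ p ∈ Pos h s, (Pot I h αd αf W s p - c p) := by
      apply sum_le_sum
      intro p hp
      rw [hrun p hp]
      exact n4 p hp
    rw [sum_sub_distrib] at h1
    linarith

open Classical in
/-- The updated state: reset if there was progress. -/
noncomputable def upd (I : Inst D Λ) (s : St srt Λ) (E' : Finset D) (S' : Finset (Om srt))
    (lo hi : ℕ) (x : Λ) : St srt Λ :=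
  if Prog s.E s.H E' S' then rst I E' S' s.H else ⟨E', S', s.H, lo, hi, x⟩

theorem upd_ES (I : Inst D Λ) (s : St srt Λ) (E' : Finset D) (S' : Finset (Om srt))
    (lo hi : ℕ) (x : Λ) : (upd I s E' S' lo hi x).E = E' ∧ (upd I s E' S' lo hi x).S = S' := by
  unfold upd
  split_ifs <;> exact ⟨rfl, rfl⟩

theorem upd_inv {I : Inst D Λ} {s : St srt Λ} {E' : Finset D} {S' : Finset (Om srt)}
    {lo hi : ℕ} {x : Λ} {σ : Om srt} (h1 : lo < hi) (h2 : hi ≤ I.L + 1)
    (h3 : ¬ Prog s.E s.H E' S' → I.lab srt lo σ = x) :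
    (upd I s E' S' lo hi x).lo < (upd I s E' S' lo hi x).hi ∧
    (upd I s E' S' lo hi x).hi ≤ I.L + 1 ∧
    I.lab srt (upd I s E' S' lo hi x).lo σ = (upd I s E' S' lo hi x).x := by
  unfold upd
  split_ifs with hp
  · simp only [rst]
    exact ⟨by omega, le_rfl, rfl⟩
  · exact ⟨h1, h2, h3 hp⟩

open Classical in
theorem pot_upd {I : Inst D Λ} {h : Hid srt R} {αd αf W ℓ : ℝ} (hd : 0 ≤ αd)
    (hW : 0 ≤ W) (hℓ : (Nat.clog 2 (I.L + 1) : ℝ) ≤ ℓ) (s : St srt Λ) (p : R × Om srt)
    {E' : Finset D} (hE : s.E ⊆ E') (lo hi : ℕ) (x : Λ) :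
    Pot I h αd αf W (upd I s E' (C E' p.2) lo hi x) p
      ≤ Pot I h αd αf W s p
        - αd * (if Disjoint E' (h.EG p.1 p.2 \ s.E) then 0 else 1)
        + (if Prog s.E s.H E' (C E' p.2) then ℓ - W - Nat.clog 2 (s.hi - s.lo)
          else W * ((if Unj I E' s.H hi p.2 then 1 else 0)
            - (if Unj I s.E s.H s.hi p.2 then 1 else 0))
            + Nat.clog 2 (hi - lo) - Nat.clog 2 (s.hi - s.lo)) := by
  have hdd : ((h.EG p.1 p.2 \ E').card : ℝ)
      + (if Disjoint E' (h.EG p.1 p.2 \ s.E) then 0 else 1) ≤ (h.EG p.1 p.2 \ s.E).card := by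
    have hsub : h.EG p.1 p.2 \ E' ⊆ h.EG p.1 p.2 \ s.E := sdiff_subset_sdiff (Subset.refl _) hE
    split_ifs with hdis
    · rw [add_zero]
      exact_mod_cast card_le_card hsub
    · rw [not_disjoint_iff] at hdis
      obtain ⟨a, ha1, ha2⟩ := hdis
      have : insert a (h.EG p.1 p.2 \ E') ⊆ h.EG p.1 p.2 \ s.E := by
        intro b hb
        rw [mem_insert] at hb
        rcases hb with rfl | hb
        · exact ha2
        · exact hsub hb
      have h1 := card_le_card this
      rw [card_insert_of_notMem (by rw [mem_sdiff]; tauto)] at h1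
      exact_mod_cast h1
  have hdd' := mul_le_mul_of_nonneg_left hdd hd
  rw [mul_add] at hdd'
  by_cases hp : Prog s.E s.H E' (C E' p.2)
  · have hp' := Prog_iff.mp hp
    have h1 := card_known_progress hE p.2 hp'
    have h2 : ((s.H \ E'.image p.2.1).card : ℝ) + 1 ≤ (s.H \ s.E.image p.2.1).card := by
      exact_mod_cast h1
    have h3 := mul_le_mul_of_nonneg_left h2 hW
    have h4 : (0 : ℝ) ≤ W * (if Unj I s.E s.H s.hi p.2 then 1 else 0) := by
      split_ifs <;> simp [hW]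
    rw [if_pos hp]
    unfold upd
    rw [if_pos hp]
    unfold Pot
    simp only [rst]
    rw [if_neg not_Unj_top, Nat.sub_zero]
    linarith
  · have h1 : ((s.H \ E'.image p.2.1).card : ℝ) ≤ (s.H \ s.E.image p.2.1).card := by
      exact_mod_cast card_le_card (image_known_mono hE p.2)
    have h3 := mul_le_mul_of_nonneg_left h1 hW
    rw [if_neg hp]
    unfold upd
    rw [if_neg hp]
    unfold Pot
    simp only
    linarith

/-- Step: query a point that is likely to be read by the sampler. -/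
theorem step_heavy {I : Inst D Λ} {h : Hid srt R} {αd αf W ℓ θ : ℝ} {s : St srt Λ} {m : ℕ}
    (hinv : Inv I h s) (hd : 0 ≤ αd) (hW : ℓ + 1 ≤ W) (hℓ0 : 0 ≤ ℓ)
    (hℓ : (Nat.clog 2 (I.L + 1) : ℝ) ≤ ℓ) (hαd : W + 1 ≤ αd * θ) (hm : 1 ≤ m) {a : D}
    (ha : a ∉ s.E)
    (hheavy : θ * (Pos h s).card < ((Pos h s).filter (fun p => a ∈ h.EG p.1 p.2)).card) :
    ∃ T, Step I h αd αf W s m T := by
  classical
  set T₀ : Tree D Unit := Tree.query a (fun _ => Tree.leaf ()) with hT₀
  have hqs : ∀ f : D → D, Tree.qs f T₀ = {a} := by intro f; rw [hT₀]; simp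
  refine step_of_tree hinv T₀ (by
      refine Tree.DLe.mono (m := 1) ?_ hm
      intro v; exact Tree.DLe_leaf _ _)
    (fun o => Sum.inr (upd I s o.2.1 o.2.2 s.lo s.hi s.x)) ?_ ?_ ?_
    (fun p => αd * (if a ∈ h.EG p.1 p.2 then 1 else 0)) ?_ ?_
  · intro o s' hs'
    cases hs'
    exact upd_ES _ _ _ _ _ _ _
  · intro p _ x hx; cases hx
  · intro p hp s' hs'
    cases hs'
    exact upd_inv hinv.lohi hinv.hiL (fun _ => hinv.xlo p hp)
  · intro p hp
    simp only [NPot]
    refine (pot_upd hd (by linarith) hℓ s p subset_union_left _ _ _).trans ?_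
    have h1 : αd * (if a ∈ h.EG p.1 p.2 then (1 : ℝ) else 0)
        ≤ αd * (if Disjoint (s.E ∪ Tree.qs p.2.1 T₀) (h.EG p.1 p.2 \ s.E) then 0 else 1) := by
      apply mul_le_mul_of_nonneg_left _ hd
      split_ifs with h1 h2 <;> try norm_num
      rw [hqs] at h2
      exact disjoint_left.mp h2 (mem_union_right _ (mem_singleton_self a))
        (mem_sdiff.mpr ⟨h1, ha⟩)
    have h2 : (if Prog s.E s.H (s.E ∪ Tree.qs p.2.1 T₀) (C (s.E ∪ Tree.qs p.2.1 T₀) p.2)
          then ℓ - W - Nat.clog 2 (s.hi - s.lo)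
          else W * ((if Unj I (s.E ∪ Tree.qs p.2.1 T₀) s.H s.hi p.2 then (1 : ℝ) else 0)
            - (if Unj I s.E s.H s.hi p.2 then 1 else 0))
            + Nat.clog 2 (s.hi - s.lo) - Nat.clog 2 (s.hi - s.lo)) ≤ 0 := by
      have hc : (0 : ℝ) ≤ Nat.clog 2 (s.hi - s.lo) := by positivity
      split_ifs with h1 h2 h3 h3
      · linarith
      · linarith
      · exact absurd (Unj_mono (fun hcon => h1 (Prog_iff.mpr hcon)) h2) h3
      · linarith
      · linarith
    linarith
  · rw [← mul_sum]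
    have h1 : ∑ p ∈ Pos h s, (if a ∈ h.EG p.1 p.2 then (1 : ℝ) else 0)
        = ((Pos h s).filter (fun p => a ∈ h.EG p.1 p.2)).card := by
      rw [card_filter]; push_cast; rfl
    rw [h1]
    have h2 := mul_le_mul_of_nonneg_left hheavy.le hd
    have h3 : (W + 1) * ((Pos h s).card : ℝ) ≤ αd * θ * (Pos h s).card := by gcongr
    have h4 : (0 : ℝ) ≤ (Pos h s).card := by positivity
    nlinarith

/-- Step: flag a value that is likely to be read by the sampler. -/
theorem step_flag {I : Inst D Λ} {h : Hid srt R} {αd αf W θ : ℝ} {s : St srt Λ} {m : ℕ}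
    (hinv : Inv I h s) (hf : 0 ≤ αf) (hW : 0 ≤ W) (hαf : W + 1 ≤ αf * θ) {y : D}
    (hy : y ∉ s.H)
    (hheavy : θ * (Pos h s).card
      < ((Pos h s).filter (fun p => y ∈ (h.EG p.1 p.2 \ s.E).image p.2.1)).card) :
    ∃ T, Step I h αd αf W s m T := by
  classical
  refine step_of_tree hinv (Tree.leaf ()) (Tree.DLe_leaf _ _)
    (fun o => Sum.inr ⟨o.2.1, o.2.2, insert y s.H, s.lo, s.hi, s.x⟩) ?_ ?_ ?_
    (fun p => αf * (if y ∈ (h.EG p.1 p.2 \ s.E).image p.2.1 then 1 else 0) - W) ?_ ?_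
  · intro o s' hs'
    cases hs'
    exact ⟨rfl, rfl⟩
  · intro p _ x hx; cases hx
  · intro p hp s' hs'
    cases hs'
    exact ⟨hinv.lohi, hinv.hiL, hinv.xlo p hp⟩
  · intro p hp
    simp only [NPot, Tree.qs_leaf, union_empty]
    unfold Pot
    simp only
    have h1 : (((h.EG p.1 p.2).image p.2.1 \ insert y s.H).card : ℝ)
        + (if y ∈ (h.EG p.1 p.2 \ s.E).image p.2.1 then 1 else 0)
        ≤ ((h.EG p.1 p.2).image p.2.1 \ s.H).card := by
      have hsub : (h.EG p.1 p.2).image p.2.1 \ insert y s.H ⊆ (h.EG p.1 p.2).image p.2.1 \ s.H :=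
        sdiff_subset_sdiff (Subset.refl _) (subset_insert _ _)
      split_ifs with hyy
      · have : insert y ((h.EG p.1 p.2).image p.2.1 \ insert y s.H)
            ⊆ (h.EG p.1 p.2).image p.2.1 \ s.H := by
          intro b hb
          rw [mem_insert] at hb
          rcases hb with rfl | hb
          · rw [mem_sdiff]
            exact ⟨image_subset_image sdiff_subset hyy, hy⟩
          · exact hsub hb
        have h2 := card_le_card this
        rw [card_insert_of_notMem (by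
          rw [mem_sdiff]
          intro hc
          exact hc.2 (mem_insert_self _ _))] at h2
        exact_mod_cast h2
      · rw [add_zero]
        exact_mod_cast card_le_card hsub
    have h1' := mul_le_mul_of_nonneg_left h1 hf
    rw [mul_add] at h1'
    have h2 : ((insert y s.H \ s.E.image p.2.1).card : ℝ)
        ≤ (s.H \ s.E.image p.2.1).card + 1 := by
      have : insert y s.H \ s.E.image p.2.1 ⊆ insert y (s.H \ s.E.image p.2.1) := by
        intro b hb
        rw [mem_sdiff, mem_insert] at hb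
        rw [mem_insert, mem_sdiff]
        tauto
      exact_mod_cast (card_le_card this).trans (card_insert_le _ _)
    have h2' := mul_le_mul_of_nonneg_left h2 hW
    rw [mul_add] at h2'
    have h3 : W * (if Unj I s.E (insert y s.H) s.hi p.2 then (1 : ℝ) else 0)
        ≤ W * (if Unj I s.E s.H s.hi p.2 then 1 else 0) := by
      apply mul_le_mul_of_nonneg_left _ hW
      split_ifs with h3 h4 <;> try norm_num
      apply h4
      refine ⟨h3.1, ?_⟩
      rintro ⟨c, hc, hcE, hcH⟩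
      exact h3.2 ⟨c, hc, hcE, mem_insert_of_mem hcH⟩
    linarith
  · rw [sum_sub_distrib, ← mul_sum, sum_const, nsmul_eq_mul]
    have h1 : ∑ p ∈ Pos h s, (if y ∈ (h.EG p.1 p.2 \ s.E).image p.2.1 then (1 : ℝ) else 0)
        = ((Pos h s).filter (fun p => y ∈ (h.EG p.1 p.2 \ s.E).image p.2.1)).card := by
      rw [card_filter]; push_cast; rfl
    rw [h1]
    have h2 := mul_le_mul_of_nonneg_left hheavy.le hf
    have h3 : (W + 1) * ((Pos h s).card : ℝ) ≤ αf * θ * (Pos h s).card := by gcongr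
    have h4 : (0 : ℝ) ≤ (Pos h s).card := by positivity
    nlinarith

/-- Step: output the last label. -/
theorem step_output {I : Inst D Λ} {h : Hid srt R} {αd αf W : ℝ} {s : St srt Λ} {m : ℕ}
    (hinv : Inv I h s) (hd : 0 ≤ αd) (hf : 0 ≤ αf) (hW : 0 ≤ W) (hlo : s.lo = I.L) :
    ∃ T, Step I h αd αf W s m T := by
  classical
  refine step_of_tree hinv (Tree.leaf ()) (Tree.DLe_leaf _ _)
    (fun _ => Sum.inl s.x) ?_ ?_ ?_ (fun _ => 1) ?_ ?_
  · intro o s' hs'; cases hs'
  · intro p hp x hx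
    cases hx
    rw [← hinv.xlo p hp, hlo]
  · intro p hp s' hs'; cases hs'
  · intro p hp
    simp only [NPot]
    unfold Pot
    have h1 : (0 : ℝ) ≤ αd * (h.EG p.1 p.2 \ s.E).card := by positivity
    have h2 : (0 : ℝ) ≤ αf * ((h.EG p.1 p.2).image p.2.1 \ s.H).card := by positivity
    have h3 : (0 : ℝ) ≤ W * (s.H \ s.E.image p.2.1).card := by positivity
    have h4 : (0 : ℝ) ≤ W * (if Unj I s.E s.H s.hi p.2 then 1 else 0) := by
      split_ifs <;> simp [hW]
    have h5 : (0 : ℝ) ≤ Nat.clog 2 (s.hi - s.lo) := by positivity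
    linarith
  · rw [sum_const, nsmul_eq_mul]
    have h4 : (0 : ℝ) ≤ (Pos h s).card := by positivity
    linarith

/-- Step: read the verifier at `hi = lo + 1` and reset. -/
theorem step_final {I : Inst D Λ} {h : Hid srt R} {αd αf W ℓ : ℝ} {s : St srt Λ} {m k : ℕ}
    (hinv : Inv I h s) (hd : 0 ≤ αd) (hW : ℓ + 1 ≤ W) (hℓ0 : 0 ≤ ℓ)
    (hℓ : (Nat.clog 2 (I.L + 1) : ℝ) ≤ ℓ) (hI : I.Bdd k) (hm : k + k ≤ m)
    (hhi : s.hi = s.lo + 1) (hL : s.hi ≤ I.L) :
    ∃ T, Step I h αd αf W s m T := by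
  classical
  set T₀ : Tree D Bool := (I.S s.x).bind (fun z => I.V s.hi z) with hT₀
  refine step_of_tree hinv T₀ (by
      refine Tree.DLe.mono (m := k + k) ?_ hm
      exact (hI.1 _).bind (fun z => hI.2 _ z))
    (fun o => Sum.inr (rst I o.2.1 o.2.2 s.H)) ?_ ?_ ?_ (fun _ => 1) ?_ ?_
  · intro o s' hs'
    cases hs'
    exact ⟨rfl, rfl⟩
  · intro p _ x hx; cases hx
  · intro p hp s' hs'
    cases hs'
    refine ⟨?_, le_rfl, rfl⟩
    simp [rst]
  · intro p hp
    simp only [NPot]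
    have hx := hinv.xlo p hp
    have hz : Tree.run p.2.1 (I.S s.x) = I.lab srt s.hi p.2 := by
      rw [← hx, hhi]; rfl
    have hQ : QV (I.V s.hi) (I.lab srt s.hi) p.2 ⊆ Tree.qs p.2.1 T₀ := by
      rw [hT₀, Tree.qs_bind, hz]
      exact subset_union_right
    set E' := s.E ∪ Tree.qs p.2.1 T₀ with hE'
    have hEE : s.E ⊆ E' := subset_union_left
    have h1 : ((h.EG p.1 p.2 \ E').card : ℝ) ≤ (h.EG p.1 p.2 \ s.E).card := by
      exact_mod_cast card_le_card (sdiff_subset_sdiff (Subset.refl _) hEE)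
    have h1' := mul_le_mul_of_nonneg_left h1 hd
    have hW0 : 0 ≤ W := by linarith
    have hcl1 : (0 : ℝ) ≤ Nat.clog 2 (s.hi - s.lo) := by positivity
    have key : W * ((s.H \ E'.image p.2.1).card : ℝ) + W
        ≤ W * (s.H \ s.E.image p.2.1).card + W * (if Unj I s.E s.H s.hi p.2 then 1 else 0) := by
      by_cases hp' : ∃ c ∈ E' \ s.E, p.2.1 c ∈ s.H
      · have h2 : ((s.H \ E'.image p.2.1).card : ℝ) + 1 ≤ (s.H \ s.E.image p.2.1).card := by
          exact_mod_cast card_known_progress hEE p.2 hp'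
        have h3 := mul_le_mul_of_nonneg_left h2 hW0
        have h4 : (0 : ℝ) ≤ W * (if Unj I s.E s.H s.hi p.2 then 1 else 0) := by
          split_ifs <;> simp [hW0]
        linarith
      · have h2 : ((s.H \ E'.image p.2.1).card : ℝ) ≤ (s.H \ s.E.image p.2.1).card := by
          exact_mod_cast card_le_card (image_known_mono hEE p.2)
        have h3 := mul_le_mul_of_nonneg_left h2 hW0
        have h4 : Unj I s.E s.H s.hi p.2 := by
          refine ⟨hL, ?_⟩
          rintro ⟨c, hc, hcE, hcH⟩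
          exact hp' ⟨c, mem_sdiff.mpr ⟨mem_union_right _ (hQ hc), hcE⟩, hcH⟩
        rw [if_pos h4]
        linarith
    unfold Pot
    simp only [rst]
    rw [if_neg not_Unj_top, Nat.sub_zero]
    linarith
  · rw [sum_const, nsmul_eq_mul]
    have h4 : (0 : ℝ) ≤ (Pos h s).card := by positivity
    linarith

theorem clog_half {a b : ℕ} (h2 : 2 ≤ b) (h : 2 * a ≤ b + 1) :
    (Nat.clog 2 a : ℝ) + 1 ≤ Nat.clog 2 b := by
  rw [Nat.clog_of_two_le (by norm_num) h2]
  push_cast
  have h3 : Nat.clog 2 a ≤ Nat.clog 2 ((b + 1) / 2) := Nat.clog_mono_right 2 (by omega)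
  have h4 : (Nat.clog 2 a : ℝ) ≤ Nat.clog 2 ((b + 1) / 2) := by exact_mod_cast h3
  linarith

/-- Step: test the middle index with the help of a sample. -/
theorem step_test {I : Inst D Λ} {h : Hid srt R} {s : St srt Λ} {αf A : ℝ} {m : ℕ}
    {k b n K₁ K₂ K₀ M : ℕ} {θ₁ θ₂ θ N W ℓ : ℝ}
    (hnum : Num srt k b n K₁ K₂ K₀ M θ₁ θ₂ θ N W ℓ) (hI : I.Bdd k)
    (hv : ∀ r π, (r, π) ∈ h.Θ → I.Valid π.1)
    (hb : ∀ r π, (r, π) ∈ h.Θ → (h.EG r π).card ≤ b)
    (hinv : Inv I h s) (hne : (Pos h s).Nonempty) (hE : s.E.card ≤ M)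
    (hnd : ∀ a, a ∉ s.E → (((Pos h s).filter (fun p => a ∈ h.EG p.1 p.2)).card : ℝ)
      ≤ θ * (Pos h s).card)
    (hnr : ∀ y, y ∉ s.H → (((Pos h s).filter
      (fun p => y ∈ (h.EG p.1 p.2 \ s.E).image p.2.1)).card : ℝ) ≤ θ * (Pos h s).card)
    (hAW : W ≤ A) (hℓ : (Nat.clog 2 (I.L + 1) : ℝ) ≤ ℓ)
    (hgap : s.lo + 2 ≤ s.hi) (hm : n + k ≤ m) :
    ∃ T, Step I h A αf W s m T := by
  classical
  have hW : 0 < W := by linarith [hnum.hW1, hnum.hℓ]
  have hhiL := hinv.hiL
  obtain ⟨i, hi⟩ : ∃ i, i = (s.lo + s.hi) / 2 := ⟨_, rfl⟩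
  have hi1 : s.lo < i := by omega
  have hi2 : i < s.hi := by omega
  have hiL : i ≤ I.L := by omega
  have hsum := sum_badT hnum hI hv hb hinv.cyl hE hiL hnd hnr
  -- a good sample
  obtain ⟨q, hq, hqb⟩ : ∃ q ∈ Pos h s,
      (((Pos h s).filter (fun p => BadT I h θ₁ n i s.E s.H p q)).card : ℝ)
        ≤ (1 / (2 * W)) * (Pos h s).card := by
    by_contra hcon
    push Not at hcon
    have h1 : ∑ q ∈ Pos h s, (1 / (2 * W)) * ((Pos h s).card : ℝ)
        < ∑ q ∈ Pos h s,
          (((Pos h s).filter (fun p => BadT I h θ₁ n i s.E s.H p q)).card : ℝ) :=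
      sum_lt_sum_of_nonempty hne hcon
    rw [sum_const, nsmul_eq_mul] at h1
    have h2 : ((Pos h s).card : ℝ) * (1 / (2 * W) * (Pos h s).card)
        = (1 / (2 * W)) * (Pos h s).card * (Pos h s).card := by ring
    rw [h2] at h1
    exact absurd hsum (not_le.mpr h1)
  set T₀ : Tree D (Option Λ) := testT I θ₁ n i (s.E ∪ h.EG q.1 q.2) q.2 with hT₀
  refine step_of_tree hinv T₀ ((DLe_testT hI _ _ _ _ _).mono hm)
    (fun o => Sum.inr (match o.1 with
      | some z => upd I s o.2.1 o.2.2 i s.hi z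
      | none => upd I s o.2.1 o.2.2 s.lo i s.x)) ?_ ?_ ?_
    (fun p => 1 - W * (if BadT I h θ₁ n i s.E s.H p q then 1 else 0)) ?_ ?_
  · rintro ⟨o1, o2, o3⟩ s' hs'
    cases o1 with
    | none =>
      simp only [Sum.inr.injEq] at hs'
      rw [← hs']
      exact upd_ES _ _ _ _ _ _ _
    | some z =>
      simp only [Sum.inr.injEq] at hs'
      rw [← hs']
      exact upd_ES _ _ _ _ _ _ _
  · intro p _ x hx; cases hx
  · intro p hp s' hs'
    simp only [Sum.inr.injEq] at hs'
    cases hrun : Tree.run p.2.1 T₀ with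
    | none =>
      rw [hrun] at hs'
      simp only at hs'
      rw [← hs']
      exact upd_inv hi1 (by omega) (fun _ => hinv.xlo p hp)
    | some z =>
      rw [hrun] at hs'
      simp only at hs'
      rw [← hs']
      refine upd_inv hi2 hinv.hiL (fun _ => ?_)
      exact (testT_some hiL (hv _ _ (mem_Pos.mp hp).1) hrun).symm
  · intro p hp
    simp only [NPot]
    have hℓW := hnum.hW1
    have hcl2 : (1 : ℝ) ≤ Nat.clog 2 (s.hi - s.lo) := by
      have := clog_half (a := 1) (b := s.hi - s.lo) (by omega) (by omega)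
      have h0 : (0 : ℝ) ≤ (Nat.clog 2 1 : ℕ) := by positivity
      linarith
    have hbad0 : (0 : ℝ) ≤ W * (if BadT I h θ₁ n i s.E s.H p q then 1 else 0) := by
      split_ifs <;> simp [hW.le]
    have hA0 : 0 ≤ A := by linarith
    have hdj0 : (0 : ℝ) ≤ A * (if Disjoint (s.E ∪ Tree.qs p.2.1 T₀) (h.EG p.1 p.2 \ s.E)
        then 0 else 1) := by
      split_ifs <;> simp [hA0]
    cases hrun : Tree.run p.2.1 T₀ with
    | some z =>
      simp only
      refine (pot_upd hA0 hW.le hℓ s p subset_union_left _ _ _).trans ?_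
      have h2 : (if Prog s.E s.H (s.E ∪ Tree.qs p.2.1 T₀) (C (s.E ∪ Tree.qs p.2.1 T₀) p.2)
          then ℓ - W - Nat.clog 2 (s.hi - s.lo)
          else W * ((if Unj I (s.E ∪ Tree.qs p.2.1 T₀) s.H s.hi p.2 then (1 : ℝ) else 0)
            - (if Unj I s.E s.H s.hi p.2 then 1 else 0))
            + Nat.clog 2 (s.hi - i) - Nat.clog 2 (s.hi - s.lo)) ≤ -1 := by
        have hc := clog_half (a := s.hi - i) (b := s.hi - s.lo) (by omega) (by omega)
        split_ifs with h1 h2 h3 h3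
        · linarith
        · linarith
        · exact absurd (Unj_mono (fun hcon => h1 (Prog_iff.mpr hcon)) h2) h3
        · linarith
        · linarith
      linarith
    | none =>
      simp only
      refine (pot_upd hA0 hW.le hℓ s p subset_union_left _ _ _).trans ?_
      have h2 : (if Prog s.E s.H (s.E ∪ Tree.qs p.2.1 T₀) (C (s.E ∪ Tree.qs p.2.1 T₀) p.2)
          then ℓ - W - Nat.clog 2 (s.hi - s.lo)
          else W * ((if Unj I (s.E ∪ Tree.qs p.2.1 T₀) s.H i p.2 then (1 : ℝ) else 0)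
            - (if Unj I s.E s.H s.hi p.2 then 1 else 0))
            + Nat.clog 2 (i - s.lo) - Nat.clog 2 (s.hi - s.lo))
          ≤ -1 + W * (if BadT I h θ₁ n i s.E s.H p q then 1 else 0)
            + A * (if Disjoint (s.E ∪ Tree.qs p.2.1 T₀) (h.EG p.1 p.2 \ s.E)
                then 0 else 1) := by
        have hc := clog_half (a := i - s.lo) (b := s.hi - s.lo) (by omega) (by omega)
        by_cases h1 : Prog s.E s.H (s.E ∪ Tree.qs p.2.1 T₀) (C (s.E ∪ Tree.qs p.2.1 T₀) p.2)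
        · rw [if_pos h1]
          linarith
        · rw [if_neg h1]
          have hU0 : (0 : ℝ) ≤ W * (if Unj I s.E s.H s.hi p.2 then 1 else 0) := by
            split_ifs <;> simp [hW.le]
          by_cases h3 : Unj I (s.E ∪ Tree.qs p.2.1 T₀) s.H i p.2
          · rw [if_pos h3]
            by_cases h4 : Disjoint (s.E ∪ Tree.qs p.2.1 T₀) (h.EG p.1 p.2 \ s.E)
            · have h5 : BadT I h θ₁ n i s.E s.H p q := by
                refine ⟨hrun, h4.mono_left subset_union_right, ?_, h3⟩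
                intro c hc hcH
                apply h1
                rw [Prog_iff]
                refine ⟨c, ?_, hcH⟩
                rw [union_sdiff_left]
                exact hc
              rw [if_pos h5, if_pos h4]
              linarith
            · rw [if_neg h4]
              linarith
          · rw [if_neg h3]
            linarith
      linarith
  · rw [sum_sub_distrib, ← mul_sum, sum_const, nsmul_eq_mul]
    have h1 : ∑ p ∈ Pos h s, (if BadT I h θ₁ n i s.E s.H p q then (1 : ℝ) else 0)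
        = ((Pos h s).filter (fun p => BadT I h θ₁ n i s.E s.H p q)).card := by
      rw [card_filter]; push_cast; rfl
    rw [h1]
    have h2 := mul_le_mul_of_nonneg_left hqb hW.le
    have h3 : W * (1 / (2 * W) * ((Pos h s).card : ℝ)) = (Pos h s).card / 2 := by
      field_simp
    rw [h3] at h2
    linarith

end Pool.Agent.H82.SVL
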