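import Mathlib
import Pool.Agent.H82.SVL.StepsAll

set_option autoImplicit false
set_option linter.unusedSectionVars false

namespace Pool.Agent.H82.SVL

open Finset

variable {D : Type} [Fintype D] [DecidableEq D] {srt : D → ℕ}
variable {Λ : Type} [Fintype Λ] [DecidableEq Λ] {R : Type}

/-- A good step is available from every state. -/
theorem exists_step {I : Inst D Λ} {h : Hid srt R} {A : ℝ} {m : ℕ}
    {k b n K₁ K₂ K₀ M : ℕ} {θ₁ θ₂ θ N W ℓ : ℝ}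
    (hnum : Num srt k b n K₁ K₂ K₀ M θ₁ θ₂ θ N W ℓ) (hI : I.Bdd k)
    (hv : ∀ r π, (r, π) ∈ h.Θ → I.Valid π.1)
    (hb : ∀ r π, (r, π) ∈ h.Θ → (h.EG r π).card ≤ b)
    (hA : W + 1 ≤ A * θ) (hAW : W ≤ A) (hℓ : (Nat.clog 2 (I.L + 1) : ℝ) ≤ ℓ)
    (hm : n + k + k + 1 ≤ m)
    (s : St srt Λ) (hinv : Inv I h s) (hne : (Pos h s).Nonempty) (hE : s.E.card ≤ M) :
    ∃ T, Step I h A A W s m T := by
  classical
  have hW1 := hnum.hW1
  have hℓ0 := hnum.hℓ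
  have hW0 : 0 ≤ W := by linarith
  have hA0 : 0 ≤ A := by linarith
  by_cases hnd : ∀ a, a ∉ s.E → (((Pos h s).filter (fun p => a ∈ h.EG p.1 p.2)).card : ℝ)
      ≤ θ * (Pos h s).card
  swap
  · push Not at hnd
    obtain ⟨a, ha, hh⟩ := hnd
    exact step_heavy hinv hA0 hW1 hℓ0 hℓ hA (by omega) ha hh
  by_cases hnr : ∀ y, y ∉ s.H → (((Pos h s).filter
      (fun p => y ∈ (h.EG p.1 p.2 \ s.E).image p.2.1)).card : ℝ) ≤ θ * (Pos h s).card
  swap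
  · push Not at hnr
    obtain ⟨y, hy, hh⟩ := hnr
    exact step_flag hinv hA0 hW0 hA hy hh
  by_cases hgap : s.lo + 2 ≤ s.hi
  · exact step_test hnum hI hv hb hinv hne hE hnd hnr hAW hℓ hgap (by omega)
  have hlohi := hinv.lohi
  have hhiL := hinv.hiL
  have hhi : s.hi = s.lo + 1 := by omega
  by_cases hL : s.hi ≤ I.L
  · exact step_final hinv hA0 hW1 hℓ0 hℓ hI (by omega) hhi hL
  · exact step_output hinv hA0 hA0 hW0 (by omega)

/-- The solver for planted instances. -/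
theorem planted {I : Inst D Λ} {h : Hid srt R} {A : ℝ}
    {k b n K₁ K₂ K₀ M : ℕ} {θ₁ θ₂ θ N W ℓ : ℝ}
    (hnum : Num srt k b n K₁ K₂ K₀ M θ₁ θ₂ θ N W ℓ) (hI : I.Bdd k)
    (hv : ∀ r π, (r, π) ∈ h.Θ → I.Valid π.1)
    (hb : ∀ r π, (r, π) ∈ h.Θ → (h.EG r π).card ≤ b)
    (hA : W + 1 ≤ A * θ) (hAW : W ≤ A) (hℓ : (Nat.clog 2 (I.L + 1) : ℝ) ≤ ℓ)
    (F : ℕ) (hM : F * (n + k + k + 1) ≤ M) :
    open Classical in
    ∃ T : Tree D Λ, Tree.DLe T (F * (n + k + k + 1)) ∧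
      (F : ℝ) * (h.Θ.filter (fun p => Tree.run p.2.1 T ≠ I.lab srt I.L p.2)).card
        ≤ 2 * (2 * A * b + ℓ + 1) * h.Θ.card := by
  classical
  have hW1 := hnum.hW1
  have hℓ0 := hnum.hℓ
  have hW0 : 0 ≤ W := by linarith
  have hA0 : 0 ≤ A := by linarith
  set s₀ : St srt Λ := ⟨∅, univ, ∅, 0, I.L + 1, I.x0⟩ with hs₀
  have hPos : Pos h s₀ = h.Θ := by
    ext p
    rw [mem_Pos]
    simp [hs₀]
  have hinv : Inv I h s₀ := by
    refine ⟨?_, ?_, ?_, ?_⟩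
    · intro σ _
      ext τ
      simp [hs₀, mem_C]
    · simp [hs₀]
    · simp [hs₀]
    · intro p _; rfl
  obtain ⟨T, hT1, hT2⟩ := drift I h hA0 hA0 hW0 (m := n + k + k + 1) (M := M)
    (fun s hs hne hE => exists_step hnum hI hv hb hA hAW hℓ le_rfl s hs hne hE) F s₀ hinv
    (by simpa [hs₀] using hM)
  refine ⟨T, hT1, ?_⟩
  rw [hPos] at hT2
  refine le_trans hT2 ?_
  have hpot : ∀ p ∈ h.Θ, Pot I h A A W s₀ p ≤ 2 * A * b + ℓ + 1 := by
    rintro ⟨r, π⟩ hp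
    unfold Pot
    simp only [hs₀]
    rw [if_neg not_Unj_top]
    have h1 : ((h.EG r π).card : ℝ) ≤ b := by exact_mod_cast hb r π hp
    have h2 : (((h.EG r π).image π.1).card : ℝ) ≤ b := by
      exact_mod_cast card_image_le.trans (hb r π hp)
    have h1' := mul_le_mul_of_nonneg_left h1 hA0
    have h2' := mul_le_mul_of_nonneg_left h2 hA0
    simp only [sdiff_empty, image_empty, card_empty, Nat.cast_zero, mul_zero, Nat.sub_zero]
    linarith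
  have hsum := sum_le_sum hpot
  rw [sum_const, nsmul_eq_mul] at hsum
  linarith

/-! ### Numerical choices -/

/-- Number of samples of heavy points in a test. -/
def cn (k ℓ : ℕ) : ℕ := 256 * (ℓ + 1) * k * (k + 1) + 1
/-- Truncation of the first heavy set. -/
def cK1 (k : ℕ) : ℕ := 160 * k * (k + 1) + 1
/-- Truncation of the second heavy set. -/
def cK2 (k : ℕ) : ℕ := 40 * k * (k + 1) * (cK1 k + 1) + 1
/-- Weight in the potential. -/
def cA (k ℓ : ℕ) : ℕ := 8 * (ℓ + 1) * (ℓ + 2) * (k + 1)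
/-- Number of rounds. -/
def cF (k b ℓ t : ℕ) : ℕ := 2 * t * (2 * cA k ℓ * b + ℓ + 1)
/-- Total number of queries. -/
def cM (k b ℓ t : ℕ) : ℕ := cF k b ℓ t * (cn k ℓ + k + k + 1)
/-- Size bound of nodes. -/
def cK0 (k b ℓ t : ℕ) : ℕ := (k + 1) * cK1 k + cM k b ℓ t + cn k ℓ
/-- Number of free points. -/
def cN (k b ℓ : ℕ) : ℕ :=
  8 * (ℓ + 1) * (cn k ℓ * b) + 4 * (k + 1) * cK1 k * k + 16 * (cK2 k + k + k) ^ 2
    + 2 * (cn k ℓ * (b + cn k ℓ)) + 1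
/-- Size of fibers. -/
def cN0 (k b ℓ t : ℕ) : ℕ := cN k b ℓ + (b + cK0 k b ℓ t)

theorem num_choice (k b ℓ t : ℕ) (hfib : ∀ a : D, cN0 k b ℓ t ≤ (fib srt a).card) :
    Num srt k b (cn k ℓ) (cK1 k) (cK2 k) (cK0 k b ℓ t) (cM k b ℓ t)
      (1 / (16 * (k + 1))) (1 / (4 * (k + 1) * (cK1 k + 1))) (1 / (8 * (ℓ + 1) * (k + 1)))
      (cN k b ℓ) (ℓ + 1) ℓ := by
  have hk : (0 : ℝ) ≤ k := by positivity
  have hb : (0 : ℝ) ≤ b := by positivity
  have hℓ : (0 : ℝ) ≤ ℓ := by positivity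
  have hK1 : ((cK1 k : ℕ) : ℝ) = 160 * k * (k + 1) + 1 := by unfold cK1; push_cast; ring
  have hK2 : ((cK2 k : ℕ) : ℝ) = 40 * k * (k + 1) * (cK1 k + 1) + 1 := by
    unfold cK2; push_cast; ring
  have hn : ((cn k ℓ : ℕ) : ℝ) = 256 * (ℓ + 1) * k * (k + 1) + 1 := by unfold cn; push_cast; ring
  have hN : ((cN k b ℓ : ℕ) : ℝ) = 8 * (ℓ + 1) * (cn k ℓ * b) + 4 * (k + 1) * cK1 k * k
      + 16 * (cK2 k + k + k) ^ 2 + 2 * (cn k ℓ * (b + cn k ℓ)) + 1 := by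
    unfold cN; push_cast; ring
  have hK1p : (0 : ℝ) ≤ cK1 k := by positivity
  have hK2p : (0 : ℝ) ≤ cK2 k := by positivity
  have hnp : (0 : ℝ) ≤ cn k ℓ := by positivity
  have t1 : (0 : ℝ) ≤ 8 * (ℓ + 1) * (cn k ℓ * b) := by positivity
  have t2 : (0 : ℝ) ≤ 4 * (k + 1) * cK1 k * k := by positivity
  have t3 : (0 : ℝ) ≤ 16 * ((cK2 k : ℝ) + k + k) ^ 2 := by positivity
  have t4 : (0 : ℝ) ≤ 2 * (cn k ℓ * (b + cn k ℓ)) := by positivity
  have hNpos : (0 : ℝ) < cN k b ℓ := by rw [hN]; linarith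
  refine ⟨⟨?_, ?_, ?_, ?_, ?_, ?_, ?_, ?_, ?_, ?_, ?_, ?_⟩, ?_, ?_, ?_, ?_, ?_, ?_, ?_, ?_, ?_⟩
  · positivity
  · apply le_of_eq; field_simp
  · unfold cK1; omega
  · rw [one_div, inv_mul_eq_div, le_div_iff₀ (by positivity), hK1]
    nlinarith
  · unfold cK0; omega
  · positivity
  · unfold cK2; omega
  · rw [one_div, inv_mul_eq_div, le_div_iff₀ (by positivity), hK2]
    nlinarith
  · exact hNpos
  · have h1 : ((k : ℝ) + 1) * (2 * ((cK1 k : ℝ) * k / cN k b ℓ)) ≤ 1 / 2 := by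
      have : ((k : ℝ) + 1) * (2 * ((cK1 k : ℝ) * k / cN k b ℓ))
          = (2 * (k + 1) * cK1 k * k) / cN k b ℓ := by ring
      rw [this, div_le_iff₀ hNpos, hN]
      nlinarith
    have h2 : ((k : ℝ) + 1) * (1 / (4 * (k + 1) * (cK1 k + 1))
        + cK1 k * (1 / (4 * (k + 1) * (cK1 k + 1)))) = 1 / 4 := by
      field_simp
      ring
    nlinarith
  · intro a
    have h1 := hfib a
    unfold cN0 at h1
    exact_mod_cast h1
  · push_cast
    rw [hN]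
    linarith
  · positivity
  · linarith
  · exact hℓ
  · unfold cn; omega
  · unfold cK0; omega
  · rw [hN]; linarith
  · rw [one_div, inv_mul_eq_div, le_div_iff₀ (by positivity), hn]
    nlinarith
  · have : 8 * ((ℓ : ℝ) + 1) * (k * (1 / (8 * (ℓ + 1) * (k + 1)))) = k / (k + 1) := by
      field_simp
    rw [this, div_le_one (by positivity)]
    linarith
  · push_cast
    rw [hN]; linarith

/-- The solver with natural number parameters. -/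
theorem planted_nat {I : Inst D Λ} {h : Hid srt R} (k b ℓ t : ℕ)
    (hfib : ∀ a : D, cN0 k b ℓ t ≤ (fib srt a).card) (hI : I.Bdd k)
    (hv : ∀ r π, (r, π) ∈ h.Θ → I.Valid π.1)
    (hb : ∀ r π, (r, π) ∈ h.Θ → (h.EG r π).card ≤ b)
    (hℓ : Nat.clog 2 (I.L + 1) ≤ ℓ) :
    open Classical in
    ∃ T : Tree D Λ, Tree.DLe T (cM k b ℓ t) ∧
      t * (h.Θ.filter (fun p => Tree.run p.2.1 T ≠ I.lab srt I.L p.2)).card
        ≤ h.Θ.card := by
  classical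
  have hk : (0 : ℝ) ≤ k := by positivity
  have hb0 : (0 : ℝ) ≤ b := by positivity
  have hℓ0 : (0 : ℝ) ≤ ℓ := by positivity
  have hAc : ((cA k ℓ : ℕ) : ℝ) = 8 * (ℓ + 1) * (ℓ + 2) * (k + 1) := by
    unfold cA; push_cast; ring
  obtain ⟨T, hT1, hT2⟩ := planted (A := cA k ℓ) (num_choice k b ℓ t hfib) hI hv hb
    (by
      rw [hAc, mul_one_div, le_div_iff₀ (by positivity)]
      nlinarith)
    (by
      rw [hAc]
      have h1 : (0 : ℝ) ≤ ((ℓ : ℝ) + 1) * k := by positivity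
      have h2 : (0 : ℝ) ≤ ((ℓ : ℝ) + 1) * ℓ * (k + 1) := by positivity
      nlinarith)
    (by exact_mod_cast hℓ) (cF k b ℓ t) le_rfl
  refine ⟨T, hT1, ?_⟩
  have hF : ((cF k b ℓ t : ℕ) : ℝ) = 2 * (2 * cA k ℓ * b + ℓ + 1) * t := by
    unfold cF; push_cast; ring
  rw [hF] at hT2
  have hpos : (0 : ℝ) < 2 * (2 * cA k ℓ * b + ℓ + 1) := by positivity
  rw [mul_assoc] at hT2
  exact_mod_cast le_of_mul_le_mul_left hT2 hpos

end Pool.Agent.H82.SVL
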