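import Mathlib
import Pool.Agent.H82.SVL.Model
import Pool.Agent.H82.SVL.Planted

set_option autoImplicit false
set_option linter.unusedSectionVars false

namespace Pool.Agent.H82.SVL

open Finset

/-- Oracle of a permutation family. -/
def orc (π : Fam) : ∀ m, Str m → Str m := fun m => π m

namespace Comp

variable {X : ℕ → Type} {α β : Type}

/-- Sequential composition. -/
def bind : Comp X α → (α → Comp X β) → Comp X β
  | ret a, g => g a
  | ask m x k, g => ask m x (fun v => bind (k v) g)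

theorem run_bind (O : ∀ m, X m → Str m) (T : Comp X α) (g : α → Comp X β) :
    (bind T g).run O = (g (T.run O)).run O := by
  induction T with
  | ret a => rfl
  | ask m x k ih => exact ih _

theorem Within_ret (ℓ : ℕ) (a : α) (q : ℕ) : (ret a : Comp X α).Within ℓ q := by
  simp [Within]

theorem Within.mono {ℓ ℓ' : ℕ} {T : Comp X α} {q q' : ℕ} (h : T.Within ℓ q) (hℓ : ℓ ≤ ℓ')
    (hq : q ≤ q') : T.Within ℓ' q' := by
  induction T generalizing q q' with
  | ret a => simp [Within]
  | ask m x k ih =>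
    cases q with
    | zero => exact absurd h (by simp [Within])
    | succ q =>
      cases q' with
      | zero => omega
      | succ q' => exact ⟨h.1.trans hℓ, fun v => ih v (h.2 v) (by omega)⟩

theorem Within.bind {ℓ : ℕ} {T : Comp X α} {g : α → Comp X β} {q q' : ℕ}
    (h : T.Within ℓ q) (hg : ∀ a, (g a).Within ℓ q') : (T.bind g).Within ℓ (q + q') := by
  induction T generalizing q with
  | ret a => exact (hg a).mono le_rfl (by omega)
  | ask m x k ih =>
    cases q with
    | zero => exact absurd h (by simp [Within])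
    | succ q =>
      have : q + 1 + q' = (q + q') + 1 := by omega
      rw [this]
      exact ⟨h.1, fun v => ih v (h.2 v)⟩

theorem run_congr {O O' : ∀ m, X m → Str m} {ℓ : ℕ} (hO : ∀ m, m ≤ ℓ → ∀ x, O m x = O' m x)
    {T : Comp X α} {q : ℕ} (h : T.Within ℓ q) : T.run O = T.run O' := by
  induction T generalizing q with
  | ret a => rfl
  | ask m x k ih =>
    cases q with
    | zero => exact absurd h (by simp [Within])
    | succ q =>
      simp only [run]
      rw [hO m h.1 x]
      exact ih _ (h.2 _)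

end Comp

/-! ### Points of given lengths -/

/-- Points of the lengths in `Z`. -/
abbrev DZ (Z : Finset ℕ) : Type := Σ m : Z, Str m.1

/-- Length of a point. -/
def len (Z : Finset ℕ) (d : DZ Z) : ℕ := d.1.1

/-- Transport of strings. -/
def castS {a b : ℕ} (h : a = b) (x : Str a) : Str b := fun i => x (Fin.cast h.symm i)

@[simp] theorem castS_rfl {a : ℕ} (h : a = a) (x : Str a) : castS h x = x := rfl

theorem mk_castS {Z : Finset ℕ} (m : Z) (d : DZ Z) (h : d.1.1 = m.1) :
    (⟨m, castS h d.2⟩ : DZ Z) = d := by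
  obtain ⟨⟨a, ha⟩, x⟩ := d
  obtain ⟨b, hb⟩ := m
  simp only at h
  subst h
  rfl

theorem mk_injS {Z : Finset ℕ} (m : Z) {x y : Str m.1} (h : (⟨m, x⟩ : DZ Z) = ⟨m, y⟩) :
    x = y := by
  cases h; rfl

theorem len_symm {Z : Finset ℕ} (τ : Om (len Z)) (d : DZ Z) : len Z (τ.1.symm d) = len Z d := by
  have := τ.2 (τ.1.symm d)
  rw [Equiv.apply_symm_apply] at this
  exact this.symm

/-- Component function. -/
def compF {Z : Finset ℕ} (τ : Om (len Z)) (m : Z) (x : Str m.1) : Str m.1 :=
  castS (show (τ.1 ⟨m, x⟩).1.1 = m.1 from τ.2 ⟨m, x⟩) (τ.1 ⟨m, x⟩).2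

/-- Inverse component function. -/
def compG {Z : Finset ℕ} (τ : Om (len Z)) (m : Z) (x : Str m.1) : Str m.1 :=
  castS (show (τ.1.symm ⟨m, x⟩).1.1 = m.1 from len_symm τ ⟨m, x⟩) (τ.1.symm ⟨m, x⟩).2

theorem mk_compF {Z : Finset ℕ} (τ : Om (len Z)) (m : Z) (x : Str m.1) :
    (⟨m, compF τ m x⟩ : DZ Z) = τ.1 ⟨m, x⟩ := mk_castS m _ _

theorem mk_compG {Z : Finset ℕ} (τ : Om (len Z)) (m : Z) (x : Str m.1) :
    (⟨m, compG τ m x⟩ : DZ Z) = τ.1.symm ⟨m, x⟩ := mk_castS m _ _

/-- Component of a length-preserving permutation. -/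
def comp {Z : Finset ℕ} (τ : Om (len Z)) (m : Z) : Equiv.Perm (Str m.1) where
  toFun := compF τ m
  invFun := compG τ m
  left_inv x := by
    apply mk_injS m
    rw [mk_compG, mk_compF, Equiv.symm_apply_apply]
  right_inv y := by
    apply mk_injS m
    rw [mk_compF, mk_compG, Equiv.apply_symm_apply]

theorem mk_comp {Z : Finset ℕ} (τ : Om (len Z)) (m : Z) (x : Str m.1) :
    (⟨m, comp τ m x⟩ : DZ Z) = τ.1 ⟨m, x⟩ := mk_compF τ m x

/-- Replace the permutations of the lengths in `Z`. -/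
def emb (Z : Finset ℕ) (ρ : Fam) (τ : Om (len Z)) : Fam := fun m =>
  if h : m ∈ Z then comp τ ⟨m, h⟩ else ρ m

/-- Restriction of a family to the lengths in `Z`. -/
def res (Z : Finset ℕ) (π : Fam) : Om (len Z) :=
  ⟨⟨fun d => ⟨d.1, π d.1.1 d.2⟩, fun d => ⟨d.1, (π d.1.1).symm d.2⟩,
    fun d => by simp, fun d => by simp⟩, fun _ => rfl⟩

theorem emb_mem {Z : Finset ℕ} {ρ : Fam} {τ : Om (len Z)} {m : ℕ} (h : m ∈ Z) :
    emb Z ρ τ m = comp τ ⟨m, h⟩ := by simp [emb, h]

theorem emb_not_mem {Z : Finset ℕ} {ρ : Fam} {τ : Om (len Z)} {m : ℕ} (h : m ∉ Z) :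
    emb Z ρ τ m = ρ m := by simp [emb, h]

theorem comp_res {Z : Finset ℕ} (π : Fam) (m : Z) : comp (res Z π) m = π m.1 := by
  ext1 x
  apply mk_injS m
  rw [mk_comp]
  rfl

theorem emb_res {Z : Finset ℕ} {ρ π : Fam} {m : ℕ} (h : m ∈ Z) :
    emb Z ρ (res Z π) m = π m := by
  rw [emb_mem h, comp_res]

theorem res_emb {Z : Finset ℕ} (ρ : Fam) (τ : Om (len Z)) : res Z (emb Z ρ τ) = τ := by
  apply Subtype.ext
  ext1 d
  obtain ⟨m, x⟩ := d
  show (⟨m, emb Z ρ τ m.1 x⟩ : DZ Z) = τ.1 ⟨m, x⟩
  rw [emb_mem m.2]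
  exact mk_comp τ m x

/-- Hard-wiring of the lengths outside `Z`. -/
def conv {α : Type} (Z : Finset ℕ) (ρ : Fam) : Comp Str α → Tree (DZ Z) α
  | Comp.ret a => Tree.leaf a
  | Comp.ask m x k =>
    if h : m ∈ Z then
      Tree.query ⟨⟨m, h⟩, x⟩ (fun v => conv Z ρ (k (if e : v.1.1 = m then castS e v.2 else x)))
    else conv Z ρ (k (ρ m x))

theorem run_conv {α : Type} {Z : Finset ℕ} {ρ : Fam} (τ : Om (len Z)) (T : Comp Str α) :
    Tree.run τ.1 (conv Z ρ T) = T.run (orc (emb Z ρ τ)) := by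
  induction T with
  | ret a => rfl
  | ask m x k ih =>
    by_cases h : m ∈ Z
    · simp only [conv, dif_pos h, Tree.run_query, Comp.run]
      have e : (τ.1 ⟨⟨m, h⟩, x⟩).1.1 = m := τ.2 ⟨⟨m, h⟩, x⟩
      rw [dif_pos e, ih]
      have : castS e (τ.1 ⟨⟨m, h⟩, x⟩).2 = orc (emb Z ρ τ) m x := by
        simp only [orc]
        rw [emb_mem h]
        rfl
      rw [this]
    · simp only [conv, dif_neg h, Comp.run]
      rw [ih]
      have : ρ m x = orc (emb Z ρ τ) m x := by
        simp only [orc]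
        rw [emb_not_mem h]
      rw [this]

theorem DLe_conv {α : Type} {Z : Finset ℕ} {ρ : Fam} {ℓ : ℕ} {T : Comp Str α} {q : ℕ}
    (h : T.Within ℓ q) : Tree.DLe (conv Z ρ T) q := by
  induction T generalizing q with
  | ret a => simp only [conv]; exact Tree.DLe_leaf _ _
  | ask m x k ih =>
    cases q with
    | zero => exact absurd h (by simp [Comp.Within])
    | succ q =>
      by_cases hm : m ∈ Z
      · simp only [conv, dif_pos hm]
        intro v
        exact ih _ (h.2 _)
      · simp only [conv, dif_neg hm]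
        exact (ih _ (h.2 _)).mono (by omega)

/-- Trees as query computations. -/
def unconv {α : Type} {Z : Finset ℕ} : Tree (DZ Z) α → Comp Str α
  | Tree.leaf a => Comp.ret a
  | Tree.query d k => Comp.ask d.1.1 d.2 (fun v => unconv (k ⟨d.1, v⟩))

theorem run_unconv {α : Type} {Z : Finset ℕ} (π : Fam) (T : Tree (DZ Z) α) :
    (unconv T).run (orc π) = Tree.run (res Z π).1 T := by
  induction T with
  | leaf a => rfl
  | query d k ih =>
    simp only [unconv, Comp.run, Tree.run_query]
    rw [ih]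
    rfl

theorem Within_unconv {α : Type} {Z : Finset ℕ} {ℓ : ℕ} (hZ : ∀ m ∈ Z, m ≤ ℓ)
    {T : Tree (DZ Z) α} {q : ℕ} (h : Tree.DLe T q) : (unconv T).Within ℓ q := by
  induction T generalizing q with
  | leaf a => exact Comp.Within_ret _ _ _
  | query d k ih =>
    cases q with
    | zero => exact absurd h (by simp [Tree.DLe])
    | succ q => exact ⟨hZ _ d.1.2, fun v => ih _ (h _)⟩

/-! ### Reading all short strings -/

/-- Read the values at a list of points. -/
def readL {α : Type} : List (Σ m, Str m) → ((∀ p : (Σ m, Str m), Str p.1) → Comp Str α) →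
    Comp Str α
  | [], f => f (fun p => p.2)
  | p :: l, f => Comp.ask p.1 p.2 (fun v => readL l (fun g => f (Function.update g p v)))

/-- The table of values. -/
def tab (π : Fam) : List (Σ m, Str m) → ∀ p : (Σ m, Str m), Str p.1
  | [] => fun p => p.2
  | p :: l => Function.update (tab π l) p (π p.1 p.2)

theorem run_readL {α : Type} (π : Fam) (l : List (Σ m, Str m))
    (f : (∀ p : (Σ m, Str m), Str p.1) → Comp Str α) :
    (readL l f).run (orc π) = (f (tab π l)).run (orc π) := by
  induction l generalizing f with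
  | nil => rfl
  | cons p l ih =>
    simp only [readL, Comp.run, tab]
    rw [ih]
    rfl

theorem tab_mem (π : Fam) {l : List (Σ m, Str m)} {p : Σ m, Str m} (hp : p ∈ l) :
    tab π l p = π p.1 p.2 := by
  induction l with
  | nil => simp at hp
  | cons q l ih =>
    by_cases h : p = q
    · subst h
      simp [tab]
    · simp only [tab]
      rw [Function.update_of_ne h]
      exact ih (by simpa [h] using hp)

theorem tab_congr {π π' : Fam} {l : List (Σ m, Str m)} (h : ∀ p ∈ l, π p.1 = π' p.1) :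
    tab π l = tab π' l := by
  induction l with
  | nil => rfl
  | cons q l ih =>
    simp only [tab]
    rw [ih (fun p hp => h p (List.mem_cons_of_mem _ hp)), h q List.mem_cons_self]

theorem Within_readL {α : Type} {ℓ q : ℕ} {l : List (Σ m, Str m)}
    {f : (∀ p : (Σ m, Str m), Str p.1) → Comp Str α}
    (hl : ∀ p ∈ l, p.1 ≤ ℓ) (hf : ∀ g, (f g).Within ℓ q) :
    (readL l f).Within ℓ (l.length + q) := by
  induction l generalizing f with
  | nil =>
    simp only [readL]
    exact (hf _).mono le_rfl (by simp)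
  | cons p l ih =>
    have : (p :: l).length + q = (l.length + q) + 1 := by simp; omega
    rw [this]
    exact ⟨hl p List.mem_cons_self, fun v =>
      ih (fun p' hp' => hl p' (List.mem_cons_of_mem _ hp')) (fun g => hf _)⟩

/-- All strings shorter than `m₀`. -/
noncomputable def pts (m₀ : ℕ) : List (Σ m, Str m) :=
  ((range m₀).sigma (fun m => (univ : Finset (Str m)))).toList

theorem mem_pts {m₀ : ℕ} {p : Σ m, Str m} : p ∈ pts m₀ ↔ p.1 < m₀ := by
  simp [pts]

theorem length_pts (m₀ : ℕ) : (pts m₀).length ≤ 2 ^ m₀ := by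
  rw [pts, length_toList, card_sigma]
  simp only [card_univ, Fintype.card_fun, Fintype.card_bool, Fintype.card_fin]
  induction m₀ with
  | zero => simp
  | succ m ih => rw [sum_range_succ, pow_succ]; omega

/-! ### Averaging -/

theorem emb_congr_left {Z : Finset ℕ} {ρ ρ' : Fam} {τ : Om (len Z)} {m : ℕ}
    (h : m ∉ Z → ρ m = ρ' m) : emb Z ρ τ m = emb Z ρ' τ m := by
  by_cases hm : m ∈ Z
  · rw [emb_mem hm, emb_mem hm]
  · rw [emb_not_mem hm, emb_not_mem hm, h hm]

/-- Averaging over part of the lengths. -/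
theorem sum_emb (Z Zall : Finset ℕ) (hZ : Z ⊆ Zall) (g : Fam → ℝ) :
    ∑ ρ : Om (len Zall), ∑ τ : Om (len Z), g (emb Z (emb Zall 1 ρ) τ)
      = (Fintype.card (Om (len Z)) : ℝ) * ∑ ρ : Om (len Zall), g (emb Zall 1 ρ) := by
  classical
  let F : Om (len Zall) × Om (len Z) → Om (len Zall) × Om (len Z) := fun p =>
    (res Zall (emb Z (emb Zall 1 p.1) p.2), res Z (emb Zall 1 p.1))
  have key : ∀ (ρ : Om (len Zall)) (τ : Om (len Z)),
      emb Zall 1 (res Zall (emb Z (emb Zall 1 ρ) τ)) = emb Z (emb Zall 1 ρ) τ := by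
    intro ρ τ
    funext m
    by_cases hm : m ∈ Zall
    · rw [emb_res hm]
    · rw [emb_not_mem hm, emb_not_mem (fun h => hm (hZ h)), emb_not_mem hm]
  have key2 : ∀ (ρ : Om (len Zall)) (τ : Om (len Z)),
      emb Z (emb Z (emb Zall 1 ρ) τ) (res Z (emb Zall 1 ρ)) = emb Zall 1 ρ := by
    intro ρ τ
    funext m
    by_cases hm : m ∈ Z
    · rw [emb_res hm]
    · rw [emb_not_mem hm, emb_not_mem hm]
  have hF : Function.Involutive F := by
    rintro ⟨ρ, τ⟩
    simp only [F]
    rw [key, key2, res_emb, res_emb]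
  have h1 : ∑ p : Om (len Zall) × Om (len Z), g (emb Z (emb Zall 1 p.1) p.2)
      = ∑ p : Om (len Zall) × Om (len Z), g (emb Zall 1 p.1) := by
    rw [← Equiv.sum_comp (hF.toPerm F) (fun p => g (emb Zall 1 p.1))]
    apply sum_congr rfl
    rintro ⟨ρ, τ⟩ _
    simp only [Function.Involutive.coe_toPerm, F]
    rw [key]
  rw [Fintype.sum_prod_type, Fintype.sum_prod_type] at h1
  rw [h1, mul_sum]
  apply sum_congr rfl
  intro ρ _
  show ∑ _y : Om (len Z), g (emb Zall 1 ρ) = _
  rw [sum_const, nsmul_eq_mul, card_univ]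

open Classical in
/-- An event that has small probability when the lengths in some finite set are random. -/
def Rare (B : Fam → Prop) (ε : ℝ) : Prop :=
  ∃ Z : Finset ℕ, ∀ ρ : Fam,
    ((univ.filter (fun τ : Om (len Z) => B (emb Z ρ τ))).card : ℝ)
      ≤ ε * Fintype.card (Om (len Z))

theorem card_Om_pos (Z : Finset ℕ) : (0 : ℝ) < Fintype.card (Om (len Z)) := by
  have : Nonempty (Om (len Z)) := ⟨res Z 1⟩
  exact_mod_cast Fintype.card_pos

theorem rare_all {B : Fam → Prop} {ε : ℝ} {Z Zall : Finset ℕ} (hZ : Z ⊆ Zall)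
    (h : open Classical in ∀ ρ : Fam,
      ((univ.filter (fun τ : Om (len Z) => B (emb Z ρ τ))).card : ℝ)
        ≤ ε * Fintype.card (Om (len Z))) :
    open Classical in
    ((univ.filter (fun ρ : Om (len Zall) => B (emb Zall 1 ρ))).card : ℝ)
      ≤ ε * Fintype.card (Om (len Zall)) := by
  classical
  have h1 := sum_emb Z Zall hZ (fun π => if B π then 1 else 0)
  have h2 : ∀ ρ : Om (len Zall), ∑ τ : Om (len Z),
      (if B (emb Z (emb Zall 1 ρ) τ) then (1 : ℝ) else 0) ≤ ε * Fintype.card (Om (len Z)) := by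
    intro ρ
    have := h (emb Zall 1 ρ)
    rw [card_filter] at this
    push_cast at this
    convert this
  have h3 : ∑ ρ : Om (len Zall), ∑ τ : Om (len Z),
      (if B (emb Z (emb Zall 1 ρ) τ) then (1 : ℝ) else 0)
      ≤ ∑ _ρ : Om (len Zall), ε * Fintype.card (Om (len Z)) := sum_le_sum (fun ρ _ => h2 ρ)
  rw [h1, sum_const, nsmul_eq_mul, card_univ] at h3
  have hpos := card_Om_pos Z
  have h4 : ∑ ρ : Om (len Zall), (if B (emb Zall 1 ρ) then (1 : ℝ) else 0)
      ≤ ε * Fintype.card (Om (len Zall)) := by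
    have : (Fintype.card (Om (len Z)) : ℝ) *
        ∑ ρ : Om (len Zall), (if B (emb Zall 1 ρ) then (1 : ℝ) else 0)
        ≤ (Fintype.card (Om (len Z)) : ℝ) * (ε * Fintype.card (Om (len Zall))) := by
      refine h3.trans (le_of_eq (by ring))
    exact le_of_mul_le_mul_left this hpos
  rw [card_filter]
  push_cast
  convert h4

theorem sum_telescope (J : ℕ) :
    ∑ j ∈ range J, (1 : ℝ) / (4 * ((j + 1) * (j + 2))) ≤ 1 / 4 - 1 / (4 * (J + 1)) := by
  induction J with
  | zero => simp
  | succ J ih =>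
    rw [sum_range_succ]
    have : (1 : ℝ) / (4 * ((J + 1) * (J + 2))) = 1 / (4 * (J + 1)) - 1 / (4 * (J + 1 + 1)) := by
      field_simp
      ring
    push_cast
    linarith

/-- A family that avoids countably many rare events. -/
theorem exists_good (B : Bool → ℕ → Fam → Prop) (lenB : Bool → ℕ → ℕ)
    (hdep : ∀ s j π π', (∀ m, m < lenB s j → π m = π' m) → B s j π → B s j π')
    (hrare : ∀ s j, Rare (B s j) (1 / (4 * ((j + 1) * (j + 2))))) :
    ∃ π : Fam, ∀ s j, ¬ B s j π := by
  classical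
  choose Z hZ using hrare
  -- finitely many events
  have hfin : ∀ J : ℕ, ∃ π : Fam, ∀ s, ∀ j < J, ¬ B s j π := by
    intro J
    set Zall : Finset ℕ := (univ ×ˢ range J).biUnion (fun p : Bool × ℕ => Z p.1 p.2) with hZall
    have hsub : ∀ s, ∀ j < J, Z s j ⊆ Zall := by
      intro s j hj m hm
      rw [hZall, mem_biUnion]
      exact ⟨(s, j), by simp [hj], hm⟩
    by_contra hcon
    push Not at hcon
    have hcov : (univ : Finset (Om (len Zall))) ⊆ (univ ×ˢ range J).biUnion
        (fun p : Bool × ℕ => univ.filter (fun ρ : Om (len Zall) => B p.1 p.2 (emb Zall 1 ρ))) := by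
      intro ρ _
      obtain ⟨s, j, hj, hB⟩ := hcon (emb Zall 1 ρ)
      rw [mem_biUnion]
      exact ⟨(s, j), by simp [hj], by simpa using hB⟩
    have h1 : (Fintype.card (Om (len Zall)) : ℝ)
        ≤ ∑ p ∈ (univ : Finset Bool) ×ˢ range J,
          ((univ.filter (fun ρ : Om (len Zall) => B p.1 p.2 (emb Zall 1 ρ))).card : ℝ) := by
      have := (card_le_card hcov).trans card_biUnion_le
      rw [card_univ] at this
      exact_mod_cast this
    have h2 : ∑ p ∈ (univ : Finset Bool) ×ˢ range J,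
          ((univ.filter (fun ρ : Om (len Zall) => B p.1 p.2 (emb Zall 1 ρ))).card : ℝ)
        ≤ ∑ p ∈ (univ : Finset Bool) ×ˢ range J,
          (1 / (4 * (((p.2 : ℕ) + 1) * ((p.2 : ℕ) + 2))) : ℝ) * Fintype.card (Om (len Zall)) := by
      apply sum_le_sum
      rintro ⟨s, j⟩ hp
      simp only [mem_product, mem_univ, true_and, mem_range] at hp
      exact rare_all (hsub s j hp) (hZ s j)
    have h5 : ∑ p ∈ (univ : Finset Bool) ×ˢ range J,
          (1 / (4 * (((p.2 : ℕ) + 1) * ((p.2 : ℕ) + 2))) : ℝ)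
        = 2 * ∑ j ∈ range J, (1 : ℝ) / (4 * ((j + 1) * (j + 2))) := by
      rw [sum_product]
      show ∑ _x : Bool, ∑ j ∈ range J, (1 : ℝ) / (4 * ((j + 1) * (j + 2))) = _
      rw [sum_const, card_univ, Fintype.card_bool, nsmul_eq_mul]
      push_cast
      ring
    rw [← sum_mul, h5] at h2
    have h3 := sum_telescope J
    have h4 : (0 : ℝ) ≤ 1 / (4 * (J + 1)) := by positivity
    have hpos := card_Om_pos Zall
    nlinarith
  choose P hP using hfin
  -- limit along an ultrafilter
  have hlim : ∀ m : ℕ, ∃ v : Equiv.Perm (Str m),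
      ∀ᶠ J in (Filter.hyperfilter ℕ : Filter ℕ), P J m = v := by
    intro m
    obtain ⟨v, hv⟩ := Ultrafilter.eq_pure_of_finite
      ((Filter.hyperfilter ℕ).map (fun J => P J m))
    refine ⟨v, ?_⟩
    have : ({v} : Set (Equiv.Perm (Str m))) ∈ (Filter.hyperfilter ℕ).map (fun J => P J m) := by
      rw [hv]
      simp
    exact this
  choose π hπ using hlim
  refine ⟨π, fun s j hB => ?_⟩
  have h1 : ∀ᶠ J in (Filter.hyperfilter ℕ : Filter ℕ), ∀ m ∈ range (lenB s j), P J m = π m := by
    rw [Filter.eventually_all_finset]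
    exact fun m _ => hπ m
  have h2 : ∀ᶠ J in (Filter.hyperfilter ℕ : Filter ℕ), j < J := by
    have h3 : ∀ᶠ J in (Filter.cofinite : Filter ℕ), j < J := by
      rw [Nat.cofinite_eq_atTop]
      exact Filter.eventually_gt_atTop j
    exact Filter.hyperfilter_le_cofinite h3
  obtain ⟨J, hJ1, hJ2⟩ := (h1.and h2).exists
  refine hP J s j hJ2 (hdep s j π (P J) (fun m hm => (hJ1 m (mem_range.mpr hm)).symm) hB)

end Pool.Agent.H82.SVL
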