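import Mathlib
import Pool.Agent.H82.SVL.Conv

set_option autoImplicit false
set_option linter.unusedSectionVars false

namespace Pool.Agent.H82.SVL

open Finset

variable {n : ℕ}

/-- The instance as a family of trees. -/
def toInst (Z : Finset ℕ) (ρ : Fam) (I : SVL n) : Inst (DZ Z) (Str n) where
  x0 := fun _ => false
  S := fun x => conv Z ρ (I.S x)
  V := fun i x => if h : 1 ≤ i ∧ i ≤ 2 ^ n then conv Z ρ (I.V x ⟨i, h⟩)
    else Tree.leaf (decide (x = fun _ => false))
  L := I.L.1

theorem toInst_seq (Z : Finset ℕ) (ρ : Fam) (I : SVL n) (τ : Om (len Z)) (i : ℕ) :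
    (toInst Z ρ I).seq τ.1 i = I.line (emb Z ρ τ) i := by
  induction i with
  | zero => rfl
  | succ i ih =>
    simp only [Inst.seq, SVL.line]
    rw [ih]
    exact run_conv τ _

theorem toInst_valid (Z : Finset ℕ) (ρ : Fam) (I : SVL n) (τ : Om (len Z))
    (h : I.Valid (emb Z ρ τ)) : (toInst Z ρ I).Valid τ.1 := by
  intro i hi x
  rw [toInst_seq]
  have hi2 : i ≤ 2 ^ n := hi.trans I.L.2.2
  rcases Nat.eq_zero_or_pos i with rfl | hpos
  · simp [toInst, SVL.line]
  · have h1 : (toInst Z ρ I).V i x = conv Z ρ (I.V x ⟨i, hpos, hi2⟩) := by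
      simp only [toInst]
      rw [dif_pos ⟨hpos, hi2⟩]
    rw [h1, run_conv]
    exact h x ⟨i, hpos, hi2⟩

theorem toInst_bdd (Z : Finset ℕ) (ρ : Fam) (I : SVL n) {q : ℕ} (h : I.Bdd q) :
    (toInst Z ρ I).Bdd q := by
  refine ⟨fun x => DLe_conv (h.1 x), fun i x => ?_⟩
  simp only [toInst]
  split_ifs with hi
  · exact DLe_conv (h.2 x ⟨i, hi⟩)
  · exact Tree.DLe_leaf _ _

theorem clog_L (I : SVL n) : Nat.clog 2 (I.L.1 + 1) ≤ n + 1 := by
  apply Nat.clog_le_of_le_pow
  have := I.L.2.2
  have h1 : 1 ≤ 2 ^ n := Nat.one_le_two_pow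
  rw [pow_succ]
  omega

theorem card_fib_len (Z : Finset ℕ) (a : DZ Z) : 2 ^ a.1.1 ≤ (fib (len Z) a).card := by
  have h1 : (univ : Finset (Str a.1.1)).image (fun x => (⟨a.1, x⟩ : DZ Z)) ⊆ fib (len Z) a := by
    intro d hd
    rw [mem_image] at hd
    obtain ⟨x, _, rfl⟩ := hd
    simp [fib, len]
  have h2 := card_le_card h1
  rw [card_image_of_injective _ (fun x y h => mk_injS a.1 h)] at h2
  simpa using h2

variable {X : Type} {c : ℕ}

/-- The hidden data of the solver. -/
noncomputable def hid (Z : Finset ℕ) (ρ : Fam) (dec : X → SVL n) (G : Str c → Comp Str X)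
    (I : SVL n) : Hid (len Z) (Str c) where
  Θ := by
    classical
    exact univ.filter (fun p => dec ((G p.1).run (orc (emb Z ρ p.2))) = I)
  EG := fun r τ => Tree.qs τ.1 (conv Z ρ (G r))
  closed := by
    classical
    intro r π hp σ hσ
    rw [mem_filter] at hp ⊢
    rw [mem_C] at hσ
    refine ⟨⟨mem_univ _, ?_⟩, ?_⟩
    · rw [← hp.2]
      simp only
      rw [← run_conv, ← run_conv]
      rw [Tree.run_congr (f := π.1) (g := σ.1) hσ]
    · exact Tree.qs_congr (f := π.1) (g := σ.1) hσ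

open Classical in
theorem mem_hid {Z : Finset ℕ} {ρ : Fam} {dec : X → SVL n} {G : Str c → Comp Str X}
    {I : SVL n} {p : Str c × Om (len Z)} :
    p ∈ (hid Z ρ dec G I).Θ ↔ dec ((G p.1).run (orc (emb Z ρ p.2))) = I := by
  simp [hid]

open Classical in
/-- What the tree used by the solver achieves. -/
def GoodT (Z : Finset ℕ) (ρ : Fam) (dec : X → SVL n) (G : Str c → Comp Str X) (P t : ℕ)
    (I : SVL n) (T : Tree (DZ Z) (Str n)) : Prop :=
  Tree.DLe T (cM P P (n + 1) t) ∧
    t * (((hid Z ρ dec G I).Θ).filter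
      (fun p => Tree.run p.2.1 T ≠ I.line (emb Z ρ p.2) I.L.1)).card
      ≤ ((hid Z ρ dec G I).Θ).card

theorem exists_goodT {Z : Finset ℕ} {ρ : Fam} {dec : X → SVL n} {G : Str c → Comp Str X}
    {P t : ℕ} (hZ : ∀ m ∈ Z, cN0 P P (n + 1) t ≤ 2 ^ m)
    (hG : ∀ r, (G r).Within P P)
    (hv : ∀ π r, (dec ((G r).run (orc π))).Valid π) (I : SVL n) (hI : I.Bdd P) :
    ∃ T, GoodT Z ρ dec G P t I T := by
  classical
  obtain ⟨T, hT1, hT2⟩ := planted_nat (I := toInst Z ρ I) (h := hid Z ρ dec G I) P P (n + 1) t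
    (fun a => (hZ _ a.1.2).trans (card_fib_len Z a)) (toInst_bdd Z ρ I hI)
    (by
      intro r π hp
      rw [mem_hid] at hp
      apply toInst_valid
      rw [← hp]
      exact hv _ _)
    (by
      intro r π _
      exact Tree.card_qs_le _ (DLe_conv (hG r)))
    (clog_L I)
  refine ⟨T, hT1, ?_⟩
  convert hT2 using 5
  rename_i p _
  have : (toInst Z ρ I).lab (len Z) (toInst Z ρ I).L p.2 = I.line (emb Z ρ p.2) I.L.1 :=
    toInst_seq Z ρ I p.2 I.L.1
  rw [this]

open Classical in
/-- The tree used by the solver. -/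
noncomputable def solT (Z : Finset ℕ) (ρ : Fam) (dec : X → SVL n) (G : Str c → Comp Str X)
    (P t : ℕ) (I : SVL n) : Tree (DZ Z) (Str n) :=
  if h : ∃ T, GoodT Z ρ dec G P t I T then Classical.choose h
  else Tree.leaf (fun _ => false)

theorem DLe_solT (Z : Finset ℕ) (ρ : Fam) (dec : X → SVL n) (G : Str c → Comp Str X)
    (P t : ℕ) (I : SVL n) : Tree.DLe (solT Z ρ dec G P t I) (cM P P (n + 1) t) := by
  unfold solT
  split_ifs with h
  · exact (Classical.choose_spec h).1
  · exact Tree.DLe_leaf _ _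

/-- Threshold for short strings. -/
def thr (n P t : ℕ) : ℕ := Nat.clog 2 (cN0 P P (n + 1) t)

theorem cN0_pos (k b ℓ t : ℕ) : 0 < cN0 k b ℓ t := by
  unfold cN0 cN
  omega

theorem le_thr (n P t : ℕ) : cN0 P P (n + 1) t ≤ 2 ^ thr n P t :=
  Nat.le_pow_clog (by norm_num) _

theorem thr_le (n P t : ℕ) : 2 ^ thr n P t ≤ 2 * cN0 P P (n + 1) t := by
  unfold thr
  set x := cN0 P P (n + 1) t with hx
  have hx0 : 0 < x := cN0_pos _ _ _ _
  rcases Nat.lt_or_ge x 2 with h | h
  · have h1 : x = 1 := by omega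
    rw [h1]
    simp
  · have h1 := Nat.pow_pred_clog_lt_self (b := 2) (by norm_num) (x := x) (by omega)
    have h2 : 0 < Nat.clog 2 x := Nat.clog_pos (by norm_num) h
    obtain ⟨y, hy⟩ : ∃ y, Nat.clog 2 x = y + 1 := ⟨Nat.clog 2 x - 1, by omega⟩
    rw [hy] at h1 ⊢
    simp only [Nat.pred_succ] at h1
    rw [pow_succ]
    omega

open Classical in
/-- The solver, as a query computation. -/
noncomputable def Sol (dec : X → SVL n) (G : Str c → Comp Str X) (P t : ℕ) (I : SVL n) :
    Comp Str (Str n) :=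
  if I.Bdd P then
    readL (pts (thr n P t)) (fun g =>
      if h : ∃ ρ : Fam, ∀ m, m < thr n P t → ∀ x, ρ m x = g ⟨m, x⟩ then
        unconv (solT (Icc (thr n P t) P) (Classical.choose h) dec G P t I)
      else Comp.ret (fun _ => false))
  else Comp.ret (fun _ => false)

/-- Query bound of the solver. -/
def qSol (n P t : ℕ) : ℕ := 2 * cN0 P P (n + 1) t + cM P P (n + 1) t

/-- Length bound of the solver. -/
def lSol (n P t : ℕ) : ℕ := 2 * cN0 P P (n + 1) t + P

theorem Within_Sol (dec : X → SVL n) (G : Str c → Comp Str X) (P t : ℕ) (I : SVL n) :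
    (Sol dec G P t I).Within (lSol n P t) (qSol n P t) := by
  unfold Sol
  split_ifs with hI
  · have h1 : (pts (thr n P t)).length + cM P P (n + 1) t ≤ qSol n P t := by
      have := length_pts (thr n P t)
      have := thr_le n P t
      unfold qSol
      omega
    have hthr : thr n P t ≤ lSol n P t := by
      have := thr_le n P t
      have h2 : thr n P t < 2 ^ thr n P t := Nat.lt_two_pow_self
      unfold lSol
      omega
    refine Comp.Within.mono ?_ le_rfl h1
    apply Within_readL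
    · intro p hp
      rw [mem_pts] at hp
      omega
    · intro g
      split_ifs with hg
      · apply Within_unconv
        · intro m hm
          rw [mem_Icc] at hm
          unfold lSol
          omega
        · exact DLe_solT _ _ _ _ _ _ _
      · exact Comp.Within_ret _ _ _
  · exact Comp.Within_ret _ _ _

/-- The solver fails rarely. -/
theorem Sol_fail {dec : X → SVL n} {G : Str c → Comp Str X} {P t : ℕ}
    (hG : ∀ r, (G r).Within P P)
    (hbdd : ∀ π r, (dec ((G r).run (orc π))).Bdd P)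
    (hv : ∀ π r, (dec ((G r).run (orc π))).Valid π) (ρ₀ : Fam) :
    open Classical in
    t * (univ.filter (fun p : Str c × Om (len (Icc (thr n P t) P)) =>
      (Sol dec G P t (dec ((G p.1).run (orc (emb (Icc (thr n P t) P) ρ₀ p.2))))).run
          (orc (emb (Icc (thr n P t) P) ρ₀ p.2))
        ≠ (dec ((G p.1).run (orc (emb (Icc (thr n P t) P) ρ₀ p.2)))).line
          (emb (Icc (thr n P t) P) ρ₀ p.2)
          (dec ((G p.1).run (orc (emb (Icc (thr n P t) P) ρ₀ p.2)))).L.1)).card
      ≤ Fintype.card (Str c × Om (len (Icc (thr n P t) P))) := by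
  classical
  set Z := Icc (thr n P t) P with hZdef
  set m₀ := thr n P t with hm₀
  have hZ : ∀ m ∈ Z, cN0 P P (n + 1) t ≤ 2 ^ m := by
    intro m hm
    rw [hZdef, mem_Icc] at hm
    exact (le_thr n P t).trans (Nat.pow_le_pow_right (by norm_num) hm.1)
  -- the table seen by the solver
  set g₀ := tab ρ₀ (pts m₀) with hg₀
  have hgex : ∃ ρ : Fam, ∀ m, m < m₀ → ∀ x, ρ m x = g₀ ⟨m, x⟩ := by
    refine ⟨ρ₀, fun m hm x => ?_⟩
    rw [hg₀, tab_mem ρ₀ (mem_pts.mpr hm)]
  set ρ := Classical.choose hgex with hρ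
  have hρs : ∀ m, m < m₀ → ρ m = ρ₀ m := by
    intro m hm
    ext1 x
    rw [Classical.choose_spec hgex m hm x, hg₀, tab_mem ρ₀ (mem_pts.mpr hm)]
  have hag : ∀ (τ : Om (len Z)) (m : ℕ), m ≤ P → emb Z ρ₀ τ m = emb Z ρ τ m := by
    intro τ m hm
    apply emb_congr_left
    intro hmZ
    rw [hZdef, mem_Icc] at hmZ
    exact (hρs m (by omega)).symm
  have hGrun : ∀ p : Str c × Om (len Z), (G p.1).run (orc (emb Z ρ₀ p.2))
      = (G p.1).run (orc (emb Z ρ p.2)) := by
    intro p
    exact Comp.run_congr (fun m hm x => by simp only [orc]; rw [hag p.2 m hm]) (hG p.1)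
  have hline : ∀ (I : SVL n), I.Bdd P → ∀ (τ : Om (len Z)) (i : ℕ),
      I.line (emb Z ρ₀ τ) i = I.line (emb Z ρ τ) i := by
    intro I hI τ i
    induction i with
    | zero => rfl
    | succ i ih =>
      simp only [SVL.line]
      rw [ih]
      exact Comp.run_congr (fun m hm x => by rw [hag τ m hm]) (hI.1 _)
  have hSol : ∀ (I : SVL n), I.Bdd P → ∀ τ : Om (len Z),
      (Sol dec G P t I).run (orc (emb Z ρ₀ τ)) = Tree.run τ.1 (solT Z ρ dec G P t I) := by
    intro I hI τ
    have htab : tab (emb Z ρ₀ τ) (pts m₀) = g₀ := by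
      rw [hg₀]
      apply tab_congr
      intro p hp
      rw [mem_pts] at hp
      rw [emb_not_mem]
      rw [hZdef, mem_Icc]
      omega
    unfold Sol
    rw [if_pos hI]
    rw [run_readL, ← hm₀, htab, dif_pos hgex, run_unconv, ← hZdef, res_emb]
  -- rewrite the failure event
  set inst : Str c × Om (len Z) → SVL n := fun p => dec ((G p.1).run (orc (emb Z ρ p.2)))
    with hinst
  have hset : (univ.filter (fun p : Str c × Om (len Z) =>
      (Sol dec G P t (dec ((G p.1).run (orc (emb Z ρ₀ p.2))))).run (orc (emb Z ρ₀ p.2))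
        ≠ (dec ((G p.1).run (orc (emb Z ρ₀ p.2)))).line (emb Z ρ₀ p.2)
          (dec ((G p.1).run (orc (emb Z ρ₀ p.2)))).L.1))
      = univ.filter (fun p : Str c × Om (len Z) =>
        Tree.run p.2.1 (solT Z ρ dec G P t (inst p)) ≠ (inst p).line (emb Z ρ p.2)
          (inst p).L.1) := by
    apply filter_congr
    intro p _
    rw [hGrun p]
    have hb : (inst p).Bdd P := hbdd _ _
    rw [hSol _ hb, hline _ hb]
  rw [hset]
  -- split by the instance
  set Im := (univ : Finset (Str c × Om (len Z))).image inst with hIm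
  have h1 : (univ.filter (fun p : Str c × Om (len Z) =>
        Tree.run p.2.1 (solT Z ρ dec G P t (inst p)) ≠ (inst p).line (emb Z ρ p.2)
          (inst p).L.1)).card
      = ∑ I ∈ Im, (((hid Z ρ dec G I).Θ).filter
        (fun p => Tree.run p.2.1 (solT Z ρ dec G P t I) ≠ I.line (emb Z ρ p.2) I.L.1)).card := by
    rw [card_eq_sum_card_fiberwise (f := inst) (t := Im)
      (fun p _ => mem_coe.mpr (mem_image_of_mem _ (mem_univ p)))]
    apply sum_congr rfl
    intro I _
    congr 1
    ext p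
    simp only [mem_filter, mem_univ, true_and, mem_hid]
    constructor
    · rintro ⟨h1, h2⟩
      rw [h2] at h1
      exact ⟨h2, h1⟩
    · rintro ⟨h1, h2⟩
      have h3 : inst p = I := h1
      rw [h3]
      exact ⟨h2, rfl⟩
  have h2 : Fintype.card (Str c × Om (len Z)) = ∑ I ∈ Im, ((hid Z ρ dec G I).Θ).card := by
    rw [← card_univ, card_eq_sum_card_fiberwise (f := inst) (t := Im)
      (fun p _ => mem_coe.mpr (mem_image_of_mem _ (mem_univ p)))]
    apply sum_congr rfl
    intro I _
    rfl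
  rw [h1, h2, mul_sum]
  apply sum_le_sum
  intro I hI
  rw [hIm, mem_image] at hI
  obtain ⟨p, _, hp⟩ := hI
  have hIb : I.Bdd P := by rw [← hp]; exact hbdd _ _
  have hex := exists_goodT (ρ := ρ) hZ hG hv I hIb
  unfold solT
  rw [dif_pos hex]
  exact (Classical.choose_spec hex).2

end Pool.Agent.H82.SVL
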