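import Mathlib
import Pool.Agent.H82.SVL.Solver

set_option autoImplicit false
set_option linter.unusedSectionVars false

namespace Pool.Agent.H82.SVL

open Finset

/-! ### Polynomial bounds -/

/-- Polynomially bounded functions. -/
def PB (f : ℕ → ℕ) : Prop := ∃ p : Polynomial ℕ, ∀ n, f n ≤ p.eval n

theorem PB.const (c : ℕ) : PB (fun _ => c) := ⟨Polynomial.C c, fun n => by simp⟩

theorem PB.id : PB (fun n => n) := ⟨Polynomial.X, fun n => by simp⟩

theorem PB.poly (p : Polynomial ℕ) : PB (fun n => p.eval n) := ⟨p, fun _ => le_rfl⟩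

theorem PB.add {f g : ℕ → ℕ} (hf : PB f) (hg : PB g) : PB (fun n => f n + g n) := by
  obtain ⟨p, hp⟩ := hf
  obtain ⟨q, hq⟩ := hg
  exact ⟨p + q, fun n => by rw [Polynomial.eval_add]; exact add_le_add (hp n) (hq n)⟩

theorem PB.mul {f g : ℕ → ℕ} (hf : PB f) (hg : PB g) : PB (fun n => f n * g n) := by
  obtain ⟨p, hp⟩ := hf
  obtain ⟨q, hq⟩ := hg
  exact ⟨p * q, fun n => by rw [Polynomial.eval_mul]; exact Nat.mul_le_mul (hp n) (hq n)⟩

theorem eval_mono (p : Polynomial ℕ) {a b : ℕ} (h : a ≤ b) : p.eval a ≤ p.eval b := by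
  rw [Polynomial.eval_eq_sum_range, Polynomial.eval_eq_sum_range]
  exact sum_le_sum (fun i _ => Nat.mul_le_mul_left _ (Nat.pow_le_pow_left h i))

theorem eval_le_pow (p : Polynomial ℕ) {m : ℕ} (h : 1 ≤ m) :
    p.eval m ≤ p.eval 1 * m ^ p.natDegree := by
  rw [Polynomial.eval_eq_sum_range, Polynomial.eval_eq_sum_range, sum_mul]
  apply sum_le_sum
  intro i hi
  rw [mem_range] at hi
  rw [one_pow, mul_one]
  exact Nat.mul_le_mul_left _ (Nat.pow_le_pow_right h (by omega))

theorem negligible_of_le {f : ℕ → ℝ} (p : Polynomial ℕ)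
    (h : ∀ m, f m ≤ (p.eval m : ℕ) / 2 ^ m) : Negligible f := by
  intro c
  have h1 := tendsto_pow_const_div_const_pow_of_one_lt (p.natDegree + c) (r := (2 : ℝ))
    (by norm_num)
  have h2 : ∀ᶠ m : ℕ in Filter.atTop,
      (m : ℝ) ^ (p.natDegree + c) / 2 ^ m < 1 / ((p.eval 1 : ℕ) + 1) := by
    apply h1.eventually_lt_const
    positivity
  filter_upwards [h2, Filter.eventually_ge_atTop 1] with m hm hm1
  refine (h m).trans ?_
  have hmp : (0 : ℝ) < (m : ℝ) ^ c := by
    have : (0 : ℝ) < m := by exact_mod_cast hm1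
    positivity
  rw [div_le_iff₀ (by positivity), inv_mul_eq_div, le_div_iff₀ hmp]
  rw [div_lt_div_iff₀ (by positivity) (by positivity)] at hm
  have h3 : ((p.eval m : ℕ) : ℝ) ≤ (p.eval 1 : ℕ) * (m : ℝ) ^ p.natDegree := by
    exact_mod_cast eval_le_pow p hm1
  have h4 : (0 : ℝ) ≤ (m : ℝ) ^ (p.natDegree + c) := by positivity
  calc ((p.eval m : ℕ) : ℝ) * (m : ℝ) ^ c
      ≤ ((p.eval 1 : ℕ) * (m : ℝ) ^ p.natDegree) * (m : ℝ) ^ c := by gcongr
    _ = (p.eval 1 : ℕ) * (m : ℝ) ^ (p.natDegree + c) := by rw [pow_add]; ring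
    _ ≤ 2 ^ m := by nlinarith

/-! ### The solver inside the reduction -/

/-- Replace solver queries by the solver's computation. -/
def inl {Code : ℕ → Type} {α : Type} (S : ∀ n, Code n → Comp Str (Str n)) :
    Comp (fun i => Str i ⊕ Code i) α → Comp Str α
  | Comp.ret a => Comp.ret a
  | Comp.ask m x k =>
    match x with
    | Sum.inl x => Comp.ask m x (fun v => inl S (k v))
    | Sum.inr c => (S m c).bind (fun v => inl S (k v))

theorem run_inl {Code : ℕ → Type} {α : Type} (S : ∀ n, Code n → Comp Str (Str n)) (π : Fam)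
    (T : Comp (fun i => Str i ⊕ Code i) α) :
    (inl S T).run (orc π)
      = T.run (fun i => Sum.elim (π i) (fun c => (S i c).run (orc π))) := by
  induction T with
  | ret a => rfl
  | ask m x k ih =>
    cases x with
    | inl x => exact ih _
    | inr c =>
      simp only [inl, Comp.run_bind, Comp.run, Sum.elim_inr]
      exact ih _

theorem Within_inl {Code : ℕ → Type} {α : Type} (S : ∀ n, Code n → Comp Str (Str n))
    {P ℓ B : ℕ} (hP : P ≤ ℓ) (hB : 1 ≤ B) (hS : ∀ i, i ≤ P → ∀ c, (S i c).Within ℓ B)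
    {T : Comp (fun i => Str i ⊕ Code i) α} {q : ℕ} (h : T.Within P q) :
    (inl S T).Within ℓ (q * B) := by
  induction T generalizing q with
  | ret a => exact Comp.Within_ret _ _ _
  | ask m x k ih =>
    cases q with
    | zero => exact absurd h (by simp [Comp.Within])
    | succ q =>
      have e : (q + 1) * B = B + q * B := by ring
      rw [e]
      cases x with
      | inl x =>
        simp only [inl]
        obtain ⟨B', rfl⟩ : ∃ B', B = B' + 1 := ⟨B - 1, by omega⟩
        have e2 : B' + 1 + q * (B' + 1) = (B' + q * (B' + 1)) + 1 := by omega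
        rw [e2]
        exact ⟨h.1.trans hP, fun v => (ih v (h.2 v)).mono le_rfl (by omega)⟩
      | inr c =>
        simp only [inl]
        exact (hS m h.1 c).bind (fun v => ih v (h.2 v))

/-! ### Inverting a random permutation -/

theorem invert_bound (m Q : ℕ) {ℓ : ℕ} (T : Str m → Comp Str (Str m))
    (hT : ∀ y, (T y).Within ℓ Q) (ρ : Fam) :
    ((univ.filter (fun p : Om (len {m}) × Str m =>
      (T (emb {m} ρ p.1 m p.2)).run (orc (emb {m} ρ p.1)) = p.2)).card : ℝ)
      ≤ 2 * (Q + 1) * Fintype.card (Om (len {m})) := by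
  classical
  have hmem : m ∈ ({m} : Finset ℕ) := mem_singleton_self m
  have hcardS : Fintype.card (Str m) = 2 ^ m := by simp
  by_cases hbig : 2 ^ m ≤ 2 * (Q + 1)
  · have h1 : ((univ.filter (fun p : Om (len {m}) × Str m =>
        (T (emb {m} ρ p.1 m p.2)).run (orc (emb {m} ρ p.1)) = p.2)).card : ℝ)
        ≤ Fintype.card (Om (len {m}) × Str m) := by
      exact_mod_cast card_le_univ _
    rw [Fintype.card_prod, hcardS] at h1
    refine h1.trans ?_
    push_cast
    rw [mul_comm]
    have h2 : ((2 : ℝ) ^ m) ≤ 2 * (Q + 1) := by exact_mod_cast hbig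
    gcongr
  · push Not at hbig
    -- split by the challenge
    let T' : Str m → Tree (DZ {m}) Unit := fun y =>
      (conv {m} ρ (T y)).bind (fun x => Tree.query ⟨⟨m, hmem⟩, x⟩ (fun _ => Tree.leaf ()))
    have hT' : ∀ y, Tree.DLe (T' y) (Q + 1) := fun y =>
      (DLe_conv (hT y)).bind (fun _ _ => Tree.DLe_leaf _ _)
    set π₀ : Om (len {m}) := res {m} 1 with hπ₀
    have hC : C ∅ π₀ = univ := by
      ext τ
      simp [mem_C]
    set N : ℝ := 2 ^ m - (Q + 1) with hN
    have hNbig : (2 : ℝ) ^ m ≤ 2 * N := by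
      have : (2 : ℝ) * (Q + 1) ≤ 2 ^ m := by exact_mod_cast hbig.le
      rw [hN]
      linarith
    have h2m : (0 : ℝ) < 2 ^ m := by positivity
    have hN0 : 0 < N := by linarith
    have hy : ∀ y : Str m, (((univ.filter (fun p : Om (len {m}) × Str m =>
        (T (emb {m} ρ p.1 m p.2)).run (orc (emb {m} ρ p.1)) = p.2)).filter
          (fun p => emb {m} ρ p.1 m p.2 = y)).card : ℝ)
        ≤ (2 * (Q + 1) / 2 ^ m) * Fintype.card (Om (len {m})) := by
      intro y
      have h1 := value_hit (srt := len {m}) (T' y) (hT' y) ∅ π₀ {(⟨⟨m, hmem⟩, y⟩ : DZ {m})}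
        hN0 (by
          intro a
          have h3 := card_fib_len {m} a
          have h4 : a.1.1 = m := mem_singleton.mp a.1.2
          have h5 : ((2 ^ a.1.1 : ℕ) : ℝ) ≤ (fib (len {m}) a).card := by exact_mod_cast h3
          rw [h4] at h5
          push_cast at h5 ⊢
          simp only [card_empty, Nat.cast_zero]
          rw [hN]
          linarith)
      rw [hC, card_singleton, card_univ] at h1
      have h2 : ((univ.filter (fun p : Om (len {m}) × Str m =>
        (T (emb {m} ρ p.1 m p.2)).run (orc (emb {m} ρ p.1)) = p.2)).filter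
          (fun p => emb {m} ρ p.1 m p.2 = y)).card
          ≤ (univ.filter (fun σ : Om (len {m}) => ∃ a ∈ Tree.qs σ.1 (T' y) \ ∅,
            σ.1 a ∈ ({(⟨⟨m, hmem⟩, y⟩ : DZ {m})} : Finset (DZ {m})))).card := by
        apply card_le_card_of_injOn Prod.fst
        · rintro ⟨τ, x⟩ hp
          simp only [coe_filter, mem_univ, true_and, mem_filter, Set.mem_setOf_eq] at hp
          obtain ⟨hp1, hp2⟩ := hp
          simp only [coe_filter, mem_univ, true_and, Set.mem_setOf_eq]
          rw [hp2, ← run_conv] at hp1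
          refine ⟨⟨⟨m, hmem⟩, x⟩, ?_, ?_⟩
          · rw [sdiff_empty]
            simp only [T', Tree.qs_bind, Tree.qs_query, hp1]
            exact mem_union_right _ (mem_insert_self _ _)
          · rw [mem_singleton, ← hp2, emb_mem hmem]
            exact (mk_comp τ ⟨m, hmem⟩ x).symm
        · rintro ⟨τ, x⟩ hp ⟨τ', x'⟩ hp' he
          simp only [coe_filter, mem_univ, true_and, mem_filter, Set.mem_setOf_eq] at hp hp'
          simp only at he
          subst he
          have h3 : x = x' := (emb {m} ρ τ m).injective (hp.2.trans hp'.2.symm)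
          rw [h3]
      have h3 : (((univ.filter (fun p : Om (len {m}) × Str m =>
        (T (emb {m} ρ p.1 m p.2)).run (orc (emb {m} ρ p.1)) = p.2)).filter
          (fun p => emb {m} ρ p.1 m p.2 = y)).card : ℝ)
          ≤ (((Q + 1 : ℕ) : ℝ) * (1 : ℕ) / N) * Fintype.card (Om (len {m})) := by
        refine le_trans (by exact_mod_cast h2) h1
      refine h3.trans ?_
      apply mul_le_mul_of_nonneg_right _ (by positivity)
      push_cast
      rw [mul_one, div_le_div_iff₀ hN0 h2m]
      have hQ : (0 : ℝ) ≤ Q + 1 := by positivity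
      nlinarith
    have hsum : ((univ.filter (fun p : Om (len {m}) × Str m =>
        (T (emb {m} ρ p.1 m p.2)).run (orc (emb {m} ρ p.1)) = p.2)).card : ℝ)
        = ∑ y : Str m, (((univ.filter (fun p : Om (len {m}) × Str m =>
          (T (emb {m} ρ p.1 m p.2)).run (orc (emb {m} ρ p.1)) = p.2)).filter
            (fun p => emb {m} ρ p.1 m p.2 = y)).card : ℝ) := by
      rw [← Nat.cast_sum]
      congr 1
      exact card_eq_sum_card_fiberwise (fun p _ => mem_coe.mpr (mem_univ _))
    rw [hsum]
    calc ∑ y : Str m, (((univ.filter (fun p : Om (len {m}) × Str m =>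
          (T (emb {m} ρ p.1 m p.2)).run (orc (emb {m} ρ p.1)) = p.2)).filter
            (fun p => emb {m} ρ p.1 m p.2 = y)).card : ℝ)
        ≤ ∑ _y : Str m, (2 * (Q + 1) / 2 ^ m) * (Fintype.card (Om (len {m})) : ℝ) :=
          sum_le_sum (fun y _ => hy y)
      _ = _ := by
          rw [sum_const, nsmul_eq_mul, card_univ, hcardS]
          push_cast
          field_simp

end Pool.Agent.H82.SVL
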