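import Mathlib
import Pool.Agent.H82.SVL.Final

set_option autoImplicit false
set_option linter.unusedSectionVars false

namespace Pool.Agent.H82.SVL

open Finset

/-- Solver quality used for security parameter `n`. -/
def tt (n : ℕ) : ℕ := 8 * (n + 1) * (n + 2)

theorem PB_bounds (p : Polynomial ℕ) :
    PB (fun n => qSol n (p.eval n) (tt n)) ∧ PB (fun n => lSol n (p.eval n) (tt n)) := by
  unfold qSol lSol cN0 cN cK0 cM cF cA cK2 cK1 cn tt
  simp only [pow_two]
  constructor
  · repeat' first
      | exact PB.const _
      | exact PB.id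
      | exact PB.poly p
      | apply PB.add
      | apply PB.mul
  · repeat' first
      | exact PB.const _
      | exact PB.id
      | exact PB.poly p
      | apply PB.add
      | apply PB.mul

/-- Chebyshev-Markov counting. -/
theorem markov_count {T S : Type} [Fintype T] [Fintype S] (E : T → S → Prop)
    [∀ τ, DecidablePred (E τ)] [DecidablePred (fun p : T × S => E p.1 p.2)]
    (B : T → Prop) [DecidablePred B] {a b : ℝ} (ha : 0 < a)
    (h : ∀ τ, B τ → a ≤ ((univ.filter (E τ)).card : ℝ))
    (hb : ((univ.filter (fun p : T × S => E p.1 p.2)).card : ℝ) ≤ b) :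
    ((univ.filter B).card : ℝ) ≤ b / a := by
  rw [le_div_iff₀ ha]
  refine le_trans ?_ hb
  have h1 : ((univ.filter (fun p : T × S => E p.1 p.2)).card : ℝ)
      = ∑ τ : T, ((univ.filter (E τ)).card : ℝ) := by
    rw [card_filter]
    push_cast
    rw [Fintype.sum_prod_type]
    apply sum_congr rfl
    intro τ _
    rw [card_filter]
    push_cast
    apply sum_congr rfl
    intro s _
    by_cases hs : E τ s <;> simp [hs]
  rw [h1]
  calc ((univ.filter B).card : ℝ) * a = ∑ _τ ∈ univ.filter B, a := by
        rw [sum_const, nsmul_eq_mul]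
    _ ≤ ∑ τ ∈ univ.filter B, ((univ.filter (E τ)).card : ℝ) :=
        sum_le_sum (fun τ hτ => h τ (mem_filter.mp hτ).2)
    _ ≤ ∑ τ : T, ((univ.filter (E τ)).card : ℝ) :=
        sum_le_sum_of_subset_of_nonneg (filter_subset _ _) (fun _ _ _ => by positivity)

/-- The quantitative separation. -/
theorem separation (K : Construction) (p : Polynomial ℕ)
    (hG : ∀ n r, (K.G n r).Within (p.eval n) (p.eval n))
    (hbdd : ∀ n π r, (K.inst π n r).Bdd (p.eval n))
    (hR : ∀ n r y, (K.R n r y).Within (p.eval n) (p.eval n))
    (hv : ∀ π n r, (K.inst π n r).Valid π) :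
    ∃ (π : Fam) (A : ∀ n, K.Code n → Str n),
      (∀ n, 1 / 2 ≤ K.solves π A n) ∧
      ∃ q : Polynomial ℕ, ∀ m, K.inverts π A m ≤ (q.eval m : ℕ) / 2 ^ m := by
  classical
  obtain ⟨⟨qs, hqs⟩, ⟨ls, hls⟩⟩ := PB_bounds p
  -- the solver as a computation
  let S : ∀ n, K.Code n → Comp Str (Str n) := fun n c =>
    Sol (K.dec n) (K.G n) (p.eval n) (tt n) (K.dec n c)
  have hS : ∀ n c, (S n c).Within (ls.eval n) (qs.eval n) := fun n c =>
    (Within_Sol (K.dec n) (K.G n) (p.eval n) (tt n) (K.dec n c)).mono (hls n) (hqs n)
  let A : Fam → ∀ n, K.Code n → Str n := fun π n c => (S n c).run (orc π)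
  -- bounds for the reduction with the solver inside
  let QQ : ℕ → ℕ := fun m => p.eval m * (qs.eval (p.eval m) + 1)
  let LL : ℕ → ℕ := fun m => ls.eval (p.eval m) + p.eval m
  have hinl : ∀ m r y, (inl S (K.R m r y)).Within (LL m) (QQ m) := by
    intro m r y
    apply Within_inl S (P := p.eval m) (by simp [LL]) (by omega) _ (hR m r y)
    intro i hi c
    refine (hS i c).mono ?_ ?_
    · have := eval_mono ls hi
      simp only [LL]
      omega
    · have := eval_mono qs hi
      omega
  -- bad events
  let FA : ∀ n, Fam → Str (K.cG n) → Prop := fun n π r =>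
    A π n ((K.G n r).run (orc π)) ≠ (K.inst π n r).line π (K.inst π n r).L.1
  let FR : ∀ m, Fam → Str (K.cR m) × Str m → Prop := fun m π q =>
    (inl S (K.R m q.1 (π m q.2))).run (orc π) = q.2
  let B : Bool → ℕ → Fam → Prop := fun s j π =>
    if s = true then
      8 * ((j : ℝ) + 1) * (j + 2) * (QQ j + 1) * 2 ^ (K.cR j)
        < (univ.filter (fun q => FR j π q)).card
    else (2 : ℝ) ^ (K.cG j) < 2 * (univ.filter (fun r => FA j π r)).card
  let lenB : Bool → ℕ → ℕ := fun s j =>
    if s = true then LL j + j + 1 else ls.eval j + p.eval j + 1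
  have hcongr : ∀ {α : Type} {X : Comp Str α} {ℓ q : ℕ} {π π' : Fam},
      X.Within ℓ q → (∀ m, m ≤ ℓ → π m = π' m) → X.run (orc π) = X.run (orc π') := by
    intro α X ℓ q π π' h hπ
    exact Comp.run_congr (fun m hm x => by simp only [orc]; rw [hπ m hm]) h
  have hdep : ∀ s j π π', (∀ m, m < lenB s j → π m = π' m) → B s j π → B s j π' := by
    intro s j π π' hππ hB
    cases s with
    | false =>
      have hlen : lenB false j = ls.eval j + p.eval j + 1 := rfl
      rw [hlen] at hππ
      have e1 : ∀ r, FA j π r ↔ FA j π' r := by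
        intro r
        have hc : (K.G j r).run (orc π) = (K.G j r).run (orc π') :=
          hcongr (hG j r) (fun m hm => hππ m (by omega))
        have hin : K.inst π j r = K.inst π' j r := by
          simp only [Construction.inst]
          exact congrArg _ hc
        have hline : ∀ i, (K.inst π j r).line π i = (K.inst π j r).line π' i := by
          intro i
          induction i with
          | zero => rfl
          | succ i ih =>
            simp only [SVL.line]
            rw [ih]
            exact hcongr ((hbdd j π r).1 _) (fun m hm => hππ m (by omega))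
        have hA : A π j ((K.G j r).run (orc π)) = A π' j ((K.G j r).run (orc π')) := by
          rw [hc]
          exact hcongr (hS j _) (fun m hm => hππ m (by omega))
        simp only [FA]
        rw [hA, hline, hin]
      have hB' : (2 : ℝ) ^ (K.cG j) < 2 * (univ.filter (fun r => FA j π r)).card := by
        simpa [B] using hB
      have : (2 : ℝ) ^ (K.cG j) < 2 * (univ.filter (fun r => FA j π' r)).card := by
        have e2 : (univ.filter (fun r => FA j π r)) = (univ.filter (fun r => FA j π' r)) :=
          filter_congr (fun r _ => e1 r)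
        rw [← e2]
        exact hB'
      simpa [B] using this
    | true =>
      have hlen : lenB true j = LL j + j + 1 := rfl
      rw [hlen] at hππ
      have e1 : ∀ q, FR j π q ↔ FR j π' q := by
        intro q
        simp only [FR]
        rw [hππ j (by omega)]
        rw [hcongr (hinl j q.1 _) (fun m hm => hππ m (by omega))]
      have hB' : 8 * ((j : ℝ) + 1) * (j + 2) * (QQ j + 1) * 2 ^ (K.cR j)
        < (univ.filter (fun q => FR j π q)).card := by
        simpa [B] using hB
      have : 8 * ((j : ℝ) + 1) * (j + 2) * (QQ j + 1) * 2 ^ (K.cR j)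
        < (univ.filter (fun q => FR j π' q)).card := by
        have e2 : (univ.filter (fun q => FR j π q)) = (univ.filter (fun q => FR j π' q)) :=
          filter_congr (fun q _ => e1 q)
        rw [← e2]
        exact hB'
      simpa [B] using this
  have hrare : ∀ s j, Rare (B s j) (1 / (4 * ((j + 1) * (j + 2)))) := by
    intro s j
    cases s with
    | false =>
      refine ⟨Icc (thr j (p.eval j) (tt j)) (p.eval j), fun ρ => ?_⟩
      set Z := Icc (thr j (p.eval j) (tt j)) (p.eval j) with hZ
      have h1 := Sol_fail (dec := K.dec j) (G := K.G j) (P := p.eval j) (t := tt j)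
        (hG j) (fun π r => hbdd j π r) (fun π r => hv π j r) ρ
      rw [← hZ] at h1
      have h2 : (tt j : ℝ) * ((univ.filter (fun q : Str (K.cG j) × Om (len Z) =>
          FA j (emb Z ρ q.2) q.1)).card : ℝ) ≤ 2 ^ (K.cG j) * Fintype.card (Om (len Z)) := by
        have h3 : Fintype.card (Str (K.cG j) × Om (len Z))
            = 2 ^ (K.cG j) * Fintype.card (Om (len Z)) := by
          rw [Fintype.card_prod]; simp
        rw [h3] at h1
        exact_mod_cast h1
      have h4 : ((univ.filter (fun q : Om (len Z) × Str (K.cG j) =>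
          FA j (emb Z ρ q.1) q.2)).card : ℝ)
          = ((univ.filter (fun q : Str (K.cG j) × Om (len Z) =>
          FA j (emb Z ρ q.2) q.1)).card : ℝ) := by
        congr 1
        refine card_bij' (fun q _ => (q.2, q.1)) (fun q _ => (q.2, q.1)) ?_ ?_ ?_ ?_
        · intro q hq
          rw [mem_filter] at hq ⊢
          exact ⟨mem_univ _, hq.2⟩
        · intro q hq
          rw [mem_filter] at hq ⊢
          exact ⟨mem_univ _, hq.2⟩
        · intro q _; rfl
        · intro q _; rfl
      have htt : ((tt j : ℕ) : ℝ) = 8 * ((j : ℝ) + 1) * (j + 2) := by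
        unfold tt; push_cast; ring
      have http : (0 : ℝ) < tt j := by rw [htt]; positivity
      have h2p : (0 : ℝ) < (2 : ℝ) ^ (K.cG j) := by positivity
      have h5 := markov_count (T := Om (len Z)) (S := Str (K.cG j))
        (fun τ r => FA j (emb Z ρ τ) r) (fun τ => B false j (emb Z ρ τ))
        (a := 2 ^ (K.cG j) / 2)
        (b := 2 ^ (K.cG j) * Fintype.card (Om (len Z)) / tt j) (by positivity)
        (by
          intro τ hτ
          have h6 : (2 : ℝ) ^ (K.cG j) < 2 * (univ.filter (fun r => FA j (emb Z ρ τ) r)).card := by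
            simpa [B] using hτ
          linarith)
        (by
          rw [h4, le_div_iff₀ http]
          linarith)
      refine h5.trans (le_of_eq ?_)
      rw [htt]
      field_simp
      ring
    | true =>
      refine ⟨{j}, fun ρ => ?_⟩
      have h1 : ∀ r : Str (K.cR j), ((univ.filter (fun q : Om (len {j}) × Str j =>
          FR j (emb {j} ρ q.1) (r, q.2))).card : ℝ)
          ≤ 2 * (QQ j + 1) * Fintype.card (Om (len {j})) := by
        intro r
        exact invert_bound j (QQ j) (fun y => inl S (K.R j r y)) (fun y => hinl j r y) ρ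
      have h2 : ((univ.filter (fun q : Om (len {j}) × (Str (K.cR j) × Str j) =>
          FR j (emb {j} ρ q.1) q.2)).card : ℝ)
          ≤ 2 ^ (K.cR j) * (2 * (QQ j + 1) * Fintype.card (Om (len {j}))) := by
        have h3 : ((univ.filter (fun q : Om (len {j}) × (Str (K.cR j) × Str j) =>
          FR j (emb {j} ρ q.1) q.2)).card : ℝ)
          = ∑ r : Str (K.cR j), ((univ.filter (fun q : Om (len {j}) × Str j =>
          FR j (emb {j} ρ q.1) (r, q.2))).card : ℝ) := by
          rw [← Nat.cast_sum]
          congr 1
          rw [card_eq_sum_card_fiberwise (f := fun q => q.2.1) (t := univ)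
            (fun q _ => mem_coe.mpr (mem_univ _))]
          apply sum_congr rfl
          intro r _
          refine card_bij' (fun q _ => (q.1, q.2.2)) (fun q _ => (q.1, (r, q.2))) ?_ ?_ ?_ ?_
          · rintro ⟨τ, r', x⟩ hq
            simp only [mem_filter, mem_univ, true_and] at hq ⊢
            obtain ⟨hq1, hq2⟩ := hq
            subst hq2
            exact hq1
          · rintro ⟨τ, x⟩ hq
            simp only [mem_filter, mem_univ, true_and] at hq ⊢
            exact ⟨hq, trivial⟩
          · rintro ⟨τ, r', x⟩ hq
            simp only [mem_filter, mem_univ, true_and] at hq ⊢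
            rw [hq.2]
          · rintro ⟨τ, x⟩ _; rfl
        rw [h3]
        calc _ ≤ ∑ _r : Str (K.cR j), 2 * ((QQ j : ℝ) + 1) * Fintype.card (Om (len {j})) :=
              sum_le_sum (fun r _ => h1 r)
          _ = _ := by
              rw [sum_const, nsmul_eq_mul, card_univ]
              simp
      have h2p : (0 : ℝ) < (2 : ℝ) ^ (K.cR j) := by positivity
      have hQp : (0 : ℝ) < (QQ j : ℝ) + 1 := by positivity
      have h5 := markov_count (T := Om (len {j})) (S := Str (K.cR j) × Str j)
        (fun τ q => FR j (emb {j} ρ τ) q) (fun τ => B true j (emb {j} ρ τ))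
        (a := 8 * ((j : ℝ) + 1) * (j + 2) * (QQ j + 1) * 2 ^ (K.cR j))
        (b := 2 ^ (K.cR j) * (2 * (QQ j + 1) * Fintype.card (Om (len {j})))) (by positivity)
        (by
          intro τ hτ
          have h6 : 8 * ((j : ℝ) + 1) * (j + 2) * (QQ j + 1) * 2 ^ (K.cR j)
              < (univ.filter (fun q => FR j (emb {j} ρ τ) q)).card := by
            simpa [B] using hτ
          exact h6.le) h2
      refine h5.trans (le_of_eq ?_)
      field_simp
      ring
  obtain ⟨π, hπ⟩ := exists_good B lenB hdep hrare
  refine ⟨π, A π, ?_, ?_⟩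
  · intro n
    have h1 := hπ false n
    have h2 : ¬ ((2 : ℝ) ^ (K.cG n) < 2 * (univ.filter (fun r => FA n π r)).card) := by
      simpa [B] using h1
    push Not at h2
    have h3 : ((univ.filter (fun r => ¬ FA n π r)).card : ℝ)
        + (univ.filter (fun r => FA n π r)).card = 2 ^ (K.cG n) := by
      have h4 := card_filter_add_card_filter_not (s := (univ : Finset (Str (K.cG n))))
        (fun r => FA n π r)
      rw [card_univ] at h4
      have h5 : Fintype.card (Str (K.cG n)) = 2 ^ (K.cG n) := by simp
      rw [h5] at h4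
      rw [add_comm]
      exact_mod_cast h4
    have h6 : (univ.filter (fun r : Str (K.cG n) =>
        A π n ((K.G n r).run (fun m => π m)) = (K.inst π n r).line π (K.inst π n r).L.1))
        = univ.filter (fun r => ¬ FA n π r) := by
      apply filter_congr
      intro r _
      simp only [FA, ne_eq, not_not]
      exact Iff.rfl
    unfold Construction.solves prob
    have h7 : (Fintype.card (Str (K.cG n)) : ℝ) = 2 ^ (K.cG n) := by simp
    rw [h7, div_le_div_iff₀ (by norm_num) (by positivity), one_mul]
    have h8 : (((univ.filter (fun r : Str (K.cG n) =>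
        A π n ((K.G n r).run (fun m => π m))
          = (K.inst π n r).line π (K.inst π n r).L.1)).card : ℕ) : ℝ)
        = (univ.filter (fun r => ¬ FA n π r)).card := by rw [h6]
    have h9 : (2 : ℝ) ^ (K.cG n) ≤ ((univ.filter (fun r => ¬ FA n π r)).card : ℝ) * 2 := by
      linarith
    rw [← h8] at h9
    convert h9
  · refine ⟨8 * (Polynomial.X + 1) * (Polynomial.X + 2)
      * (p * (qs.comp p + 1) + 1), ?_⟩
    intro m
    have h1 := hπ true m
    have h2 : ¬ (8 * ((m : ℝ) + 1) * (m + 2) * (QQ m + 1) * 2 ^ (K.cR m)
        < (univ.filter (fun q => FR m π q)).card) := by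
      simpa [B] using h1
    push Not at h2
    have h3 : (8 * (Polynomial.X + 1) * (Polynomial.X + 2)
      * (p * (qs.comp p + 1) + 1) : Polynomial ℕ).eval m
        = 8 * (m + 1) * (m + 2) * (QQ m + 1) := by
      simp [QQ, Polynomial.eval_comp]
    rw [h3]
    have h6 : (univ.filter (fun q : Str (K.cR m) × Str m =>
        (K.R m q.1 (π m q.2)).run (fun i => Sum.elim (π i) (A π i)) = q.2))
        = univ.filter (fun q => FR m π q) := by
      apply filter_congr
      intro q _
      simp only [FR]
      rw [run_inl]
    unfold Construction.inverts prob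
    have h7 : (Fintype.card (Str (K.cR m) × Str m) : ℝ) = 2 ^ (K.cR m) * 2 ^ m := by simp
    rw [h7, div_le_div_iff₀ (by positivity) (by positivity)]
    have h8 : (((univ.filter (fun q : Str (K.cR m) × Str m =>
        (K.R m q.1 (π m q.2)).run (fun i => Sum.elim (π i) (A π i)) = q.2)).card : ℕ) : ℝ)
        ≤ 8 * ((m : ℝ) + 1) * (m + 2) * (QQ m + 1) * 2 ^ (K.cR m) := by
      rw [h6]; exact h2
    have h9 : (((univ.filter (fun q : Str (K.cR m) × Str m =>
        (K.R m q.1 (π m q.2)).run (fun i => Sum.elim (π i) (A π i)) = q.2)).card : ℕ) : ℝ)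
          * 2 ^ m ≤ (8 * ((m : ℝ) + 1) * (m + 2) * (QQ m + 1) * 2 ^ (K.cR m)) * 2 ^ m := by
      gcongr
    push_cast
    calc _ ≤ (8 * ((m : ℝ) + 1) * (m + 2) * (QQ m + 1) * 2 ^ (K.cR m)) * 2 ^ m := by
          convert h9
      _ = _ := by ring

/-- No fully black-box construction exists. -/
theorem no_construction : ¬ ∃ K : Construction, K.FullyBlackBox := by
  rintro ⟨K, ⟨⟨p, hp⟩, hv, hred⟩⟩
  obtain ⟨π, A, hA, q, hq⟩ := separation K p (fun n => (hp n).1) (fun n => (hp n).2.1)
    (fun n => (hp n).2.2) hv
  refine hred π A ?_ (negligible_of_le q hq)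
  intro hneg
  have h1 := hneg 1
  have h2 := (h1.and (Filter.eventually_ge_atTop 3)).exists
  obtain ⟨n, hn1, hn2⟩ := h2
  have h3 := hA n
  have h4 : (3 : ℝ) ≤ n := by exact_mod_cast hn2
  have h5 : ((n : ℝ) ^ 1)⁻¹ ≤ 1 / 3 := by
    rw [pow_one, ← one_div]
    exact one_div_le_one_div_of_le (by norm_num) h4
  linarith

end Pool.Agent.H82.SVL
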